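import Mathlib
set_option autoImplicit false
namespace Pool.Agent.GEN

/-- scalar product of two integral vectors -/
def dot (v w : ℤ × ℤ × ℤ) : ℤ := v.1 * w.1 + v.2.1 * w.2.1 + v.2.2 * w.2.2

/-- the genus symbol at the prime `p` of two vectors which are isotropic modulo `p` -/
def chi (p : ℕ) (v w : ℤ × ℤ × ℤ) : ℤ :=
  if (p : ℤ) ∣ dot v w then
    (if (p : ℤ) ∣ w.1 then jacobiSym (v.2.1 * w.2.1) p else jacobiSym (v.1 * w.1) p)
  else jacobiSym (2 * dot v w) p

/-- nonzero and isotropic modulo `p` -/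
def Iso (p : ℕ) (v : ℤ × ℤ × ℤ) : Prop :=
  (p : ℤ) ∣ dot v v ∧ ¬ ((p : ℤ) ∣ v.1 ∧ (p : ℤ) ∣ v.2.1 ∧ (p : ℤ) ∣ v.2.2)

theorem dot_comm (v w : ℤ × ℤ × ℤ) : dot v w = dot w v := by unfold dot; ring

theorem sq_sym {p : ℕ} [Fact p.Prime] (x s : ℤ) (h : (p : ℤ) ∣ x - s ^ 2) (hx : ¬ (p : ℤ) ∣ x) :
    jacobiSym x p = 1 := by
  rw [← jacobiSym.legendreSym.to_jacobiSym, legendreSym.eq_one_iff]
  · have h1 : ((x - s ^ 2 : ℤ) : ZMod p) = 0 := (ZMod.intCast_zmod_eq_zero_iff_dvd _ _).2 h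
    refine ⟨(s : ZMod p), ?_⟩
    push_cast at h1
    linear_combination h1
  · intro h0; exact hx ((ZMod.intCast_zmod_eq_zero_iff_dvd _ _).1 h0)

theorem sym_pm {p : ℕ} [Fact p.Prime] (x : ℤ) (hx : ¬ (p : ℤ) ∣ x) :
    jacobiSym x p = 1 ∨ jacobiSym x p = -1 := by
  apply jacobiSym.eq_one_or_neg_one
  have hp : p.Prime := Fact.out
  have : Nat.Coprime p x.natAbs := (Nat.Prime.coprime_iff_not_dvd hp).2 (by
    intro h; exact hx (Int.natCast_dvd.2 h))
  rw [Int.gcd_comm]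
  exact this

theorem mul_pm {a b c : ℤ} (ha : a = 1 ∨ a = -1) (hb : b = 1 ∨ b = -1) (hc : c = 1 ∨ c = -1)
    (h : a * b * c = 1) : a * b = c := by
  rcases ha with rfl | rfl <;> rcases hb with rfl | rfl <;> rcases hc with rfl | rfl <;> simp_all

/-- three symbols whose product is the symbol of a square -/
theorem three_sym {p : ℕ} [Fact p.Prime] (x y z s : ℤ) (h : (p : ℤ) ∣ x * y * z - s ^ 2)
    (hx : ¬ (p : ℤ) ∣ x) (hy : ¬ (p : ℤ) ∣ y) (hz : ¬ (p : ℤ) ∣ z) :
    jacobiSym x p * jacobiSym y p = jacobiSym z p := by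
  have hp : Prime (p : ℤ) := Nat.prime_iff_prime_int.1 Fact.out
  apply mul_pm (sym_pm x hx) (sym_pm y hy) (sym_pm z hz)
  rw [← jacobiSym.mul_left, ← jacobiSym.mul_left]
  apply sq_sym _ s h
  intro h1
  rcases hp.dvd_or_dvd h1 with h2 | h2
  · rcases hp.dvd_or_dvd h2 with h3 | h3
    · exact hx h3
    · exact hy h3
  · exact hz h2

/-- two orthogonal isotropic vectors modulo `p` are proportional -/
theorem iso_prop {p : ℕ} [Fact p.Prime] {v w : ℤ × ℤ × ℤ} (hv : Iso p v) (hw : Iso p w)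
    (h : (p : ℤ) ∣ dot v w) : ∃ l : ℤ, ¬ (p : ℤ) ∣ l ∧ (p : ℤ) ∣ v.1 - l * w.1 ∧
      (p : ℤ) ∣ v.2.1 - l * w.2.1 ∧ (p : ℤ) ∣ v.2.2 - l * w.2.2 := by
  obtain ⟨v1, v2, v3⟩ := v
  obtain ⟨w1, w2, w3⟩ := w
  obtain ⟨hv1, hv2⟩ := hv
  obtain ⟨hw1, hw2⟩ := hw
  simp only [dot] at *
  have hp : Prime (p : ℤ) := Nat.prime_iff_prime_int.1 Fact.out
  -- work in the field
  have c1 : ((v1 : ZMod p) * v1 + v2 * v2 + v3 * v3) = 0 := by
    have := (ZMod.intCast_zmod_eq_zero_iff_dvd _ _).2 hv1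
    push_cast at this; exact this
  have c2 : ((w1 : ZMod p) * w1 + w2 * w2 + w3 * w3) = 0 := by
    have := (ZMod.intCast_zmod_eq_zero_iff_dvd _ _).2 hw1
    push_cast at this; exact this
  have c3 : ((v1 : ZMod p) * w1 + v2 * w2 + v3 * w3) = 0 := by
    have := (ZMod.intCast_zmod_eq_zero_iff_dvd _ _).2 h
    push_cast at this; exact this
  have d : ∀ a : ℤ, (p : ℤ) ∣ a ↔ (a : ZMod p) = 0 := fun a =>
    (ZMod.intCast_zmod_eq_zero_iff_dvd _ _).symm
  rw [d, d, d] at hv2 hw2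
  -- cross product
  set x1 : ZMod p := v2 * w3 - v3 * w2 with hx1
  set x2 : ZMod p := v3 * w1 - v1 * w3 with hx2
  set x3 : ZMod p := v1 * w2 - v2 * w1 with hx3
  have y1 : (v2 : ZMod p) * x3 - v3 * x2 = 0 := by
    rw [hx2, hx3]; linear_combination (v1 : ZMod p) * c3 - w1 * c1
  have y2 : (v3 : ZMod p) * x1 - v1 * x3 = 0 := by
    rw [hx1, hx3]; linear_combination (v2 : ZMod p) * c3 - w2 * c1
  have y3 : (v1 : ZMod p) * x2 - v2 * x1 = 0 := by
    rw [hx1, hx2]; linear_combination (v3 : ZMod p) * c3 - w3 * c1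
  have z1 : (w2 : ZMod p) * x3 - w3 * x2 = 0 := by
    rw [hx2, hx3]; linear_combination (v1 : ZMod p) * c2 - w1 * c3
  have z2 : (w3 : ZMod p) * x1 - w1 * x3 = 0 := by
    rw [hx1, hx3]; linear_combination (v2 : ZMod p) * c2 - w2 * c3
  have z3 : (w1 : ZMod p) * x2 - w2 * x1 = 0 := by
    rw [hx1, hx2]; linear_combination (v3 : ZMod p) * c2 - w3 * c3
  have cr : x1 = 0 ∧ x2 = 0 ∧ x3 = 0 := by
    by_contra hne
    -- each pair of coordinates: x_i * x_j = 0 and so on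
    have e1 : x1 * x1 = 0 := by
      have : x1 * x1 = (v2 : ZMod p) * (w3 * x1) - v3 * (w2 * x1) := by rw [hx1]; ring
      rw [this]
      have a1 : (w3 : ZMod p) * x1 = w1 * x3 := by linear_combination z2
      have a2 : (w2 : ZMod p) * x1 = w1 * x2 := by linear_combination -z3
      rw [a1, a2]; linear_combination (w1 : ZMod p) * y1
    have e2 : x2 * x2 = 0 := by
      have : x2 * x2 = (v3 : ZMod p) * (w1 * x2) - v1 * (w3 * x2) := by rw [hx2]; ring
      rw [this]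
      have a1 : (w1 : ZMod p) * x2 = w2 * x1 := by linear_combination z3
      have a2 : (w3 : ZMod p) * x2 = w2 * x3 := by linear_combination -z1
      rw [a1, a2]; linear_combination (w2 : ZMod p) * y2
    have e3 : x3 * x3 = 0 := by
      have : x3 * x3 = (v1 : ZMod p) * (w2 * x3) - v2 * (w1 * x3) := by rw [hx3]; ring
      rw [this]
      have a1 : (w2 : ZMod p) * x3 = w3 * x2 := by linear_combination z1
      have a2 : (w1 : ZMod p) * x3 = w3 * x1 := by linear_combination -z2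
      rw [a1, a2]; linear_combination (w3 : ZMod p) * y3
    exact hne ⟨mul_self_eq_zero.1 e1, mul_self_eq_zero.1 e2, mul_self_eq_zero.1 e3⟩
  obtain ⟨k1, k2, k3⟩ := cr
  rw [hx1] at k1
  rw [hx2] at k2
  rw [hx3] at k3
  have key : ∃ l : ZMod p, (v1 : ZMod p) = l * w1 ∧ (v2 : ZMod p) = l * w2 ∧
      (v3 : ZMod p) = l * w3 := by
    by_cases q1 : (w1 : ZMod p) = 0
    · by_cases q2 : (w2 : ZMod p) = 0
      · exfalso
        apply hw2
        refine ⟨q1, q2, ?_⟩
        rw [q1, q2] at c2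
        apply mul_self_eq_zero.1
        linear_combination c2
      · refine ⟨v2 / w2, ?_, ?_, ?_⟩
        · field_simp; linear_combination k3
        · field_simp
        · field_simp; linear_combination -k1
    · refine ⟨v1 / w1, ?_, ?_, ?_⟩
      · field_simp
      · field_simp; linear_combination -k3
      · field_simp; linear_combination k2
  obtain ⟨l, l1, l2, l3⟩ := key
  obtain ⟨l', rfl⟩ := ZMod.intCast_surjective l
  refine ⟨l', ?_, ?_, ?_, ?_⟩
  · rw [d]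
    intro h0
    rw [h0] at l1 l2 l3
    exact hv2 ⟨by simpa using l1, by simpa using l2, by simpa using l3⟩
  · rw [d]; push_cast; linear_combination l1
  · rw [d]; push_cast; linear_combination l2
  · rw [d]; push_cast; linear_combination l3

end Pool.Agent.GEN
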