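import Mathlib
import Pool.Agent.Lib_helper72.GEN.A
set_option autoImplicit false
namespace Pool.Agent.GEN

theorem dvd_eq {p a b : ℤ} (h : p ∣ a) (e : a = b) : p ∣ b := e ▸ h

/-- the integer whose symbol is `chi` -/
def tval (p : ℕ) (v w : ℤ × ℤ × ℤ) : ℤ :=
  if (p : ℤ) ∣ dot v w then (if (p : ℤ) ∣ w.1 then v.2.1 * w.2.1 else v.1 * w.1) else 2 * dot v w

theorem chi_eq (p : ℕ) (v w : ℤ × ℤ × ℤ) : chi p v w = jacobiSym (tval p v w) p := by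
  unfold chi tval; split_ifs <;> rfl

theorem two_nd {p : ℕ} [Fact p.Prime] (h2 : p ≠ 2) : ¬ (p : ℤ) ∣ 2 := by
  intro h
  have h1 : p ∣ 2 := by exact_mod_cast h
  exact h2 ((Nat.prime_dvd_prime_iff_eq Fact.out Nat.prime_two).1 h1)

theorem iso_second {p : ℕ} [Fact p.Prime] {w : ℤ × ℤ × ℤ} (hw : Iso p w) (h : (p : ℤ) ∣ w.1) :
    ¬ (p : ℤ) ∣ w.2.1 := by
  intro h'
  have hp : Prime (p : ℤ) := Nat.prime_iff_prime_int.1 Fact.out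
  apply hw.2
  refine ⟨h, h', ?_⟩
  have h1 := hw.1
  unfold dot at h1
  have h2 : (p : ℤ) ∣ w.2.2 * w.2.2 := by
    have h3 := dvd_sub h1 (dvd_add (dvd_mul_of_dvd_left h w.1) (dvd_mul_of_dvd_left h' w.2.1))
    exact dvd_eq h3 (by ring)
  rcases hp.dvd_or_dvd h2 with h3 | h3 <;> exact h3

/-- the value in the degenerate case -/
theorem tval_deg {p : ℕ} [Fact p.Prime] {v w : ℤ × ℤ × ℤ} (hw : Iso p w)
    (h : (p : ℤ) ∣ dot v w) (l : ℤ) (h1 : (p : ℤ) ∣ v.1 - l * w.1)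
    (h2 : (p : ℤ) ∣ v.2.1 - l * w.2.1) :
    ∃ e : ℤ, ¬ (p : ℤ) ∣ e ∧ (p : ℤ) ∣ tval p v w - l * e ^ 2 := by
  unfold tval
  rw [if_pos h]
  by_cases h3 : (p : ℤ) ∣ w.1
  · rw [if_pos h3]
    refine ⟨w.2.1, iso_second hw h3, ?_⟩
    exact dvd_eq (dvd_mul_of_dvd_left h2 w.2.1) (by ring)
  · rw [if_neg h3]
    refine ⟨w.1, h3, ?_⟩
    exact dvd_eq (dvd_mul_of_dvd_left h1 w.1) (by ring)

theorem tval_nd {p : ℕ} [Fact p.Prime] (hp2 : p ≠ 2) {v w : ℤ × ℤ × ℤ} (hv : Iso p v)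
    (hw : Iso p w) : ¬ (p : ℤ) ∣ tval p v w := by
  have hp : Prime (p : ℤ) := Nat.prime_iff_prime_int.1 Fact.out
  by_cases h : (p : ℤ) ∣ dot v w
  · obtain ⟨l, hl, h1, h2, h3⟩ := iso_prop hv hw h
    obtain ⟨e, he, he2⟩ := tval_deg hw h l h1 h2
    intro h4
    have h5 : (p : ℤ) ∣ l * e ^ 2 := by
      exact dvd_eq (dvd_sub h4 he2) (by ring)
    rcases hp.dvd_or_dvd h5 with h6 | h6
    · exact hl h6
    · exact he (hp.dvd_of_dvd_pow h6)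
  · unfold tval
    rw [if_neg h]
    intro h4
    rcases hp.dvd_or_dvd h4 with h6 | h6
    · exact two_nd hp2 h6
    · exact h h6

theorem chi_pm {p : ℕ} [Fact p.Prime] (hp2 : p ≠ 2) {v w : ℤ × ℤ × ℤ} (hv : Iso p v)
    (hw : Iso p w) : chi p v w = 1 ∨ chi p v w = -1 := by
  rw [chi_eq]; exact sym_pm _ (tval_nd hp2 hv hw)

theorem dvd_combo (p a b c x y : ℤ) (h1 : p ∣ a) (h2 : p ∣ b) (h : c = x * a + y * b) : p ∣ c := by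
  rw [h]; exact dvd_add (dvd_mul_of_dvd_right h1 _) (dvd_mul_of_dvd_right h2 _)

/-- Gram determinant modulo `p` of three isotropic vectors -/
theorem gram {p : ℕ} [Fact p.Prime] {u v w : ℤ × ℤ × ℤ} (hu : Iso p u) (hv : Iso p v)
    (hw : Iso p w) : ∃ s : ℤ, (p : ℤ) ∣ (2 * dot u v) * (2 * dot v w) * (2 * dot u w) - s ^ 2 := by
  obtain ⟨a, ha⟩ := hu.1
  obtain ⟨b, hb⟩ := hv.1
  obtain ⟨c, hc⟩ := hw.1
  obtain ⟨u1, u2, u3⟩ := u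
  obtain ⟨v1, v2, v3⟩ := v
  obtain ⟨w1, w2, w3⟩ := w
  simp only [dot] at *
  refine ⟨2 * (u1 * (v2 * w3 - v3 * w2) - u2 * (v1 * w3 - v3 * w1) + u3 * (v1 * w2 - v2 * w1)), ?_⟩
  -- det^2 = Gram
  have key : (2 * (u1 * v1 + u2 * v2 + u3 * v3)) * (2 * (v1 * w1 + v2 * w2 + v3 * w3)) *
      (2 * (u1 * w1 + u2 * w2 + u3 * w3)) -
      (2 * (u1 * (v2 * w3 - v3 * w2) - u2 * (v1 * w3 - v3 * w1) + u3 * (v1 * w2 - v2 * w1))) ^ 2 =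
      4 * ((u1 * u1 + u2 * u2 + u3 * u3) * (v1 * w1 + v2 * w2 + v3 * w3) ^ 2 +
      (v1 * v1 + v2 * v2 + v3 * v3) * (u1 * w1 + u2 * w2 + u3 * w3) ^ 2 +
      (w1 * w1 + w2 * w2 + w3 * w3) * (u1 * v1 + u2 * v2 + u3 * v3) ^ 2 -
      (u1 * u1 + u2 * u2 + u3 * u3) * (v1 * v1 + v2 * v2 + v3 * v3) *
        (w1 * w1 + w2 * w2 + w3 * w3)) := by ring
  rw [key, ha, hb, hc]
  refine ⟨4 * (a * (v1 * w1 + v2 * w2 + v3 * w3) ^ 2 + b * (u1 * w1 + u2 * w2 + u3 * w3) ^ 2 +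
    c * (u1 * v1 + u2 * v2 + u3 * v3) ^ 2 - a * (p * b) * (p * c)), ?_⟩
  ring

theorem dot_of_prop {p : ℤ} {u v w : ℤ × ℤ × ℤ} (l : ℤ) (h1 : p ∣ u.1 - l * v.1)
    (h2 : p ∣ u.2.1 - l * v.2.1) (h3 : p ∣ u.2.2 - l * v.2.2) : p ∣ dot u w - l * dot v w := by
  obtain ⟨a, ha⟩ := h1
  obtain ⟨b, hb⟩ := h2
  obtain ⟨c, hc⟩ := h3
  unfold dot
  refine ⟨a * w.1 + b * w.2.1 + c * w.2.2, ?_⟩
  linear_combination w.1 * ha + w.2.1 * hb + w.2.2 * hc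

/-- symmetric with the square class of the proportionality factor -/
theorem chi_deg {p : ℕ} [Fact p.Prime] {v w : ℤ × ℤ × ℤ} (hw : Iso p w)
    (h : (p : ℤ) ∣ dot v w) (l : ℤ) (hl : ¬ (p : ℤ) ∣ l) (h1 : (p : ℤ) ∣ v.1 - l * w.1)
    (h2 : (p : ℤ) ∣ v.2.1 - l * w.2.1) : chi p v w = jacobiSym l p := by
  have hp : Prime (p : ℤ) := Nat.prime_iff_prime_int.1 Fact.out
  obtain ⟨e, he, he2⟩ := tval_deg hw h l h1 h2
  have hle : ¬ (p : ℤ) ∣ l * e ^ 2 := by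
    intro h4
    rcases hp.dvd_or_dvd h4 with h6 | h6
    · exact hl h6
    · exact he (hp.dvd_of_dvd_pow h6)
  have h3 : ¬ (p : ℤ) ∣ tval p v w := by
    intro h4
    apply hle
    exact dvd_eq (dvd_sub h4 he2) (by ring)
  rw [chi_eq]
  have h5 : jacobiSym (tval p v w) p = jacobiSym (l * e ^ 2) p := by
    rw [jacobiSym.mod_left, jacobiSym.mod_left (l * e ^ 2)]
    congr 1
    exact ((Int.emod_emod_of_dvd _ (dvd_refl _)).symm.trans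
      (by rw [Int.emod_emod_of_dvd _ (dvd_refl _)]; exact (Int.modEq_iff_dvd.2 he2).symm))
  rw [h5, jacobiSym.mul_left, pow_two, jacobiSym.mul_left]
  rcases sym_pm e he with h6 | h6 <;> rw [h6] <;> ring

end Pool.Agent.GEN
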