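import Mathlib
import Pool.Agent.Lib_helper72.GEN.B
set_option autoImplicit false
namespace Pool.Agent.GEN

theorem chi_nd {p : ℕ} {v w : ℤ × ℤ × ℤ} (h : ¬ (p : ℤ) ∣ dot v w) :
    chi p v w = jacobiSym (2 * dot v w) p := by
  unfold chi; rw [if_neg h]

theorem chi_self {p : ℕ} [Fact p.Prime] {v : ℤ × ℤ × ℤ} (hv : Iso p v) : chi p v v = 1 := by
  have h1 : ¬ (p : ℤ) ∣ 1 := by
    intro h
    exact (Nat.prime_iff_prime_int.1 (Fact.out : p.Prime)).not_dvd_one h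
  rw [chi_deg hv hv.1 1 h1 (by simp) (by simp)]
  simp

theorem chi_comm {p : ℕ} [Fact p.Prime] {v w : ℤ × ℤ × ℤ} (hv : Iso p v) (hw : Iso p w) :
    chi p v w = chi p w v := by
  have hp : Prime (p : ℤ) := Nat.prime_iff_prime_int.1 Fact.out
  by_cases h : (p : ℤ) ∣ dot v w
  · obtain ⟨l, hl, h1, h2, h3⟩ := iso_prop hv hw h
    have h' : (p : ℤ) ∣ dot w v := by rw [dot_comm]; exact h
    obtain ⟨m, hm, k1, k2, k3⟩ := iso_prop hw hv h'
    rw [chi_deg hw h l hl h1 h2, chi_deg hv h' m hm k1 k2]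
    -- l m is 1 modulo p
    have hlm : (p : ℤ) ∣ l * m - 1 := by
      by_cases q : (p : ℤ) ∣ w.1
      · have q2 := iso_second hw q
        have e : (p : ℤ) ∣ (l * m - 1) * w.2.1 :=
          dvd_eq (dvd_sub (dvd_mul_of_dvd_right h2 (-m)) k2) (by ring)
        rcases hp.dvd_or_dvd e with h6 | h6
        · exact h6
        · exact absurd h6 q2
      · have e : (p : ℤ) ∣ (l * m - 1) * w.1 :=
          dvd_eq (dvd_sub (dvd_mul_of_dvd_right h1 (-m)) k1) (by ring)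
        rcases hp.dvd_or_dvd e with h6 | h6
        · exact h6
        · exact absurd h6 q
    have e := three_sym (p := p) l m 1 1 (dvd_eq hlm (by ring)) hl hm hp.not_dvd_one
    rw [jacobiSym.one_left] at e
    rcases sym_pm l hl with a | a <;> rcases sym_pm m hm with b | b <;> rw [a, b] at e ⊢ <;>
      norm_num at e
  · have h' : ¬ (p : ℤ) ∣ dot w v := by rw [dot_comm]; exact h
    rw [chi_nd h, chi_nd h', dot_comm]

/-- transitivity of the genus symbol -/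
theorem chi_trans {p : ℕ} [Fact p.Prime] (hp2 : p ≠ 2) {u v w : ℤ × ℤ × ℤ} (hu : Iso p u)
    (hv : Iso p v) (hw : Iso p w) : chi p u v * chi p v w = chi p u w := by
  have hp : Prime (p : ℤ) := Nat.prime_iff_prime_int.1 Fact.out
  have nd : ∀ a b : ℤ × ℤ × ℤ, ¬ (p : ℤ) ∣ dot a b → ¬ (p : ℤ) ∣ 2 * dot a b := by
    intro a b h h'
    rcases hp.dvd_or_dvd h' with h6 | h6
    · exact two_nd hp2 h6
    · exact h h6
  by_cases h1 : (p : ℤ) ∣ dot u v
  · obtain ⟨l, hl, a1, a2, a3⟩ := iso_prop hu hv h1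
    have e1 := chi_deg hv h1 l hl a1 a2
    have e2 := dot_of_prop (w := w) l a1 a2 a3
    by_cases h2 : (p : ℤ) ∣ dot v w
    · obtain ⟨m, hm, b1, b2, b3⟩ := iso_prop hv hw h2
      have h3 : (p : ℤ) ∣ dot u w := dvd_eq (dvd_add e2 (dvd_mul_of_dvd_right h2 l)) (by ring)
      have hlm : ¬ (p : ℤ) ∣ l * m := by
        intro h6
        rcases hp.dvd_or_dvd h6 with h6 | h6
        · exact hl h6
        · exact hm h6
      rw [e1, chi_deg hw h2 m hm b1 b2, chi_deg hw h3 (l * m) hlm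
        (dvd_eq (dvd_add a1 (dvd_mul_of_dvd_right b1 l)) (by ring))
        (dvd_eq (dvd_add a2 (dvd_mul_of_dvd_right b2 l)) (by ring)), jacobiSym.mul_left]
    · have h3 : ¬ (p : ℤ) ∣ dot u w := by
        intro h3
        have h6 : (p : ℤ) ∣ l * dot v w := dvd_eq (dvd_sub h3 e2) (by ring)
        rcases hp.dvd_or_dvd h6 with h6 | h6
        · exact hl h6
        · exact h2 h6
      rw [e1, chi_nd h2, chi_nd h3]
      apply three_sym l (2 * dot v w) (2 * dot u w) (2 * l * dot v w) _ hl (nd _ _ h2) (nd _ _ h3)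
      exact dvd_eq (dvd_mul_of_dvd_right e2 (4 * l * dot v w)) (by ring)
  · by_cases h2 : (p : ℤ) ∣ dot v w
    · obtain ⟨m, hm, b1, b2, b3⟩ := iso_prop hv hw h2
      have e2 : (p : ℤ) ∣ dot u v - m * dot u w := by
        have := dot_of_prop (w := u) m b1 b2 b3
        rw [dot_comm v u, dot_comm w u] at this
        exact this
      have h3 : ¬ (p : ℤ) ∣ dot u w := by
        intro h3
        exact h1 (dvd_eq (dvd_add e2 (dvd_mul_of_dvd_right h3 m)) (by ring))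
      rw [chi_nd h1, chi_nd h3, chi_deg hw h2 m hm b1 b2]
      apply three_sym (2 * dot u v) m (2 * dot u w) (2 * m * dot u w) _ (nd _ _ h1) hm (nd _ _ h3)
      exact dvd_eq (dvd_mul_of_dvd_right e2 (4 * m * dot u w)) (by ring)
    · by_cases h3 : (p : ℤ) ∣ dot u w
      · obtain ⟨l, hl, a1, a2, a3⟩ := iso_prop hu hw h3
        have e2 : (p : ℤ) ∣ dot u v - l * dot v w := by
          have := dot_of_prop (w := v) l a1 a2 a3
          rw [dot_comm w v] at this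
          exact this
        rw [chi_nd h1, chi_nd h2, chi_deg hw h3 l hl a1 a2]
        apply three_sym (2 * dot u v) (2 * dot v w) l (2 * l * dot v w) _ (nd _ _ h1) (nd _ _ h2) hl
        exact dvd_eq (dvd_mul_of_dvd_right e2 (4 * l * dot v w)) (by ring)
      · obtain ⟨s, hs⟩ := gram hu hv hw
        rw [chi_nd h1, chi_nd h2, chi_nd h3]
        exact three_sym _ _ _ s hs (nd _ _ h1) (nd _ _ h2) (nd _ _ h3)

/-- the symbol of a vector and a rotated vector: `w N(a) = a v a'`, `a = a0 + (a1,a2,a3)` -/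
theorem chi_rot {p : ℕ} [Fact p.Prime] (hp2 : p ≠ 2) {v w : ℤ × ℤ × ℤ} (hv : Iso p v) (hw : Iso p w)
    (a0 a1 a2 a3 : ℤ) (N : ℤ) (hNp : ¬ (p : ℤ) ∣ N)
    (h1 : w.1 * N = (a0 ^ 2 - a1 ^ 2 - a2 ^ 2 - a3 ^ 2) * v.1 +
      2 * (a1 * v.1 + a2 * v.2.1 + a3 * v.2.2) * a1 + 2 * a0 * (a2 * v.2.2 - a3 * v.2.1))
    (h2 : w.2.1 * N = (a0 ^ 2 - a1 ^ 2 - a2 ^ 2 - a3 ^ 2) * v.2.1 +
      2 * (a1 * v.1 + a2 * v.2.1 + a3 * v.2.2) * a2 + 2 * a0 * (a3 * v.1 - a1 * v.2.2))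
    (h3 : w.2.2 * N = (a0 ^ 2 - a1 ^ 2 - a2 ^ 2 - a3 ^ 2) * v.2.2 +
      2 * (a1 * v.1 + a2 * v.2.1 + a3 * v.2.2) * a3 + 2 * a0 * (a1 * v.2.1 - a2 * v.1)) :
    chi p v w = jacobiSym N p := by
  have hp : Prime (p : ℤ) := Nat.prime_iff_prime_int.1 Fact.out
  obtain ⟨c, hc⟩ := hv.1
  have hc' : v.1 * v.1 + v.2.1 * v.2.1 + v.2.2 * v.2.2 = p * c := hc
  set D := a1 * v.1 + a2 * v.2.1 + a3 * v.2.2 with hD
  have key : 2 * dot v w * N = 4 * D ^ 2 + 2 * (a0 ^ 2 - a1 ^ 2 - a2 ^ 2 - a3 ^ 2) * (p * c) := by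
    unfold dot
    linear_combination 2 * v.1 * h1 + 2 * v.2.1 * h2 + 2 * v.2.2 * h3 +
      2 * (a0 ^ 2 - a1 ^ 2 - a2 ^ 2 - a3 ^ 2) * hc'
  by_cases h : (p : ℤ) ∣ dot v w
  · -- degenerate case
    have hD1 : (p : ℤ) ∣ D := by
      have e : (p : ℤ) ∣ (2 * D) ^ 2 := by
        obtain ⟨k, hk⟩ := h
        rw [hk] at key
        refine ⟨2 * k * N - 2 * (a0 ^ 2 - a1 ^ 2 - a2 ^ 2 - a3 ^ 2) * c, ?_⟩
        linear_combination -key
      rcases hp.dvd_or_dvd (hp.dvd_of_dvd_pow e) with h6 | h6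
      · exact absurd h6 (two_nd hp2)
      · exact h6
    obtain ⟨d, hd⟩ := hD1
    obtain ⟨l, hl, b1, b2, b3⟩ := iso_prop hv hw h
    have hnl : ∀ x y : ℤ, (p : ℤ) ∣ x - l * y → ¬ (p : ℤ) ∣ y → ¬ (p : ℤ) ∣ x := by
      intro x y hxy hy hx
      have h6 : (p : ℤ) ∣ l * y := dvd_eq (dvd_sub hx hxy) (by ring)
      rcases hp.dvd_or_dvd h6 with h6 | h6
      · exact hl h6
      · exact hy h6
    have fin : ∀ x y s : ℤ, ¬ (p : ℤ) ∣ x * y → (p : ℤ) ∣ x * y * N - s ^ 2 →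
        jacobiSym (x * y) p = jacobiSym N p := by
      intro x y s hxy hs
      have h7 := three_sym (p := p) (x * y) N 1 s (dvd_eq hs (by ring)) hxy hNp hp.not_dvd_one
      rw [jacobiSym.one_left] at h7
      rcases sym_pm (x * y) hxy with a | a <;> rcases sym_pm N hNp with b | b <;> rw [a, b] at h7 ⊢ <;>
        norm_num at h7
    unfold chi
    rw [if_pos h]
    by_cases q : (p : ℤ) ∣ w.1
    · rw [if_pos q]
      have q2 := iso_second hw q
      have q3 := hnl _ _ b2 q2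
      apply fin _ _ (a0 * v.2.1 + (a3 * v.1 - a1 * v.2.2))
      · intro h6
        rcases hp.dvd_or_dvd h6 with h6 | h6
        · exact q3 h6
        · exact q2 h6
      · refine ⟨2 * d * a2 * v.2.1 - ((a1 ^ 2 + a3 ^ 2) * c - d * D + 2 * d * a2 * v.2.1), ?_⟩
        have e1 : v.2.1 * w.2.1 * N = v.2.1 * (w.2.1 * N) := by ring
        rw [e1, h2]
        have e2 : a1 * v.1 + a3 * v.2.2 = p * d - a2 * v.2.1 := by rw [← hd, hD]; ring
        have e3 : v.1 * v.1 + v.2.2 * v.2.2 = p * c - v.2.1 * v.2.1 := by rw [← hc']; ring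
        have e4 : (a3 * v.1 - a1 * v.2.2) ^ 2 = (a1 ^ 2 + a3 ^ 2) * (v.1 * v.1 + v.2.2 * v.2.2) -
          (a1 * v.1 + a3 * v.2.2) ^ 2 := by ring
        rw [e2, e3] at e4
        rw [hd]
        linear_combination -e4
    · rw [if_neg q]
      have q3 := hnl _ _ b1 q
      apply fin _ _ (a0 * v.1 + (a2 * v.2.2 - a3 * v.2.1))
      · intro h6
        rcases hp.dvd_or_dvd h6 with h6 | h6
        · exact q3 h6
        · exact q h6
      · refine ⟨2 * d * a1 * v.1 - ((a2 ^ 2 + a3 ^ 2) * c - d * D + 2 * d * a1 * v.1), ?_⟩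
        have e1 : v.1 * w.1 * N = v.1 * (w.1 * N) := by ring
        rw [e1, h1]
        have e2 : a2 * v.2.1 + a3 * v.2.2 = p * d - a1 * v.1 := by rw [← hd, hD]; ring
        have e3 : v.2.1 * v.2.1 + v.2.2 * v.2.2 = p * c - v.1 * v.1 := by rw [← hc']; ring
        have e4 : (a2 * v.2.2 - a3 * v.2.1) ^ 2 =
          (a2 ^ 2 + a3 ^ 2) * (v.2.1 * v.2.1 + v.2.2 * v.2.2) -
          (a2 * v.2.1 + a3 * v.2.2) ^ 2 := by ring
        rw [e2, e3] at e4
        rw [hd]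
        linear_combination -e4
  · rw [chi_nd h]
    have hx : ¬ (p : ℤ) ∣ 2 * dot v w := by
      intro h'
      rcases hp.dvd_or_dvd h' with h6 | h6
      · exact two_nd hp2 h6
      · exact h h6
    have h7 := three_sym (p := p) (2 * dot v w) N 1 (2 * D)
      ⟨2 * (a0 ^ 2 - a1 ^ 2 - a2 ^ 2 - a3 ^ 2) * c, by linear_combination key⟩ hx hNp hp.not_dvd_one
    rw [jacobiSym.one_left] at h7
    rcases sym_pm _ hx with a | a <;> rcases sym_pm N hNp with b | b <;> rw [a, b] at h7 ⊢ <;>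
      norm_num at h7

end Pool.Agent.GEN
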