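import Mathlib
import Pool.Agent.Lib_helper72.TM32.E3d
import Pool.Agent.Lib_helper72.GEN.C
set_option autoImplicit false
namespace Pool.Agent.GEN
open Pool.Agent.TM32

/-- the vector of a quaternion -/
def vec (μ : Hq) : ℤ × ℤ × ℤ := (μ.imI, μ.imJ, μ.imK)

/-- the pure quaternion of a vector -/
def quat (v : ℤ × ℤ × ℤ) : Hq := mkq 0 v.1 v.2.1 v.2.2

theorem vec_quat (v : ℤ × ℤ × ℤ) : vec (quat v) = v := rfl

theorem quat_vec {n : ℕ} {μ : Hq} (h : IsOm n μ) : quat (vec μ) = μ := by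
  apply Quaternion.ext
  · exact h.re0.symm
  · rfl
  · rfl
  · rfl

theorem iso_of {n p : ℕ} [Fact p.Prime] (hs : Squarefree n) (hp : p ∣ n) {v : ℤ × ℤ × ℤ}
    (hv : v.1 ^ 2 + v.2.1 ^ 2 + v.2.2 ^ 2 = n) : Iso p v := by
  refine ⟨?_, ?_⟩
  · have e : dot v v = n := by rw [← hv]; unfold dot; ring
    rw [e]; exact_mod_cast hp
  · rintro ⟨⟨a, ha⟩, ⟨b, hb⟩, ⟨c, hc⟩⟩
    have h1 : (p : ℤ) * p ∣ (n : ℤ) := by
      rw [← hv, ha, hb, hc]
      exact ⟨a ^ 2 + b ^ 2 + c ^ 2, by ring⟩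
    have h2 : p * p ∣ n := by exact_mod_cast h1
    have h3 := hs p h2
    exact (Fact.out : p.Prime).one_lt.ne' (Nat.isUnit_iff.1 h3)

theorem rot_eq {μ μ' a : Hq} (h0 : μ.re = 0) (ht : a * μ = μ' * a) :
    μ'.imI * nrm a = (a.re ^ 2 - a.imI ^ 2 - a.imJ ^ 2 - a.imK ^ 2) * μ.imI +
      2 * (a.imI * μ.imI + a.imJ * μ.imJ + a.imK * μ.imK) * a.imI +
      2 * a.re * (a.imJ * μ.imK - a.imK * μ.imJ) ∧
    μ'.imJ * nrm a = (a.re ^ 2 - a.imI ^ 2 - a.imJ ^ 2 - a.imK ^ 2) * μ.imJ +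
      2 * (a.imI * μ.imI + a.imJ * μ.imJ + a.imK * μ.imK) * a.imJ +
      2 * a.re * (a.imK * μ.imI - a.imI * μ.imK) ∧
    μ'.imK * nrm a = (a.re ^ 2 - a.imI ^ 2 - a.imJ ^ 2 - a.imK ^ 2) * μ.imK +
      2 * (a.imI * μ.imI + a.imJ * μ.imJ + a.imK * μ.imK) * a.imK +
      2 * a.re * (a.imI * μ.imJ - a.imJ * μ.imI) := by
  have e : ((nrm a : ℤ) : Hq) * μ' = a * μ * star a := by
    rw [ht, mul_assoc, self_mul_star', int_comm]
  refine ⟨?_, ?_, ?_⟩
  · have e1 := congrArg (fun q : Hq => q.imI) e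
    simp only [int_mul_imI] at e1
    rw [mul_comm, e1]
    simp only [Quaternion.re_mul, Quaternion.imI_mul, Quaternion.imJ_mul, Quaternion.imK_mul,
      Quaternion.re_star, Quaternion.imI_star, Quaternion.imJ_star, Quaternion.imK_star, h0]
    ring
  · have e1 := congrArg (fun q : Hq => q.imJ) e
    simp only [int_mul_imJ] at e1
    rw [mul_comm, e1]
    simp only [Quaternion.re_mul, Quaternion.imI_mul, Quaternion.imJ_mul, Quaternion.imK_mul,
      Quaternion.re_star, Quaternion.imI_star, Quaternion.imJ_star, Quaternion.imK_star, h0]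
    ring
  · have e1 := congrArg (fun q : Hq => q.imK) e
    simp only [int_mul_imK] at e1
    rw [mul_comm, e1]
    simp only [Quaternion.re_mul, Quaternion.imI_mul, Quaternion.imJ_mul, Quaternion.imK_mul,
      Quaternion.re_star, Quaternion.imI_star, Quaternion.imJ_star, Quaternion.imK_star, h0]
    ring

/-- the genus symbol of two vectors related by a quaternion is the symbol of the norm -/
theorem chi_tw {n p : ℕ} [Fact p.Prime] (hp2 : p ≠ 2) (hs : Squarefree n) (hp : p ∣ n) {μ μ' a : Hq}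
    (h : IsOm n μ) (h' : IsOm n μ') (ht : a * μ = μ' * a) (hN : ¬ (p : ℤ) ∣ nrm a) :
    chi p (vec μ) (vec μ') = jacobiSym (nrm a) p := by
  obtain ⟨e1, e2, e3⟩ := rot_eq h.re0 ht
  exact chi_rot hp2 (iso_of hs hp h.sum) (iso_of hs hp h'.sum) a.re a.imI a.imJ a.imK (nrm a) hN
    e1 e2 e3

theorem nrm_add_of {x y : Hq} (h : (star x * y).re = 0) : nrm (x + y) = nrm x + nrm y := by
  rw [Quaternion.re_mul] at h
  simp only [Quaternion.re_star, Quaternion.imI_star, Quaternion.imJ_star, Quaternion.imK_star] at h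
  simp only [nrm, Quaternion.re_add, Quaternion.imI_add, Quaternion.imJ_add, Quaternion.imK_add]
  linear_combination 2 * h

theorem int_out (t : ℤ) (x y : Hq) : x * ((t : Hq) * y) = (t : Hq) * (x * y) := by
  rw [← mul_assoc, ← int_comm, mul_assoc]

theorem int_swap (s t : ℤ) (x y : Hq) :
    (s : Hq) * (x * ((t : Hq) * y)) = (t : Hq) * (x * ((s : Hq) * y)) := by
  rw [int_out t x y, int_out s x y, int_out t _ (x * y)]

/-- an intertwiner whose norm is odd and prime to `n` -/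
theorem good_tw {n : ℕ} (hs : Squarefree n) (hn : n % 2 = 1) {μ μ' a : Hq} (h : IsOm n μ)
    (ha : nrm a % 2 = 1) (ht : a * μ = μ' * a) :
    ∃ b : Hq, nrm b % 2 = 1 ∧ b * μ = μ' * b ∧ ∀ p : ℕ, p.Prime → p ∣ n → ¬ (p : ℤ) ∣ nrm b := by
  obtain ⟨c, a', hca, hp⟩ := content a (by omega)
  have hN : nrm a = c ^ 2 * nrm a' := by rw [hca, nrm_mul, nrm_int]
  have hc0 : c ≠ 0 := by
    rintro rfl
    rw [hN] at ha; omega
  have hm' : nrm a' % 2 = 1 := by
    rcases Int.emod_two_eq_zero_or_one (nrm a') with h0 | h0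
    · exfalso
      obtain ⟨d', hd'⟩ : ∃ d', nrm a' = 2 * d' := ⟨nrm a' / 2, by omega⟩
      have : nrm a = 2 * (c ^ 2 * d') := by rw [hN, hd']; ring
      omega
    · exact h0
  have ht' : a' * μ = μ' * a' := by
    apply int_cancel c hc0
    rw [← mul_assoc, ← hca, ht, hca, ← mul_assoc, ← mul_assoc, int_comm]
  obtain ⟨r, q, X, Y, h1, h2⟩ := key_prim hs h a' μ' hm' ht' hp
  set m := nrm a' with hm
  have h3 : (n : ℤ) + r ^ 2 = nrm q * m := by
    rw [hm, ← nrm_mul, ← h1]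
    unfold nrm
    rw [Quaternion.re_sub, Quaternion.imI_sub, Quaternion.imJ_sub, Quaternion.imK_sub, re_int,
      imI_int, imJ_int, imK_int, h.re0]
    linear_combination -h.sum
  -- the gcd
  set g : ℕ := Int.gcd m n with hg
  have g1 : (g : ℤ) ∣ m := Int.gcd_dvd_left _ _
  have g2 : (g : ℤ) ∣ (n : ℤ) := Int.gcd_dvd_right _ _
  have g2' : g ∣ n := by exact_mod_cast g2
  have g3 : (g : ℤ) ∣ r := by
    have e1 : (g : ℤ) ∣ r ^ 2 := by
      have := dvd_sub (dvd_mul_of_dvd_right g1 (nrm q)) g2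
      exact dvd_eq this (by linarith)
    have e2 : Squarefree g := hs.squarefree_of_dvd g2'
    have e3 : Squarefree (g : ℤ) := Int.squarefree_natCast.2 e2
    exact (e3.dvd_pow_iff_dvd (by norm_num)).1 e1
  obtain ⟨m1, hm1⟩ := g1
  obtain ⟨n1, hn1⟩ := g2
  obtain ⟨r1, hr1⟩ := g3
  have hg0 : (g : ℤ) ≠ 0 := by
    intro h0
    rw [h0] at hm1
    omega
  -- a' μ = - m q* - r a'
  have h5 : a' * μ = -(((m : ℤ) : Hq) * star q) - ((r : ℤ) : Hq) * a' := by
    have e1 : -μ - (r : Hq) = star a' * star q := by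
      have := congrArg star h1
      rw [star_mul, star_sub] at this
      rw [← this]
      have e2 : star μ = -μ := by
        apply Quaternion.ext
        · rw [Quaternion.re_star, Quaternion.re_neg, h.re0]; rfl
        · rw [Quaternion.imI_star, Quaternion.imI_neg]
        · rw [Quaternion.imJ_star, Quaternion.imJ_neg]
        · rw [Quaternion.imK_star, Quaternion.imK_neg]
      have e3 : star ((r : ℤ) : Hq) = (r : Hq) := by simp
      rw [e2, e3]
    have e4 : a' * (-μ - (r : Hq)) = ((m : ℤ) : Hq) * star q := by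
      rw [e1, ← mul_assoc, self_mul_star']
    rw [mul_sub, mul_neg, ← int_comm r a'] at e4
    rw [← e4]; abel
  set b : Hq := -(((m1 : ℤ) : Hq) * star q) - ((r1 : ℤ) : Hq) * a' with hb
  have hgb : (((g : ℤ) : ℤ) : Hq) * b = a' * μ := by
    rw [h5, hb, hm1, hr1, Int.cast_mul, Int.cast_mul]
    noncomm_ring
  have hbt : b * μ = μ' * b := by
    apply int_cancel g hg0
    calc ((g : ℤ) : Hq) * (b * μ) = ((g : ℤ) : Hq) * b * μ := by rw [mul_assoc]
      _ = a' * μ * μ := by rw [hgb]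
      _ = μ' * (a' * μ) := by rw [← mul_assoc μ' a' μ, ← ht']
      _ = μ' * (((g : ℤ) : Hq) * b) := by rw [hgb]
      _ = _ := by rw [← mul_assoc, ← int_comm, mul_assoc]
  have hnb : (g : ℤ) ^ 2 * nrm b = m * n := by
    rw [← nrm_int, ← nrm_mul, hgb, nrm_mul, h.nrm]
  have hnb' : nrm b = m1 * n1 := by
    have : (g : ℤ) ^ 2 * nrm b = (g : ℤ) ^ 2 * (m1 * n1) := by
      rw [hnb, hm1]
      conv_lhs => rw [hn1]
      ring
    exact mul_left_cancel₀ (pow_ne_zero 2 hg0) this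
  have hcross : (star a' * (((2 : ℤ) : Hq) * b)).re = 0 := by
    have e1 : ((g : ℤ) : Hq) * (star a' * (((2 : ℤ) : Hq) * b)) = ((2 * m : ℤ) : Hq) * μ := by
      calc ((g : ℤ) : Hq) * (star a' * (((2 : ℤ) : Hq) * b))
          = ((2 : ℤ) : Hq) * (star a' * (((g : ℤ) : Hq) * b)) := int_swap _ _ _ _
        _ = ((2 : ℤ) : Hq) * (star a' * (a' * μ)) := by rw [hgb]
        _ = _ := by rw [← mul_assoc (star a'), star_mul_self', ← mul_assoc, Int.cast_mul]
    have e2 := congrArg (fun q : Hq => q.re) e1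
    simp only [int_mul_re] at e2
    rw [h.re0, mul_zero] at e2
    rcases mul_eq_zero.1 e2 with h6 | h6
    · exact absurd h6 hg0
    · exact h6
  have hfin : nrm (a' + ((2 : ℤ) : Hq) * b) = m + 4 * (m1 * n1) := by
    rw [nrm_add_of hcross, nrm_mul, nrm_int, hnb']; ring
  refine ⟨a' + ((2 : ℤ) : Hq) * b, ?_, ?_, ?_⟩
  · rw [hfin]
    generalize m1 * n1 = t
    omega
  · rw [add_mul, mul_add, ht', mul_assoc, hbt, ← mul_assoc, ← mul_assoc, int_comm]
  · intro p hpp hpn hdiv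
    have hP : Prime (p : ℤ) := Nat.prime_iff_prime_int.1 hpp
    rw [hfin] at hdiv
    have hp4 : ¬ (p : ℤ) ∣ 4 := by
      intro h4
      have h6 : (p : ℤ) ∣ 2 ^ 2 := by norm_num; exact h4
      have h7 := hP.dvd_of_dvd_pow h6
      have h8 : p ∣ 2 := by exact_mod_cast h7
      have h9 : p = 2 := (Nat.prime_dvd_prime_iff_eq hpp Nat.prime_two).1 h8
      subst h9
      omega
    have hpn' : (p : ℤ) ∣ (n : ℤ) := by exact_mod_cast hpn
    by_cases hpm : (p : ℤ) ∣ m
    · have hpg : (p : ℤ) ∣ (g : ℤ) := Int.dvd_coe_gcd hpm hpn'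
      have h6 : (p : ℤ) ∣ m1 * n1 := by
        have := (Int.dvd_add_right hpm).1 hdiv
        rcases hP.dvd_or_dvd this with h7 | h7
        · exact absurd h7 hp4
        · exact h7
      have hpp' : ¬ (p : ℤ) * p ∣ (n : ℤ) := by
        intro h7
        have h8 : p * p ∣ n := by exact_mod_cast h7
        exact hpp.one_lt.ne' (Nat.isUnit_iff.1 (hs p h8))
      rcases hP.dvd_or_dvd h6 with h7 | h7
      · -- p^2 | m, hence p^2 | n
        apply hpp'
        have e1 : (p : ℤ) * p ∣ m := by rw [hm1]; exact mul_dvd_mul hpg h7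
        have e2 : (p : ℤ) ∣ r := by rw [hr1]; exact dvd_mul_of_dvd_left hpg _
        have e3 : (p : ℤ) * p ∣ r ^ 2 := by rw [pow_two]; exact mul_dvd_mul e2 e2
        exact dvd_eq (dvd_sub (dvd_mul_of_dvd_right e1 (nrm q)) e3) (by linarith)
      · apply hpp'
        rw [hn1]; exact mul_dvd_mul hpg h7
    · apply hpm
      have h6 : ¬ (p : ℤ) ∣ (g : ℤ) := by
        intro h7; apply hpm; rw [hm1]; exact dvd_mul_of_dvd_left h7 _
      have h7 : (p : ℤ) ∣ n1 := by
        rw [hn1] at hpn'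
        rcases hP.dvd_or_dvd hpn' with h8 | h8
        · exact absurd h8 h6
        · exact h8
      exact (Int.dvd_add_left (dvd_mul_of_dvd_right (dvd_mul_of_dvd_right h7 m1) 4)).1 hdiv

end Pool.Agent.GEN
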