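import Mathlib
import Pool.Agent.Lib_helper72.GEN.D
set_option autoImplicit false
namespace Pool.Agent.GEN
open Pool.Agent.TM32

/-- reciprocity -/
theorem recip3 (n M : ℕ) (h4 : n % 4 = 3) (hM : M % 2 = 1) (hc : Nat.Coprime M n) (r : ℤ)
    (h : (M : ℤ) ∣ r ^ 2 + n) : jacobiSym M n = 1 := by
  have hodd : Odd M := Nat.odd_iff.2 hM
  have hoddn : Odd n := Nat.odd_iff.2 (by omega)
  have hgcd : r.gcd M = 1 := by
    by_contra hne
    obtain ⟨p, hp, hpd⟩ := Nat.exists_prime_and_dvd hne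
    have h1 : (p : ℤ) ∣ r := (Int.natCast_dvd_natCast.2 hpd).trans (Int.gcd_dvd_left _ _)
    have h2 : (p : ℤ) ∣ (M : ℤ) := (Int.natCast_dvd_natCast.2 hpd).trans (Int.gcd_dvd_right _ _)
    have h3 : (p : ℤ) ∣ (n : ℤ) := by
      have h5 : (p : ℤ) ∣ r ^ 2 + n := h2.trans h
      exact dvd_eq (dvd_sub h5 (dvd_pow h1 two_ne_zero)) (by ring)
    have h4' : p ∣ M := by exact_mod_cast h2
    have h5 : p ∣ n := by exact_mod_cast h3
    exact hp.one_lt.ne' (Nat.dvd_one.1 (hc ▸ Nat.dvd_gcd h4' h5))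
  have h1 : jacobiSym (-(n : ℤ)) M = 1 := by
    rw [← jacobiSym.sq_one' hgcd]
    apply jacobiSym.mod_left'
    apply Int.ModEq.symm
    rw [Int.modEq_iff_dvd]
    have := dvd_neg.2 h
    exact dvd_eq this (by ring)
  rw [jacobiSym.neg _ hodd] at h1
  rcases (by omega : M % 4 = 1 ∨ M % 4 = 3) with h5 | h5
  · rw [ZMod.χ₄_nat_one_mod_four h5, one_mul] at h1
    rw [jacobiSym.quadratic_reciprocity_one_mod_four h5 hoddn]
    exact h1
  · rw [ZMod.χ₄_nat_three_mod_four h5] at h1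
    rw [jacobiSym.quadratic_reciprocity_three_mod_four h5 h4]
    linarith

theorem prod_sym (N : ℤ) (n : ℕ) (hs : Squarefree n) :
    ∏ p ∈ n.primeFactors, jacobiSym N p = jacobiSym N n := by
  have key : ∀ S : Finset ℕ, (∀ p ∈ S, p.Prime) →
      ∏ p ∈ S, jacobiSym N p = jacobiSym N (∏ p ∈ S, p) := by
    intro S
    induction S using Finset.induction_on with
    | empty => intro _; simp
    | insert a S ha ih =>
      intro hS
      rw [Finset.prod_insert ha, Finset.prod_insert ha, jacobiSym.mul_right', ih]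
      · intro p hp; exact hS p (Finset.mem_insert_of_mem hp)
      · exact (hS a (Finset.mem_insert_self _ _)).ne_zero
      · exact Finset.prod_ne_zero_iff.2 (fun p hp => (hS p (Finset.mem_insert_of_mem hp)).ne_zero)
  rw [key n.primeFactors (fun p hp => Nat.prime_of_mem_primeFactors hp),
    Nat.prod_primeFactors_of_squarefree hs]

/-- the sign class of vectors of norm `n` -/
def OmP (n : ℕ) (v : ℤ × ℤ × ℤ) : Prop :=
  v.1 ^ 2 + v.2.1 ^ 2 + v.2.2 ^ 2 = n ∧ (v.1 * v.2.1 * v.2.2) % 4 = 1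

theorem OmP.om3 {n : ℕ} (h8 : n % 8 = 3) {v : ℤ × ℤ × ℤ} (h : OmP n v) : Om3 n (quat v) :=
  ⟨⟨rfl, h.1, om_odd3 h8 _ _ _ h.1⟩, h.2⟩

theorem om3_omP {n : ℕ} {μ : Hq} (h : Om3 n μ) : OmP n (vec μ) := ⟨h.1.sum, h.2⟩

/-- symbols of an intertwiner with norm prime to `n` -/
theorem prod_tw {n : ℕ} (hs : Squarefree n) (h8 : n % 8 = 3) {μ μ' b : Hq} (h : IsOm n μ)
    (hb1 : nrm b % 2 = 1) (ht : b * μ = μ' * b)
    (hco : ∀ p : ℕ, p.Prime → p ∣ n → ¬ (p : ℤ) ∣ nrm b) : jacobiSym (nrm b) n = 1 := by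
  obtain ⟨c, b', hcb, hp⟩ := content b (by omega)
  have hN : nrm b = c ^ 2 * nrm b' := by rw [hcb, nrm_mul, nrm_int]
  have hc0 : c ≠ 0 := by
    rintro rfl
    rw [hN] at hb1; omega
  have hm' : nrm b' % 2 = 1 := by
    rcases Int.emod_two_eq_zero_or_one (nrm b') with h0 | h0
    · exfalso
      obtain ⟨d', hd'⟩ : ∃ d', nrm b' = 2 * d' := ⟨nrm b' / 2, by omega⟩
      have : nrm b = 2 * (c ^ 2 * d') := by rw [hN, hd']; ring
      omega
    · exact h0
  have ht' : b' * μ = μ' * b' := by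
    apply int_cancel c hc0
    rw [← mul_assoc, ← hcb, ht, hcb, ← mul_assoc, ← mul_assoc, int_comm]
  obtain ⟨r, hr, -⟩ := Iq_prim hs h b' μ' hm' ht' hp
  have hcn : c.gcd n = 1 := by
    by_contra hne
    obtain ⟨p, hp, hpd⟩ := Nat.exists_prime_and_dvd hne
    have h1 : (p : ℤ) ∣ c := (Int.natCast_dvd_natCast.2 hpd).trans (Int.gcd_dvd_left _ _)
    have h2 : (p : ℤ) ∣ (n : ℤ) := (Int.natCast_dvd_natCast.2 hpd).trans (Int.gcd_dvd_right _ _)
    apply hco p hp (by exact_mod_cast h2)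
    rw [hN]
    exact dvd_mul_of_dvd_left (dvd_pow h1 two_ne_zero) _
  rw [hN, jacobiSym.mul_left, jacobiSym.sq_one' hcn, one_mul]
  obtain ⟨M, hM⟩ : ∃ M : ℕ, nrm b' = M := ⟨(nrm b').toNat, by
    have := nrm_nonneg b'; omega⟩
  rw [hM] at hr hm' ⊢
  apply recip3 n M (by omega) (by omega) _ r hr
  rw [Nat.coprime_iff_gcd_eq_one] 
  by_contra hne
  obtain ⟨p, hp, hpd⟩ := Nat.exists_prime_and_dvd hne
  have h1 : p ∣ M := hpd.trans (Nat.gcd_dvd_left _ _)
  have h2 : p ∣ n := hpd.trans (Nat.gcd_dvd_right _ _)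
  apply hco p hp h2
  rw [hN, hM]
  exact dvd_mul_of_dvd_right (by exact_mod_cast h1) _

/-- **product formula** for the genus symbols -/
theorem chi_prod {n : ℕ} (hs : Squarefree n) (h8 : n % 8 = 3) {v w : ℤ × ℤ × ℤ} (hv : OmP n v)
    (hw : OmP n w) : ∏ p ∈ n.primeFactors, chi p v w = 1 := by
  have h0 := hv.om3 h8
  have h1 := hw.om3 h8
  obtain ⟨a, ha, hta⟩ := exists_tw3 h8 h0 h1
  obtain ⟨b, hb, htb, hco⟩ := good_tw hs (by omega) h0.1 ha hta
  have h2 := prod_tw hs h8 h0.1 hb htb hco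
  rw [← h2, ← prod_sym _ _ hs]
  apply Finset.prod_congr rfl
  intro p hp
  have hpp := Nat.prime_of_mem_primeFactors hp
  have hpn := Nat.dvd_of_mem_primeFactors hp
  have : Fact p.Prime := ⟨hpp⟩
  have hp2 : p ≠ 2 := by
    rintro rfl
    have := Nat.mod_eq_zero_of_dvd hpn
    omega
  exact chi_tw hp2 hs hpn h0.1 h1.1 htb (hco p hpp hpn)

end Pool.Agent.GEN
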