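import Mathlib
import Pool.Agent.Lib_helper72.GEN.E
set_option autoImplicit false
namespace Pool.Agent.GEN
open Pool.Agent.TM32

/-- a quadratic nonresidue -/
theorem exists_nonres {p : ℕ} [Fact p.Prime] (hp2 : p ≠ 2) : ∃ a : ℕ, jacobiSym a p = -1 := by
  have h := FiniteField.exists_nonsquare (F := ZMod p) (by rw [ZMod.ringChar_zmod_n]; exact hp2)
  obtain ⟨a, ha⟩ := h
  obtain ⟨b, rfl⟩ := ZMod.natCast_zmod_surjective a
  refine ⟨b, ?_⟩
  rw [← jacobiSym.legendreSym.to_jacobiSym, legendreSym.eq_neg_one_iff]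
  simpa using ha

/-- Chinese remainder: a residue class with given symbols -/
theorem exists_res (S : Finset ℕ) (hS : ∀ p ∈ S, p.Prime ∧ p ≠ 2) (e : ℕ → ℤ)
    (he : ∀ p ∈ S, e p = 1 ∨ e p = -1) :
    ∃ a : ℕ, a % 4 = 1 ∧ ∀ p ∈ S, jacobiSym a p = e p := by
  induction S using Finset.induction_on with
  | empty => exact ⟨1, rfl, by simp⟩
  | insert q S hq ih =>
    obtain ⟨a, ha4, ha⟩ := ih (fun p hp => hS p (Finset.mem_insert_of_mem hp))
      (fun p hp => he p (Finset.mem_insert_of_mem hp))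
    obtain ⟨hqp, hq2⟩ := hS q (Finset.mem_insert_self _ _)
    have : Fact q.Prime := ⟨hqp⟩
    obtain ⟨b, hb⟩ : ∃ b : ℕ, jacobiSym b q = e q := by
      rcases he q (Finset.mem_insert_self _ _) with h | h
      · exact ⟨1, by rw [h]; simp⟩
      · rw [h]; exact exists_nonres hq2
    have hco : Nat.Coprime (4 * ∏ p ∈ S, p) q := by
      apply Nat.Coprime.mul_left
      · have : Nat.Coprime 2 q := (Nat.coprime_primes Nat.prime_two hqp).2 (Ne.symm hq2)
        exact Nat.Coprime.pow_left 2 this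
      · apply Nat.Coprime.prod_left
        intro p hp
        exact (Nat.coprime_primes (hS p (Finset.mem_insert_of_mem hp)).1 hqp).2 (by
          rintro rfl; exact hq hp)
    obtain ⟨c, hc1, hc2⟩ := Nat.chineseRemainder hco a b
    refine ⟨c, ?_, ?_⟩
    · have h1 : c ≡ a [MOD 4] := hc1.of_mul_right _
      rw [← ha4]; exact h1
    · intro p hp
      rcases Finset.mem_insert.1 hp with rfl | hp
      · rw [← hb]
        apply jacobiSym.mod_left'
        exact_mod_cast hc2
      · rw [← ha p hp]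
        apply jacobiSym.mod_left'
        have h1 : c ≡ a [MOD ∏ p ∈ S, p] := hc1.of_mul_left _
        have h2 : c ≡ a [MOD p] := h1.of_dvd (Finset.dvd_prod_of_mem _ hp)
        exact_mod_cast h2

/-- Dirichlet: a prime `1 mod 4` with given symbols -/
theorem exists_prime (n : ℕ) (hn : n % 2 = 1) (e : ℕ → ℤ)
    (he : ∀ p ∈ n.primeFactors, e p = 1 ∨ e p = -1) :
    ∃ l : ℕ, l.Prime ∧ l % 4 = 1 ∧ n < l ∧ ∀ p ∈ n.primeFactors, jacobiSym l p = e p := by
  have hS : ∀ p ∈ n.primeFactors, p.Prime ∧ p ≠ 2 := by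
    intro p hp
    refine ⟨Nat.prime_of_mem_primeFactors hp, ?_⟩
    rintro rfl
    have := Nat.mod_eq_zero_of_dvd (Nat.dvd_of_mem_primeFactors hp)
    omega
  obtain ⟨a, ha4, ha⟩ := exists_res n.primeFactors hS e he
  have hco : Nat.Coprime a (4 * n) := by
    apply Nat.Coprime.mul_right
    · have h2 : ¬ 2 ∣ a := by omega
      have : Nat.Coprime a 2 := ((Nat.Prime.coprime_iff_not_dvd Nat.prime_two).2 h2).symm
      exact Nat.Coprime.pow_right 2 this
    · rw [Nat.coprime_iff_gcd_eq_one]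
      by_contra hne
      obtain ⟨p, hp, hpd⟩ := Nat.exists_prime_and_dvd hne
      have h1 : p ∣ a := hpd.trans (Nat.gcd_dvd_left _ _)
      have h2 : p ∣ n := hpd.trans (Nat.gcd_dvd_right _ _)
      have hm : p ∈ n.primeFactors := Nat.mem_primeFactors.2 ⟨hp, h2, by omega⟩
      have h3 := ha p hm
      have : NeZero p := ⟨hp.ne_zero⟩
      have h4 : jacobiSym a p = 0 := by
        rw [jacobiSym.eq_zero_iff_not_coprime]
        have : ((a : ℤ).gcd p) = p := by
          rw [Int.gcd_natCast_natCast]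
          exact Nat.gcd_eq_right h1
        rw [this]; exact hp.one_lt.ne'
      rw [h4] at h3
      rcases he p hm with h5 | h5 <;> rw [h5] at h3 <;> norm_num at h3
  obtain ⟨l, hl1, hl2, hl3⟩ := Nat.forall_exists_prime_gt_and_modEq n (q := 4 * n) (by omega) hco
  refine ⟨l, hl2, ?_, hl1, ?_⟩
  · have h1 : l ≡ a [MOD 4] := hl3.of_mul_right _
    rw [← ha4]; exact h1
  · intro p hp
    rw [← ha p hp]
    apply jacobiSym.mod_left'
    have h1 : l ≡ a [MOD n] := hl3.of_mul_left _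
    have h2 : l ≡ a [MOD p] := h1.of_dvd (Nat.dvd_of_mem_primeFactors hp)
    exact_mod_cast h2

/-- the square root of `-n` modulo the prime -/
theorem exists_root {n l : ℕ} (hs : Squarefree n) (hn : n % 2 = 1) (hl : l.Prime) (hl4 : l % 4 = 1)
    (h : ∏ p ∈ n.primeFactors, jacobiSym l p = 1) : ∃ r : ℤ, (l : ℤ) ∣ r ^ 2 + n := by
  have : Fact l.Prime := ⟨hl⟩
  rw [prod_sym _ _ hs] at h
  have hodd : Odd l := Nat.odd_iff.2 (by omega)
  have h1 : jacobiSym (-(n : ℤ)) l = 1 := by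
    rw [jacobiSym.neg _ hodd, ZMod.χ₄_nat_one_mod_four hl4, one_mul,
      ← jacobiSym.quadratic_reciprocity_one_mod_four hl4 (Nat.odd_iff.2 hn)]
    exact h
  have h2 := ZMod.isSquare_of_jacobiSym_eq_one h1
  obtain ⟨s, hs'⟩ := h2
  obtain ⟨r, rfl⟩ := ZMod.intCast_surjective s
  refine ⟨r, ?_⟩
  rw [← ZMod.intCast_zmod_eq_zero_iff_dvd]
  push_cast at hs' ⊢
  linear_combination -hs'

end Pool.Agent.GEN
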