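import Mathlib
import Pool.Agent.Lib_helper72.GEN.F
set_option autoImplicit false
namespace Pool.Agent.GEN
open Pool.Agent.TM32

theorem tw_target {n : ℕ} [NeZero n] {μ0 μ1 a : Hq} (h0 : IsOm n μ0) (ha : nrm a % 2 = 1)
    (ht : a * μ0 = μ1 * a) : IsOm n μ1 := by
  have ha0 : nrm a ≠ 0 := by omega
  have h2 : μ1 * μ1 = ((-(n : ℤ) : ℤ) : Hq) := by
    apply mul_right_cancel' _ _ a ha0
    rw [mul_assoc, ← ht, ← mul_assoc, ← ht, mul_assoc, h0.sq, int_comm]
  obtain ⟨h3, h4⟩ := pure_of_sq (Nat.pos_of_ne_zero (NeZero.ne n)) μ1 h2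
  refine ⟨h3, h4, ?_⟩
  obtain ⟨q, hq⟩ := comm_even a μ0
  have e1 : (μ1 - μ0) * ((nrm a : ℤ) : Hq) = ((2 : ℤ) : Hq) * (q * star a) := by
    rw [← self_mul_star', ← mul_assoc, sub_mul, ← ht, hq, mul_assoc]
  have e2 := congrArg (fun q : Hq => q.imI) e1
  simp only [← int_comm, int_mul_imI, Quaternion.imI_sub] at e2
  obtain ⟨m, hm⟩ : ∃ m, nrm a = 2 * m + 1 := ⟨nrm a / 2, by omega⟩
  rw [hm] at e2
  have e3 : μ1.imI - μ0.imI = 2 * ((q * star a).imI - m * (μ1.imI - μ0.imI)) := by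
    linear_combination e2
  have := h0.odd
  omega

/-- the correspondence attached to a prime and a root of `-n` -/
def Rel (l : ℕ) (r : ℤ) (v w : ℤ × ℤ × ℤ) : Prop :=
  ∃ c q : Hq, nrm c = l ∧ c * quat v = quat w * c ∧ quat v - (r : Hq) = q * c

/-- flips of vectors -/
def flv (i : Fin 4) (v : ℤ × ℤ × ℤ) : ℤ × ℤ × ℤ := (s1 i * v.1, s2 i * v.2.1, s3 i * v.2.2)

theorem quat_flv (i : Fin 4) (v : ℤ × ℤ × ℤ) : quat (flv i v) = fl i (quat v) := rfl

theorem quat_inj {v w : ℤ × ℤ × ℤ} (h : quat v = quat w) : v = w := by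
  have e := congrArg vec h
  rwa [vec_quat, vec_quat] at e

theorem flv_flv (i : Fin 4) (v : ℤ × ℤ × ℤ) : flv i (flv i v) = v := by
  apply quat_inj
  rw [quat_flv, quat_flv, fl_fl]

theorem flv_om {n : ℕ} {v : ℤ × ℤ × ℤ} (h : OmP n v) (i : Fin 4) : OmP n (flv i v) := by
  refine ⟨?_, ?_⟩
  · show (s1 i * v.1) ^ 2 + (s2 i * v.2.1) ^ 2 + (s3 i * v.2.2) ^ 2 = (n : ℤ)
    linear_combination h.1 + v.1 ^ 2 * s1_sq i + v.2.1 ^ 2 * s2_sq i + v.2.2 ^ 2 * s3_sq i
  · show (s1 i * v.1 * (s2 i * v.2.1) * (s3 i * v.2.2)) % 4 = 1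
    have e : s1 i * v.1 * (s2 i * v.2.1) * (s3 i * v.2.2) =
      (s1 i * s2 i * s3 i) * (v.1 * v.2.1 * v.2.2) := by ring
    have e2 : s1 i * s2 i * s3 i = 1 := by fin_cases i <;> rfl
    rw [e, e2, one_mul]
    exact h.2

theorem rel_exists {n : ℕ} [NeZero n] (hs : Squarefree n) (h8 : n % 8 = 3) {v : ℤ × ℤ × ℤ}
    (hv : OmP n v) {l : ℕ} (hl : l.Prime) (hl2 : l % 2 = 1) (hln : ¬ l ∣ n) {r : ℤ}
    (hr : (l : ℤ) ∣ r ^ 2 + n) : ∃ w, OmP n w ∧ Rel l r v w := by
  have h0 := hv.om3 h8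
  have h := h0.1
  set μ := quat v with hμ
  have hlP : Prime (l : ℤ) := Nat.prime_iff_prime_int.1 hl
  have hl0 : (l : ℤ) ≠ 0 := hlP.ne_zero
  set I : Ideal (Od n) := Ideal.span {(((l : ℤ)) : Od n), Zsqrtd.sqrtd - (r : Od n)} with hI
  set J := I.map (phi h) with hJ
  have hJs : J = Ideal.span {((l : ℤ) : Hq), μ - (r : Hq)} := by
    rw [hJ, hI, Ideal.map_span, Set.image_pair, map_sub, phi_int, phi_int, phi_sqrtd]
  have m1 : ((l : ℤ) : Hq) ∈ J := by rw [hJs]; exact Ideal.subset_span (by simp)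
  have m2 : μ - (r : Hq) ∈ J := by rw [hJs]; exact Ideal.subset_span (by simp)
  obtain ⟨b, hbJ, hb1, hb⟩ := principal_odd J ((l : ℤ) : Hq) (by
    rw [nrm_int, pow_two]
    exact odd_mul' _ _ (by omega) (by omega)) m1
  obtain ⟨x, y, hxy⟩ : ∃ x y : Hq, x * ((l : ℤ) : Hq) + y * (μ - (r : Hq)) = b := by
    rw [hJs] at hbJ
    exact Submodule.mem_span_pair.1 hbJ
  have hnr : nrm (μ - (r : Hq)) = r ^ 2 + n := by
    unfold nrm
    rw [Quaternion.re_sub, Quaternion.imI_sub, Quaternion.imJ_sub, Quaternion.imK_sub, re_int,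
      imI_int, imJ_int, imK_int, h.re0]
    linear_combination h.sum
  obtain ⟨k, hk⟩ := hr
  have hlb : (l : ℤ) ∣ nrm b := by
    have e1 : ((nrm b : ℤ) : Hq) = ((l : ℤ) : Hq) * (x * star b + y * ((μ - (r : Hq)) * star x) +
        y * (((k : ℤ) : Hq) * star y)) := by
      calc ((nrm b : ℤ) : Hq) = (x * ((l : ℤ) : Hq) + y * (μ - (r : Hq))) * star b := by
            rw [hxy, self_mul_star']
        _ = x * ((l : ℤ) : Hq) * star b + y * ((μ - (r : Hq)) * star b) := by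
            rw [add_mul, mul_assoc y]
        _ = x * ((l : ℤ) : Hq) * star b + y * ((μ - (r : Hq)) *
              star (x * ((l : ℤ) : Hq) + y * (μ - (r : Hq)))) := by rw [hxy]
        _ = x * ((l : ℤ) : Hq) * star b + y * ((μ - (r : Hq)) * (((l : ℤ) : Hq) * star x) +
              (μ - (r : Hq)) * star (μ - (r : Hq)) * star y) := by
            rw [star_add, star_mul, star_mul]
            have e3 : star ((l : ℤ) : Hq) = ((l : ℤ) : Hq) := by simp
            rw [e3, mul_add, mul_assoc (μ - (r : Hq)) (star (μ - (r : Hq)))]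
        _ = _ := by
            rw [self_mul_star', hnr, hk, mul_add, mul_add, mul_add, Int.cast_mul,
              int_out (l : ℤ) (μ - (r : Hq)) (star x), int_out (l : ℤ) y, mul_assoc ((l : ℤ) : Hq),
              int_out (l : ℤ) y, mul_assoc x, int_out (l : ℤ) x, add_assoc]
    have e2 := congrArg (fun q : Hq => q.re) e1
    simp only [int_mul_re, re_int] at e2
    exact ⟨_, e2⟩
  obtain ⟨t, ht⟩ := hlb
  obtain ⟨q1, hq1⟩ := hb _ m1
  obtain ⟨q2, hq2⟩ := hb _ m2
  have hn1 : (l : ℤ) ^ 2 = nrm q1 * nrm b := by rw [← nrm_mul, ← hq1, nrm_int]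
  have hn2 : (l : ℤ) = nrm q1 * t := by
    have : (l : ℤ) * l = l * (nrm q1 * t) := by rw [ht] at hn1; linear_combination hn1
    exact mul_left_cancel₀ hl0 this
  have hlpos : (0 : ℤ) < l := by exact_mod_cast hl.pos
  have hq0 : 0 < nrm q1 := by
    rcases (nrm_nonneg q1).lt_or_eq with h6 | h6
    · exact h6
    · rw [← h6, zero_mul] at hn2; omega
  have ht0 : 0 < t := by
    by_contra h6
    have : nrm q1 * t ≤ 0 := mul_nonpos_of_nonneg_of_nonpos hq0.le (by omega)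
    omega
  have ht1 : t = 1 := by
    have h6 : IsUnit (nrm q1) ∨ IsUnit t := hlP.irreducible.isUnit_or_isUnit hn2
    rcases h6 with h6 | h6
    · exfalso
      have h7 : nrm q1 = 1 := by
        rcases Int.isUnit_iff.1 h6 with h7 | h7 <;> omega
      have h8' : b = ((l : ℤ) : Hq) * star q1 := by
        rw [int_comm]
        apply mul_left_cancel' _ _ q1 (by omega)
        rw [← mul_assoc, ← hq1, self_mul_star', h7]
        simp
      have h9 : μ - (r : Hq) = ((l : ℤ) : Hq) * (q2 * star q1) := by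
        rw [hq2, h8', int_out]
      have d1 := congrArg (fun q : Hq => q.imI) h9
      have d2 := congrArg (fun q : Hq => q.imJ) h9
      have d3 := congrArg (fun q : Hq => q.imK) h9
      simp only [int_mul_imI, int_mul_imJ, int_mul_imK, Quaternion.imI_sub, Quaternion.imJ_sub,
        Quaternion.imK_sub, imI_int, imJ_int, imK_int, sub_zero] at d1 d2 d3
      apply hln
      have : (l : ℤ) ∣ (n : ℤ) := by
        rw [← h.sum, d1, d2, d3]
        exact ⟨l * ((q2 * star q1).imI ^ 2 + (q2 * star q1).imJ ^ 2 + (q2 * star q1).imK ^ 2),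
          by ring⟩
      exact_mod_cast this
    · rcases Int.isUnit_iff.1 h6 with h7 | h7 <;> omega
  have hnb : nrm b = l := by rw [ht, ht1, mul_one]
  have h1 : b * μ ∈ J := by
    have := map_mul_mem' h I Zsqrtd.sqrtd b hbJ
    rw [phi_sqrtd] at this
    exact this
  obtain ⟨μ1, hμ1⟩ := hb _ h1
  have hI1 := tw_target h hb1 hμ1
  have h3 := stab3 h8 μ b μ1 h0 hI1 hb1 hμ1
  refine ⟨vec μ1, om3_omP h3, b, q2, hnb, ?_, hq2⟩
  rw [quat_vec hI1]
  exact hμ1

theorem rel_fl {l : ℕ} {r : ℤ} {v w : ℤ × ℤ × ℤ} (h : Rel l r v w) (i : Fin 4) :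
    Rel l r v (flv i w) := by
  obtain ⟨c, q, h1, h2, h3⟩ := h
  refine ⟨U i * c, q * star (U i), ?_, ?_, ?_⟩
  · rw [nrm_mul, nrm_U, one_mul, h1]
  · rw [quat_flv, mul_assoc, h2, ← mul_assoc, U_mul, mul_assoc]
  · rw [h3, mul_assoc q, ← mul_assoc (star (U i)), star_mul_self', nrm_U]
    simp

theorem prim_of_prime {a : Hq} {l : ℕ} (hl : l.Prime) (h : nrm a = l) : Prim a := by
  have hlP : Prime (l : ℤ) := Nat.prime_iff_prime_int.1 hl
  obtain ⟨c, a', hca, hp⟩ := content a (by rw [h]; exact hlP.ne_zero)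
  have hN : nrm a = c ^ 2 * nrm a' := by rw [hca, nrm_mul, nrm_int]
  have hc : IsUnit c := by
    have h1 : (l : ℤ) = c * (c * nrm a') := by rw [← h, hN]; ring
    rcases hlP.irreducible.isUnit_or_isUnit h1 with h2 | h2
    · exact h2
    · exact isUnit_of_mul_isUnit_left h2
  obtain ⟨u, v, w, t, huv⟩ := hp
  have e0 := congrArg (fun q : Hq => q.re) hca
  have e1 := congrArg (fun q : Hq => q.imI) hca
  have e2 := congrArg (fun q : Hq => q.imJ) hca
  have e3 := congrArg (fun q : Hq => q.imK) hca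
  simp only [int_mul_re, int_mul_imI, int_mul_imJ, int_mul_imK] at e0 e1 e2 e3
  refine ⟨c * u, c * v, c * w, c * t, ?_⟩
  rw [e0, e1, e2, e3]
  have hcc : c * c = 1 := by
    rcases Int.isUnit_iff.1 hc with h1 | h1 <;> rw [h1] <;> norm_num
  linear_combination huv + (u * a'.re + v * a'.imI + w * a'.imJ + t * a'.imK) * hcc

theorem rel_inj {n : ℕ} [NeZero n] (hs : Squarefree n) (h8 : n % 8 = 3) {v v' w : ℤ × ℤ × ℤ}
    (hv : OmP n v) (hv' : OmP n v') (hw : OmP n w) {l : ℕ} (hl : l.Prime) (hl2 : l % 2 = 1)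
    {r : ℤ} (h : Rel l r v w) (h' : Rel l r v' w) : ∃ i : Fin 4, v = flv i v' := by
  obtain ⟨c, q, h1, h2, h3⟩ := h
  obtain ⟨c', q', h1', h2', h3'⟩ := h'
  have hw0 := (hw.om3 h8).1
  have hlP : Prime (l : ℤ) := Nat.prime_iff_prime_int.1 hl
  have hl0 : (l : ℤ) ≠ 0 := hlP.ne_zero
  have key : ∀ (x c q : Hq), nrm c = l → c * x = quat w * c → x - (r : Hq) = q * c →
      IsOm n x → ∃ r1 : ℤ, (l : ℤ) ∣ r + r1 ∧
        ∀ z : Od n, z ∈ Iq hw0 (star c) ↔ (l : ℤ) ∣ z.re + r1 * z.im := by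
    intro x c q h1 h2 h3 hx
    have hc : nrm (star c) = l := by rw [nrm_star, h1]
    have ht : star c * quat w = x * star c :=
      (twist_star c x (quat w) (by rw [h1]; exact hl0) h2).symm
    obtain ⟨r1, hr1, hz⟩ := Iq_prim hs hw0 (star c) x (by rw [hc]; omega) ht (prim_of_prime hl hc)
    rw [hc] at hz
    refine ⟨r1, ?_, hz⟩
    have hm : (Zsqrtd.sqrtd : Od n) + (r : Od n) ∈ Iq hw0 (star c) := by
      rw [mem_Iq]
      refine ⟨-star q, ?_⟩
      rw [map_add, phi_int, phi_sqrtd]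
      have e1 : -x - (r : Hq) = star c * star q := by
        have := congrArg star h3
        rw [star_mul, star_sub] at this
        rw [← this]
        have e2 : star x = -x := by
          apply Quaternion.ext
          · rw [Quaternion.re_star, Quaternion.re_neg, hx.re0]; rfl
          · rw [Quaternion.imI_star, Quaternion.imI_neg]
          · rw [Quaternion.imJ_star, Quaternion.imJ_neg]
          · rw [Quaternion.imK_star, Quaternion.imK_neg]
        have e3 : star ((r : ℤ) : Hq) = (r : Hq) := by simp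
        rw [e2, e3]
      have e4 : (-quat w - (r : Hq)) * c = ((l : ℤ) : Hq) * star q := by
        have e5 : c * (-x - (r : Hq)) = ((l : ℤ) : Hq) * star q := by
          rw [e1, ← mul_assoc, self_mul_star', h1]
        rw [← e5, mul_sub, mul_neg, h2, sub_mul, neg_mul, int_comm]
      apply mul_right_cancel' _ _ c (by rw [h1]; exact hl0)
      have e6 : (quat w + (r : Hq)) * c = -((-quat w - (r : Hq)) * c) := by
        rw [← neg_mul]; congr 1; abel
      rw [e6, e4, neg_mul, neg_mul, mul_assoc, star_mul_self', h1, int_comm]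
    have := (hz _).1 hm
    simpa using this
  obtain ⟨r1, hr1, hz1⟩ := key _ c q h1 h2 h3 (hv.om3 h8).1
  obtain ⟨r2, hr2, hz2⟩ := key _ c' q' h1' h2' h3' (hv'.om3 h8).1
  have hI : Iq hw0 (star c) = Iq hw0 (star c') := by
    ext z
    rw [hz1, hz2]
    have h5 : (l : ℤ) ∣ (z.re + r1 * z.im) - (z.re + r2 * z.im) :=
      dvd_eq (dvd_mul_of_dvd_left (dvd_sub hr1 hr2) z.im) (by ring)
    constructor
    · intro h6; exact (dvd_sub_right h6).1 h5
    · intro h6
      exact dvd_eq (dvd_add h5 h6) (by ring)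
  have hc : nrm (star c) = l := by rw [nrm_star, h1]
  have hc' : nrm (star c') = l := by rw [nrm_star, h1']
  have ht : star c * quat w = quat v * star c :=
    (twist_star c (quat v) (quat w) (by rw [h1]; exact hl0) h2).symm
  have ht' : star c' * quat w = quat v' * star c' :=
    (twist_star c' (quat v') (quat w) (by rw [h1']; exact hl0) h2').symm
  obtain ⟨u, hu, hu'⟩ := unit_of_class hs hw0 (star c) (star c') (by rw [hc]; omega)
    (by rw [hc']; omega) ht ht' 1 1 one_ne_zero one_ne_zero (by rw [hI])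
  obtain ⟨i, hi⟩ := unit_fl _ _ u hu hu'
  exact ⟨i, quat_inj (by rw [quat_flv]; exact hi)⟩

theorem rel_chi {n : ℕ} (hs : Squarefree n) (h8 : n % 8 = 3) {v w : ℤ × ℤ × ℤ}
    (hv : OmP n v) (hw : OmP n w) {l : ℕ} (hl : l.Prime) (hln : ¬ l ∣ n) {r : ℤ}
    (h : Rel l r v w) {p : ℕ} (hp : p.Prime) (hpn : p ∣ n) : chi p v w = jacobiSym l p := by
  obtain ⟨c, q, h1, h2, h3⟩ := h
  have : Fact p.Prime := ⟨hp⟩
  have hp2 : p ≠ 2 := by
    rintro rfl
    have := Nat.mod_eq_zero_of_dvd hpn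
    omega
  have h4 := chi_tw hp2 hs hpn (hv.om3 h8).1 (hw.om3 h8).1 h2 (by
    rw [h1]
    intro h5
    have h6 : p ∣ l := by exact_mod_cast h5
    have h7 : p = l := (Nat.prime_dvd_prime_iff_eq hp hl).1 h6
    exact hln (h7 ▸ hpn))
  rw [h1] at h4
  exact h4

theorem flv_chi {n : ℕ} (hs : Squarefree n) (h8 : n % 8 = 3) {v : ℤ × ℤ × ℤ}
    (hv : OmP n v) (i : Fin 4) {p : ℕ} (hp : p.Prime) (hpn : p ∣ n) : chi p (flv i v) v = 1 := by
  have : Fact p.Prime := ⟨hp⟩
  have hp2 : p ≠ 2 := by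
    rintro rfl
    have := Nat.mod_eq_zero_of_dvd hpn
    omega
  have ht : U i * quat (flv i v) = quat v * U i := by
    rw [quat_flv, U_mul, fl_fl]
  have h4 := chi_tw hp2 hs hpn ((flv_om hv i).om3 h8).1 (hv.om3 h8).1 ht (by
    rw [nrm_U]
    exact (Nat.prime_iff_prime_int.1 hp).not_dvd_one)
  rw [nrm_U, jacobiSym.one_left] at h4
  exact h4

end Pool.Agent.GEN
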