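import Mathlib
import Pool.Agent.Lib_helper72.GEN.G
set_option autoImplicit false
namespace Pool.Agent.GEN
open Pool.Agent.TM32

/-- the part of the sign class with prescribed genus symbols -/
def GF (n : ℕ) (v0 : ℤ × ℤ × ℤ) (e : ℕ → ℤ) : Set (ℤ × ℤ × ℤ) :=
  {v | OmP n v ∧ ∀ p ∈ n.primeFactors, chi p v v0 = e p}

theorem omP_finite (n : ℕ) : Set.Finite {v : ℤ × ℤ × ℤ | OmP n v} :=
  (finite_three n).subset (fun _ hv => hv.1)

theorem GF_finite (n : ℕ) (v0 : ℤ × ℤ × ℤ) (e : ℕ → ℤ) : (GF n v0 e).Finite :=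
  (omP_finite n).subset (fun _ hv => hv.1)

theorem OmP.iso {n p : ℕ} (hs : Squarefree n) {v : ℤ × ℤ × ℤ} (hv : OmP n v)
    (hp : p ∈ n.primeFactors) : Iso p v := by
  have : Fact p.Prime := ⟨Nat.prime_of_mem_primeFactors hp⟩
  exact iso_of hs (Nat.dvd_of_mem_primeFactors hp) hv.1

theorem pf_ne_two {n p : ℕ} (h8 : n % 2 = 1) (hp : p ∈ n.primeFactors) : p ≠ 2 := by
  rintro rfl
  have := Nat.mod_eq_zero_of_dvd (Nat.dvd_of_mem_primeFactors hp)
  omega

theorem gen_le {n : ℕ} [NeZero n] (hs : Squarefree n) (h8 : n % 8 = 3) {v0 : ℤ × ℤ × ℤ}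
    (hv0 : OmP n v0) (e e' : ℕ → ℤ) (he : ∀ p ∈ n.primeFactors, e p = 1 ∨ e p = -1)
    (hprod : ∏ p ∈ n.primeFactors, e p = 1) :
    (GF n v0 e').ncard ≤ (GF n v0 (fun p => e p * e' p)).ncard := by
  classical
  obtain ⟨l, hl, hl4, hln, hle⟩ := exists_prime n (by omega) e he
  have hln' : ¬ l ∣ n := fun h => by
    have := Nat.le_of_dvd (by omega) h
    omega
  obtain ⟨r, hr⟩ := exists_root hs (by omega) hl hl4 (by
    rw [← hprod]; exact Finset.prod_congr rfl hle)
  rw [Set.ncard_eq_toFinset_card _ (GF_finite n v0 e'),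
    Set.ncard_eq_toFinset_card _ (GF_finite n v0 _)]
  set S := (GF_finite n v0 e').toFinset
  set T := (GF_finite n v0 (fun p => e p * e' p)).toFinset
  have key := Finset.card_mul_le_card_mul (Rel l r) (s := S) (t := T) (m := 4) (n := 4) ?_ ?_
  · omega
  · intro v hv
    rw [Set.Finite.mem_toFinset] at hv
    obtain ⟨hv1, hv2⟩ := hv
    obtain ⟨w, hw, hrel⟩ := rel_exists hs h8 hv1 hl (by omega) hln' hr
    have hcard : (Finset.univ.image (fun i : Fin 4 => flv i w)).card = 4 := by
      rw [Finset.card_image_of_injective, Finset.card_univ, Fintype.card_fin]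
      intro i j hij
      apply free3 h8 (quat w) (hw.om3 h8)
      rw [← quat_flv, ← quat_flv]
      exact congrArg quat hij
    rw [← hcard]
    apply Finset.card_le_card
    intro x hx
    obtain ⟨i, -, rfl⟩ := Finset.mem_image.1 hx
    rw [Finset.mem_bipartiteAbove, Set.Finite.mem_toFinset]
    refine ⟨⟨flv_om hw i, ?_⟩, rel_fl hrel i⟩
    intro p hp
    have : Fact p.Prime := ⟨Nat.prime_of_mem_primeFactors hp⟩
    have hpn := Nat.dvd_of_mem_primeFactors hp
    have hp2 := pf_ne_two (by omega) hp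
    have c1 := chi_trans hp2 ((flv_om hw i).iso hs hp) (hw.iso hs hp) (hv0.iso hs hp)
    have c2 := chi_trans hp2 (hw.iso hs hp) (hv1.iso hs hp) (hv0.iso hs hp)
    rw [flv_chi hs h8 hw i Fact.out hpn, one_mul] at c1
    rw [← c1, ← c2, chi_comm (hw.iso hs hp) (hv1.iso hs hp),
      rel_chi hs h8 hv1 hw hl hln' hrel Fact.out hpn, hle p hp, hv2 p hp]
  · intro w hw
    rw [Set.Finite.mem_toFinset] at hw
    obtain ⟨hw1, hw2⟩ := hw
    by_cases hne : (S.bipartiteBelow (Rel l r) w).Nonempty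
    · obtain ⟨v', hv'⟩ := hne
      rw [Finset.mem_bipartiteBelow, Set.Finite.mem_toFinset] at hv'
      have hsub : S.bipartiteBelow (Rel l r) w ⊆ Finset.univ.image (fun i : Fin 4 => flv i v') := by
        intro v hv
        rw [Finset.mem_bipartiteBelow, Set.Finite.mem_toFinset] at hv
        obtain ⟨i, hi⟩ := rel_inj hs h8 hv.1.1 hv'.1.1 hw1 hl (by omega) hv.2 hv'.2
        exact Finset.mem_image.2 ⟨i, Finset.mem_univ _, hi.symm⟩
      exact (Finset.card_le_card hsub).trans (Finset.card_image_le.trans (by simp))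
    · rw [Finset.not_nonempty_iff_eq_empty.1 hne]; simp

theorem gen_eq {n : ℕ} [NeZero n] (hs : Squarefree n) (h8 : n % 8 = 3) {v0 : ℤ × ℤ × ℤ}
    (hv0 : OmP n v0) (e1 e2 : ℕ → ℤ) (he1 : ∀ p ∈ n.primeFactors, e1 p = 1 ∨ e1 p = -1)
    (he2 : ∀ p ∈ n.primeFactors, e2 p = 1 ∨ e2 p = -1)
    (hprod1 : ∏ p ∈ n.primeFactors, e1 p = 1) (hprod2 : ∏ p ∈ n.primeFactors, e2 p = 1) :
    (GF n v0 e1).ncard = (GF n v0 e2).ncard := by
  have key : ∀ a b : ℕ → ℤ, (∀ p ∈ n.primeFactors, a p = 1 ∨ a p = -1) →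
      (∀ p ∈ n.primeFactors, b p = 1 ∨ b p = -1) →
      ∏ p ∈ n.primeFactors, a p = 1 → ∏ p ∈ n.primeFactors, b p = 1 →
      (GF n v0 a).ncard ≤ (GF n v0 b).ncard := by
    intro a b ha hb ha1 hb1
    have h := gen_le hs h8 hv0 (fun p => a p * b p) a (by
      intro p hp
      rcases ha p hp with h1 | h1 <;> rcases hb p hp with h2 | h2 <;> simp [h1, h2]) (by
      rw [Finset.prod_mul_distrib, ha1, hb1, mul_one])
    have hG : GF n v0 (fun p => a p * b p * a p) = GF n v0 b := by
      ext v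
      refine and_congr_right (fun _ => ?_)
      refine forall_congr' (fun p => forall_congr' (fun hp => ?_))
      have : a p * b p * a p = b p := by
        rcases ha p hp with h1 | h1 <;> rw [h1] <;> ring
      show chi p v v0 = a p * b p * a p ↔ _
      rw [this]
    rw [hG] at h
    exact h
  exact le_antisymm (key _ _ he1 he2 hprod1 hprod2) (key _ _ he2 he1 hprod2 hprod1)

theorem even_subsets {P : Finset ℕ} (hP : P.Nonempty) :
    (P.powerset.filter (fun T => Even T.card)).card = 2 ^ (P.card - 1) := by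
  classical
  have h1 := Finset.sum_powerset_neg_one_pow_card_of_nonempty hP
  rw [← Finset.sum_filter_add_sum_filter_not P.powerset (fun T => Even T.card)] at h1
  have e1 : ∑ m ∈ P.powerset.filter (fun T => Even T.card), (-1 : ℤ) ^ m.card =
      ((P.powerset.filter (fun T => Even T.card)).card : ℤ) := by
    rw [Finset.sum_congr rfl (g := fun _ => (1 : ℤ))]
    · simp
    · intro T hT
      exact (Finset.mem_filter.1 hT).2.neg_one_pow
  have e2 : ∑ m ∈ P.powerset.filter (fun T => ¬ Even T.card), (-1 : ℤ) ^ m.card =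
      -((P.powerset.filter (fun T => ¬ Even T.card)).card : ℤ) := by
    rw [Finset.sum_congr rfl (g := fun _ => (-1 : ℤ))]
    · simp
    · intro T hT
      exact (Nat.not_even_iff_odd.1 (Finset.mem_filter.1 hT).2).neg_one_pow
  rw [e1, e2] at h1
  have h2 := Finset.card_filter_add_card_filter_not (s := P.powerset) (fun T => Even T.card)
  rw [Finset.card_powerset] at h2
  have h3 : P.card = (P.card - 1) + 1 := by
    have := hP.card_pos
    omega
  rw [h3, pow_succ] at h2
  omega

/-- sign vector of a set of primes -/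
def sgn (T : Finset ℕ) (p : ℕ) : ℤ := if p ∈ T then -1 else 1

theorem sgn_pm (T : Finset ℕ) (p : ℕ) : sgn T p = 1 ∨ sgn T p = -1 := by
  unfold sgn; split_ifs <;> simp

theorem sgn_prod {P T : Finset ℕ} (h : T ⊆ P) : ∏ p ∈ P, sgn T p = (-1) ^ T.card := by
  classical
  unfold sgn
  rw [Finset.prod_ite, Finset.prod_const, Finset.prod_const_one, mul_one,
    Finset.filter_mem_eq_inter, Finset.inter_eq_right.2 h]

theorem omP_card (n : ℕ) [NeZero n] (hs : Squarefree n) (h8 : n % 8 = 3) :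
    {v : ℤ × ℤ × ℤ | OmP n v}.ncard = 4 * Nat.card (ClassGroup (Zsqrtd (-(n : ℤ)))) := by
  obtain ⟨-, h⟩ := r3_three n hs h8
  have hneg : ∀ v : ℤ × ℤ × ℤ, v.1 ^ 2 + v.2.1 ^ 2 + v.2.2 ^ 2 = n → ¬ OmP n v → OmP n (-v) := by
    rintro ⟨x, y, z⟩ hv hn
    have hv : x ^ 2 + y ^ 2 + z ^ 2 = (n : ℤ) := hv
    refine ⟨?_, ?_⟩
    · show (-x) ^ 2 + (-y) ^ 2 + (-z) ^ 2 = (n : ℤ)
      rw [← hv]; ring
    · have ox := om_odd3 h8 x y z hv
      have oy := om_odd3 h8 y x z (by rw [← hv]; ring)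
      have oz := om_odd3 h8 z x y (by rw [← hv]; ring)
      have h3 := odd_mul' _ _ (odd_mul' _ _ ox oy) oz
      have h4 : ¬ (x * y * z) % 4 = 1 := fun h4 => hn ⟨hv, h4⟩
      show (-x * -y * -z) % 4 = 1
      have e : -x * -y * -z = -(x * y * z) := by ring
      rw [e]
      generalize x * y * z = q at h3 h4 ⊢
      omega
  have hdisj : Disjoint {v : ℤ × ℤ × ℤ | OmP n v} ((fun v => -v) '' {v : ℤ × ℤ × ℤ | OmP n v}) := by
    rw [Set.disjoint_left]
    rintro v hv ⟨w, hw, rfl⟩
    have h1 := hv.2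
    have h2 := hw.2
    have e : (-w).1 * (-w).2.1 * (-w).2.2 = -(w.1 * w.2.1 * w.2.2) := by
      show (-w.1) * (-w.2.1) * (-w.2.2) = _
      ring
    rw [e] at h1
    generalize w.1 * w.2.1 * w.2.2 = q at h1 h2
    omega
  have hun : {v : ℤ × ℤ × ℤ | v.1 ^ 2 + v.2.1 ^ 2 + v.2.2 ^ 2 = n} =
      {v : ℤ × ℤ × ℤ | OmP n v} ∪ ((fun v => -v) '' {v : ℤ × ℤ × ℤ | OmP n v}) := by
    ext v
    constructor
    · intro hv
      by_cases h1 : OmP n v
      · exact Or.inl h1
      · exact Or.inr ⟨-v, hneg v hv h1, neg_neg v⟩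
    · rintro (hv | ⟨w, hw, rfl⟩)
      · exact hv.1
      · show (-w.1) ^ 2 + (-w.2.1) ^ 2 + (-w.2.2) ^ 2 = (n : ℤ)
        rw [← hw.1]; ring
  rw [hun, Set.ncard_union_eq hdisj (omP_finite n) ((omP_finite n).image _),
    Set.ncard_image_of_injective _ neg_injective] at h
  omega

/-- **number of vectors in a genus** -/
theorem genus_card (n : ℕ) [NeZero n] (hs : Squarefree n) (h8 : n % 8 = 3) {v0 : ℤ × ℤ × ℤ}
    (hv0 : OmP n v0) (e : ℕ → ℤ) (he : ∀ p ∈ n.primeFactors, e p = 1 ∨ e p = -1)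
    (hprod : ∏ p ∈ n.primeFactors, e p = 1) :
    {v : ℤ × ℤ × ℤ | OmP n v ∧ ∀ p ∈ n.primeFactors, chi p v v0 = e p}.ncard *
      2 ^ (n.primeFactors.card - 1) = 4 * Nat.card (ClassGroup (Zsqrtd (-(n : ℤ)))) := by
  classical
  show (GF n v0 e).ncard * _ = _
  rw [← omP_card n hs h8, Set.ncard_eq_toFinset_card _ (omP_finite n)]
  set A := (omP_finite n).toFinset
  set P := n.primeFactors with hP
  have hPne : P.Nonempty := by
    rw [hP, Nat.nonempty_primeFactors]; omega
  rw [Finset.card_eq_sum_card_fiberwise (f := fun v => P.filter (fun p => chi p v v0 = -1))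
    (t := P.powerset.filter (fun T => Even T.card))]
  · rw [Finset.sum_congr rfl (g := fun _ => (GF n v0 e).ncard), Finset.sum_const, smul_eq_mul,
      even_subsets hPne, mul_comm]
    intro T hT
    obtain ⟨hT1, hT2⟩ := Finset.mem_filter.1 hT
    rw [Finset.mem_powerset] at hT1
    have h1 : (GF n v0 (sgn T)).ncard = (GF n v0 e).ncard :=
      gen_eq hs h8 hv0 (sgn T) e (fun p _ => sgn_pm T p) he (by
        rw [sgn_prod hT1]; exact hT2.neg_one_pow) hprod
    rw [← h1, Set.ncard_eq_toFinset_card _ (GF_finite n v0 _)]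
    congr 1
    ext v
    rw [Finset.mem_filter, Set.Finite.mem_toFinset, Set.Finite.mem_toFinset]
    refine and_congr_right (fun hv => ?_)
    constructor
    · intro h p hp
      unfold sgn
      split_ifs with hpT
      · rw [← h] at hpT
        exact (Finset.mem_filter.1 hpT).2
      · have : Fact p.Prime := ⟨Nat.prime_of_mem_primeFactors hp⟩
        rcases chi_pm (pf_ne_two (by omega) hp) (OmP.iso hs hv hp) (hv0.iso hs hp) with h2 | h2
        · exact h2
        · exfalso
          apply hpT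
          rw [← h]
          exact Finset.mem_filter.2 ⟨hp, h2⟩
    · intro h
      ext p
      rw [Finset.mem_filter]
      constructor
      · rintro ⟨hp, h2⟩
        by_contra hpT
        have := h p hp
        unfold sgn at this
        rw [if_neg hpT, h2] at this
        norm_num at this
      · intro hpT
        refine ⟨hT1 hpT, ?_⟩
        have := h p (hT1 hpT)
        unfold sgn at this
        rw [if_pos hpT] at this
        exact this
  · intro v hv
    have hv : v ∈ A := hv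
    rw [Set.Finite.mem_toFinset] at hv
    show _ ∈ (P.powerset.filter (fun T => Even T.card) : Finset (Finset ℕ))
    rw [Finset.mem_filter, Finset.mem_powerset]
    refine ⟨Finset.filter_subset _ _, ?_⟩
    have h1 := chi_prod hs h8 hv hv0
    have h2 : ∏ p ∈ P, chi p v v0 = ∏ p ∈ P, sgn (P.filter (fun p => chi p v v0 = -1)) p := by
      apply Finset.prod_congr rfl
      intro p hp
      have : Fact p.Prime := ⟨Nat.prime_of_mem_primeFactors hp⟩
      unfold sgn
      rcases chi_pm (pf_ne_two (by omega) hp) (OmP.iso hs hv hp) (hv0.iso hs hp) with h2 | h2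
      · rw [if_neg, h2]
        rw [Finset.mem_filter]
        rintro ⟨-, h3⟩
        rw [h2] at h3
        norm_num at h3
      · rw [if_pos, h2]
        exact Finset.mem_filter.2 ⟨hp, h2⟩
    rw [← hP, h2, sgn_prod (Finset.filter_subset _ _)] at h1
    by_contra hne
    rw [(Nat.not_even_iff_odd.1 hne).neg_one_pow] at h1
    norm_num at h1

end Pool.Agent.GEN
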