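import Mathlib
import Pool.Agent.Lib_helper72.GEN.H
set_option autoImplicit false
namespace Pool.Agent.GEN
open Pool.Agent.TM32

/-- scaling the first vector -/
theorem chi_smul {p : ℕ} [Fact p.Prime] (hp2 : p ≠ 2) {v w : ℤ × ℤ × ℤ} (hv : Iso p v)
    (hw : Iso p w) (k : ℤ) (hk : ¬ (p : ℤ) ∣ k) :
    Iso p (k * v.1, k * v.2.1, k * v.2.2) ∧
    chi p (k * v.1, k * v.2.1, k * v.2.2) w = jacobiSym k p * chi p v w := by
  have hp : Prime (p : ℤ) := Nat.prime_iff_prime_int.1 Fact.out
  have hI : Iso p (k * v.1, k * v.2.1, k * v.2.2) := by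
    refine ⟨?_, ?_⟩
    · obtain ⟨c, hc⟩ := hv.1
      refine ⟨k ^ 2 * c, ?_⟩
      unfold dot at hc ⊢
      linear_combination k ^ 2 * hc
    · rintro ⟨h1, h2, h3⟩
      apply hv.2
      refine ⟨?_, ?_, ?_⟩
      · exact (hp.dvd_or_dvd h1).resolve_left hk
      · exact (hp.dvd_or_dvd h2).resolve_left hk
      · exact (hp.dvd_or_dvd h3).resolve_left hk
  refine ⟨hI, ?_⟩
  have h1 : (p : ℤ) ∣ dot (k * v.1, k * v.2.1, k * v.2.2) v := by
    obtain ⟨c, hc⟩ := hv.1
    refine ⟨k * c, ?_⟩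
    unfold dot at hc ⊢
    linear_combination k * hc
  have h2 := chi_deg hv h1 k hk (by simp) (by simp)
  rw [← chi_trans hp2 hI hv hw, h2]

/-- `w = a v a'` gives the trivial symbol -/
theorem chi_conj {p : ℕ} [Fact p.Prime] (hp2 : p ≠ 2) {μ μ' a : Hq} (h0 : μ.re = 0)
    (hv : Iso p (vec μ)) (hw : Iso p (vec μ')) (ht : μ' = a * μ * star a) :
    chi p (vec μ) (vec μ') = 1 := by
  have hp : Prime (p : ℤ) := Nat.prime_iff_prime_int.1 Fact.out
  have h := chi_rot hp2 hv hw a.re a.imI a.imJ a.imK 1 hp.not_dvd_one ?_ ?_ ?_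
  · rw [h, jacobiSym.one_left]
  · show μ'.imI * 1 = _
    rw [ht]
    simp only [Quaternion.re_mul, Quaternion.imI_mul, Quaternion.imJ_mul, Quaternion.imK_mul,
      Quaternion.re_star, Quaternion.imI_star, Quaternion.imJ_star, Quaternion.imK_star, h0, vec]
    ring
  · show μ'.imJ * 1 = _
    rw [ht]
    simp only [Quaternion.re_mul, Quaternion.imI_mul, Quaternion.imJ_mul, Quaternion.imK_mul,
      Quaternion.re_star, Quaternion.imI_star, Quaternion.imJ_star, Quaternion.imK_star, h0, vec]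
    ring
  · show μ'.imK * 1 = _
    rw [ht]
    simp only [Quaternion.re_mul, Quaternion.imI_mul, Quaternion.imJ_mul, Quaternion.imK_mul,
      Quaternion.re_star, Quaternion.imI_star, Quaternion.imJ_star, Quaternion.imK_star, h0, vec]
    ring

theorem iso_cyc {p : ℕ} {v : ℤ × ℤ × ℤ} (hv : Iso p v) : Iso p (v.2.1, v.2.2, v.1) := by
  refine ⟨dvd_eq hv.1 (by unfold dot; ring), fun h => hv.2 ⟨h.2.2, h.1, h.2.1⟩⟩

theorem iso_neg {p : ℕ} {v : ℤ × ℤ × ℤ} (hv : Iso p v) : Iso p (-v) := by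
  refine ⟨dvd_eq hv.1 (by unfold dot; show _ = -v.1 * -v.1 + -v.2.1 * -v.2.1 + -v.2.2 * -v.2.2; ring), fun h => hv.2 ?_⟩
  obtain ⟨h1, h2, h3⟩ := h
  exact ⟨(dvd_neg (b := v.1)).1 h1, (dvd_neg (b := v.2.1)).1 h2, (dvd_neg (b := v.2.2)).1 h3⟩

theorem iso_quarter {p : ℕ} {v : ℤ × ℤ × ℤ} (hv : Iso p v) : Iso p (v.1, -v.2.2, v.2.1) := by
  refine ⟨dvd_eq hv.1 (by unfold dot; ring), fun h => hv.2 ?_⟩
  obtain ⟨h1, h2, h3⟩ := h
  exact ⟨h1, h3, (dvd_neg (b := v.2.2)).1 h2⟩

/-- the cyclic rotation preserves the symbol -/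
theorem chi_cyc {p : ℕ} [Fact p.Prime] (hp2 : p ≠ 2) {v w : ℤ × ℤ × ℤ} (hv : Iso p v)
    (hw : Iso p w) : chi p (v.2.1, v.2.2, v.1) w = chi p v w := by
  have hp : Prime (p : ℤ) := Nat.prime_iff_prime_int.1 Fact.out
  have h4 : ¬ (p : ℤ) ∣ 4 := by
    intro h
    have h6 : (p : ℤ) ∣ 2 ^ 2 := by norm_num; exact h
    exact two_nd hp2 (hp.dvd_of_dvd_pow h6)
  have h := chi_rot hp2 (iso_cyc hv) hv 1 1 1 1 4 h4
    (by show _ = _; simp; ring) (by show _ = _; simp; ring) (by show _ = _; simp; ring)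
  have h2 : jacobiSym 4 p = 1 := by
    have : jacobiSym 4 p = jacobiSym (2 ^ 2) p := by norm_num
    rw [this, jacobiSym.pow_left]
    rcases sym_pm (p := p) 2 (two_nd hp2) with h | h <;> rw [h] <;> norm_num
  rw [← chi_trans hp2 (iso_cyc hv) hv hw, h, h2, one_mul]

/-- the rotation by a right angle about the first axis -/
theorem chi_quarter {p : ℕ} [Fact p.Prime] (hp2 : p ≠ 2) {v w : ℤ × ℤ × ℤ} (hv : Iso p v)
    (hw : Iso p w) : chi p (v.1, -v.2.2, v.2.1) w = jacobiSym 2 p * chi p v w := by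
  have h := chi_rot hp2 hv (iso_quarter hv) 1 1 0 0 2 (two_nd hp2)
    (by show _ = _; simp; ring) (by show _ = _; simp; ring) (by show _ = _; simp; ring)
  rw [← chi_trans hp2 (iso_quarter hv) hv hw, chi_comm (iso_quarter hv) hv, h]

theorem chi_neg {p : ℕ} [Fact p.Prime] (hp2 : p ≠ 2) {v w : ℤ × ℤ × ℤ} (hv : Iso p v)
    (hw : Iso p w) : chi p (-v) w = jacobiSym (-1) p * chi p v w := by
  have hp : Prime (p : ℤ) := Nat.prime_iff_prime_int.1 Fact.out
  have h := (chi_smul hp2 hv hw (-1) (fun h => hp.not_dvd_one ((dvd_neg).1 h))).2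
  have e : (-v : ℤ × ℤ × ℤ) = (-1 * v.1, -1 * v.2.1, -1 * v.2.2) := by
    ext <;> simp
  rw [e, h]

/-- **decomposition**: a pure quaternion of norm `d S^2`, primitive at `S`, is `b' v0 b` with
`b` of norm `S` -/
theorem decomp (v : Hq) (S d : ℤ) (hS : S % 2 = 1) (hS0 : 0 < S)
    (hv0 : v.re = 0) (hv : nrm v = d * S ^ 2)
    (hp : ∀ t : ℤ, t ∣ S → t ∣ v.imI → t ∣ v.imJ → t ∣ v.imK → IsUnit t) :
    ∃ b v0 : Hq, nrm b = S ∧ v0.re = 0 ∧ nrm v0 = d ∧ v = star b * v0 * b := by
  have hsv : star v = -v := by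
    apply Quaternion.ext
    · rw [Quaternion.re_star, Quaternion.re_neg, hv0]; rfl
    · rw [Quaternion.imI_star, Quaternion.imI_neg]
    · rw [Quaternion.imJ_star, Quaternion.imJ_neg]
    · rw [Quaternion.imK_star, Quaternion.imK_neg]
  have hvv : v * v = ((-(d * S ^ 2) : ℤ) : Hq) := by
    have := self_mul_star' v
    rw [hsv, hv] at this
    rw [Int.cast_neg, ← this]; simp
  set J : Ideal Hq := Ideal.span {v, (S : Hq)} with hJ
  have m1 : v ∈ J := Ideal.subset_span (by simp)
  have m2 : (S : Hq) ∈ J := Ideal.subset_span (by simp)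
  obtain ⟨b, hbJ, hb1, hb⟩ := principal_odd J (S : Hq) (by
    rw [nrm_int, pow_two]; exact odd_mul' _ _ hS hS) m2
  obtain ⟨x, y, hxy⟩ : ∃ x y : Hq, x * v + y * (S : Hq) = b := Submodule.mem_span_pair.1 hbJ
  obtain ⟨c, hc⟩ := hb _ m1
  obtain ⟨e, he⟩ := hb _ m2
  have hb0 : nrm b ≠ 0 := by omega
  -- S divides nrm b
  obtain ⟨t, ht⟩ : S ∣ nrm b := by
    have e1 : ((nrm b : ℤ) : Hq) = (S : Hq) * (x * (((d * S : ℤ) : Hq) * star x)
        + x * (v * star y) + y * star b) := by
      calc ((nrm b : ℤ) : Hq) = (x * v + y * (S : Hq)) * star b := by rw [hxy, self_mul_star']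
        _ = x * (v * star b) + y * (S : Hq) * star b := by rw [add_mul, mul_assoc x]
        _ = x * (v * star (x * v + y * (S : Hq))) + y * (S : Hq) * star b := by rw [hxy]
        _ = x * (v * star v * star x + v * ((S : Hq) * star y)) + y * (S : Hq) * star b := by
            have e3 : star (S : Hq) = (S : Hq) := by simp
            rw [star_add, star_mul, star_mul, e3, mul_add v, mul_assoc v (star v)]
        _ = _ := by
            rw [self_mul_star', hv, mul_add x, mul_add (S : Hq), mul_add (S : Hq),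
              int_out S v (star y), int_out S x (v * star y), mul_assoc y, int_out S y]
            have e5 : ((d * S ^ 2 : ℤ) : Hq) * star x = (S : Hq) * (((d * S : ℤ) : Hq) * star x) := by
              rw [← mul_assoc, ← Int.cast_mul]
              congr 2; ring
            rw [e5, int_out S x]
    have e2 := congrArg (fun q : Hq => q.re) e1
    simp only [int_mul_re, re_int] at e2
    exact ⟨_, e2⟩
  have hne : S ^ 2 = nrm e * nrm b := by rw [← nrm_mul, ← he, nrm_int]
  have ht1 : S = nrm e * t := by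
    have : S * S = S * (nrm e * t) := by rw [ht] at hne; linear_combination hne
    exact mul_left_cancel₀ hS0.ne' this
  have htb : star b = ((t : ℤ) : Hq) * e := by
    apply mul_right_cancel' _ _ b hb0
    rw [star_mul_self', ht, mul_assoc, ← he, Int.cast_mul, int_comm]
  have htu : t = 1 := by
    have hb' : b = ((t : ℤ) : Hq) * star e := by
      have := congrArg star htb
      rw [star_star, star_mul] at this
      rw [this, int_comm]
      congr 1
      simp
    have hv' : v = ((t : ℤ) : Hq) * (c * star e) := by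
      rw [hc]
      conv_lhs => rw [hb']
      rw [int_out]
    have d1 := congrArg (fun q : Hq => q.imI) hv'
    have d2 := congrArg (fun q : Hq => q.imJ) hv'
    have d3 := congrArg (fun q : Hq => q.imK) hv'
    simp only [int_mul_imI, int_mul_imJ, int_mul_imK] at d1 d2 d3
    have hu := hp t ⟨nrm e, by rw [ht1]; ring⟩ ⟨_, d1⟩ ⟨_, d2⟩ ⟨_, d3⟩
    have hN := nrm_nonneg b
    rcases Int.isUnit_iff.1 hu with h | h
    · exact h
    · exfalso
      rw [ht, h] at hN
      omega
  have hbS : nrm b = S := by rw [ht, htu, mul_one]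
  -- b c is divisible by S
  have h1 : v * c = -(((d * S : ℤ) : Hq) * star b) := by
    apply mul_right_cancel' _ _ b hb0
    rw [mul_assoc, ← hc, hvv, neg_mul, mul_assoc, star_mul_self', hbS, ← Int.cast_mul, ← Int.cast_neg]
    congr 1; ring
  set v0 : Hq := y * c - ((d : ℤ) : Hq) * (x * star b) with hv0'
  have h2 : b * c = (S : Hq) * v0 := by
    calc b * c = (x * v + y * (S : Hq)) * c := by rw [hxy]
      _ = x * (v * c) + y * ((S : Hq) * c) := by rw [add_mul, mul_assoc, mul_assoc]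
      _ = _ := by
        rw [h1, hv0', mul_neg, int_out (d * S) x, int_out S y, mul_sub, ← mul_assoc (S : Hq) (d : Hq),
          ← Int.cast_mul, mul_comm d S]
        abel
  have hSH : nrm ((S : Hq)) ≠ 0 := by rw [nrm_int]; positivity
  have h3 : v = star b * v0 * b := by
    apply int_cancel S hS0.ne'
    calc (S : Hq) * v = star b * b * (c * b) := by rw [star_mul_self', hbS, ← hc]
      _ = star b * (b * c) * b := by noncomm_ring
      _ = star b * ((S : Hq) * v0) * b := by rw [h2]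
      _ = (S : Hq) * (star b * v0) * b := by rw [int_out]
      _ = _ := by rw [mul_assoc]
  refine ⟨b, v0, hbS, ?_, ?_, h3⟩
  · -- v0 is pure
    have h4 : b * v * star b = ((S ^ 2 : ℤ) : Hq) * v0 := by
      rw [h3]
      calc b * (star b * v0 * b) * star b = (b * star b) * v0 * (b * star b) := by noncomm_ring
        _ = _ := by rw [self_mul_star', hbS, mul_assoc, ← int_comm, ← mul_assoc, ← Int.cast_mul,
                    ← pow_two]
    have h5 := congrArg (fun q : Hq => q.re) h4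
    simp only [int_mul_re] at h5
    have h6 : (b * v * star b).re = 0 := by
      simp only [Quaternion.re_mul, Quaternion.imI_mul, Quaternion.imJ_mul, Quaternion.imK_mul,
        Quaternion.re_star, Quaternion.imI_star, Quaternion.imJ_star, Quaternion.imK_star, hv0]
      ring
    rw [h6] at h5
    rcases mul_eq_zero.1 h5.symm with h7 | h7
    · exact absurd h7 (pow_ne_zero 2 hS0.ne')
    · exact h7
  · have h4 : nrm v = S ^ 2 * nrm v0 := by
      conv_lhs => rw [h3]
      rw [nrm_mul, nrm_mul, nrm_star, hbS]; ring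
    rw [hv] at h4
    have h5 : S ^ 2 * nrm v0 = S ^ 2 * d := by linarith
    exact mul_left_cancel₀ (pow_ne_zero 2 hS0.ne') h5

end Pool.Agent.GEN
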