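import Mathlib
import Pool.Agent.Lib_helper72.GEN.I
set_option autoImplicit false
namespace Pool.Agent.GEN
open Pool.Agent.TM32

/-- the sign attached to a vector of norm `1 mod 8` -/
def kap (v : ℤ × ℤ × ℤ) : ℤ := if v.1 % 4 = 2 ∨ v.2.1 % 4 = 2 ∨ v.2.2 % 4 = 2 then -1 else 1

theorem sq8 (a : ℤ) : (a % 4 = 0 ∧ a ^ 2 % 8 = 0) ∨ (a % 4 = 2 ∧ a ^ 2 % 8 = 4) ∨
    (a % 2 = 1 ∧ a ^ 2 % 8 = 1) := by
  rcases (by omega : a % 4 = 0 ∨ a % 4 = 2 ∨ a % 2 = 1) with h | h | h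
  · left
    refine ⟨h, ?_⟩
    obtain ⟨k, rfl⟩ : ∃ k, a = 4 * k := ⟨a / 4, by omega⟩
    have : (4 * k) ^ 2 = 8 * (2 * k ^ 2) := by ring
    rw [this]; omega
  · right; left
    refine ⟨h, ?_⟩
    obtain ⟨k, rfl⟩ : ∃ k, a = 4 * k + 2 := ⟨a / 4, by omega⟩
    have : (4 * k + 2) ^ 2 = 8 * (2 * k ^ 2 + 2 * k) + 4 := by ring
    rw [this]; omega
  · right; right
    refine ⟨h, ?_⟩
    obtain ⟨k, rfl⟩ : ∃ k, a = 2 * k + 1 := ⟨a / 2, by omega⟩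
    obtain ⟨m, hm⟩ := Int.even_mul_succ_self k
    have : (2 * k + 1) ^ 2 = 8 * m + 1 := by linear_combination 4 * hm
    rw [this]; omega

/-- shape with odd first coordinate -/
def Sh1 (v : ℤ × ℤ × ℤ) : Prop := v.1 % 2 = 1 ∧ v.2.1 % 2 = 0 ∧ (v.2.1 - v.2.2) % 4 = 0

def cyc (v : ℤ × ℤ × ℤ) : ℤ × ℤ × ℤ := (v.2.1, v.2.2, v.1)

theorem kap_cyc (v : ℤ × ℤ × ℤ) : kap (cyc v) = kap v := by
  unfold kap cyc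
  congr 1
  apply propext
  constructor
  · rintro (h | h | h)
    · exact Or.inr (Or.inl h)
    · exact Or.inr (Or.inr h)
    · exact Or.inl h
  · rintro (h | h | h)
    · exact Or.inr (Or.inr h)
    · exact Or.inl h
    · exact Or.inr (Or.inl h)

theorem sh_cases (v : ℤ × ℤ × ℤ) (h : (v.1 ^ 2 + v.2.1 ^ 2 + v.2.2 ^ 2) % 8 = 1) :
    Sh1 v ∨ Sh1 (cyc v) ∨ Sh1 (cyc (cyc v)) := by
  obtain ⟨x, y, z⟩ := v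
  simp only [Sh1, cyc] at *
  rcases sq8 x with ⟨h1, h2⟩ | ⟨h1, h2⟩ | ⟨h1, h2⟩ <;>
  rcases sq8 y with ⟨h3, h4⟩ | ⟨h3, h4⟩ | ⟨h3, h4⟩ <;>
  rcases sq8 z with ⟨h5, h6⟩ | ⟨h5, h6⟩ | ⟨h5, h6⟩ <;> omega

theorem two_sq_odd (p q : ℤ) (h : (p + q) % 2 = 1) : (p ^ 2 + q ^ 2) % 4 = 1 := by
  rcases sq8 p with ⟨h1, h2⟩ | ⟨h1, h2⟩ | ⟨h1, h2⟩ <;>
  rcases sq8 q with ⟨h3, h4⟩ | ⟨h3, h4⟩ | ⟨h3, h4⟩ <;> omega

theorem sq_par (a : ℤ) : a ^ 2 % 2 = a % 2 := by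
  rcases sq8 a with ⟨h1, h2⟩ | ⟨h1, h2⟩ | ⟨h1, h2⟩ <;> omega

/-- rotation by an odd quaternion modulo 4 -/
theorem rot4 (a0 a1 a2 a3 x y z : ℤ) (hN : (a0 ^ 2 + a1 ^ 2 + a2 ^ 2 + a3 ^ 2) % 2 = 1)
    (hx : x % 2 = 1) (hy : y % 2 = 0) (hz : z % 2 = 0) :
    ((a0 ^ 2 + a1 ^ 2 - a2 ^ 2 - a3 ^ 2) * x + 2 * ((a1 * a2 - a0 * a3) * y
      + (a1 * a3 + a0 * a2) * z)) % 2 = 1 ∧
    ((a0 ^ 2 - a1 ^ 2 + a2 ^ 2 - a3 ^ 2) * y + 2 * ((a1 * a2 + a0 * a3) * x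
      + (a2 * a3 - a0 * a1) * z) - y - (a0 ^ 2 + a1 ^ 2 + a2 ^ 2 + a3 ^ 2 - 1)) % 4 = 0 ∧
    ((a0 ^ 2 - a1 ^ 2 - a2 ^ 2 + a3 ^ 2) * z + 2 * ((a1 * a3 - a0 * a2) * x
      + (a2 * a3 + a0 * a1) * y) - z - (a0 ^ 2 + a1 ^ 2 + a2 ^ 2 + a3 ^ 2 - 1)) % 4 = 0 := by
  have q0 := sq_par a0
  have q1 := sq_par a1
  have q2 := sq_par a2
  have q3 := sq_par a3
  have e1 := two_sq_odd (a0 + a3) (a1 + a2) (by omega)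
  have e2 := two_sq_odd (a0 + a2) (a1 + a3) (by omega)
  have f1 : (a0 + a3) ^ 2 + (a1 + a2) ^ 2 = a0 ^ 2 + a1 ^ 2 + a2 ^ 2 + a3 ^ 2 +
    2 * (a1 * a2 + a0 * a3) := by ring
  have f2 : (a0 + a2) ^ 2 + (a1 + a3) ^ 2 = a0 ^ 2 + a1 ^ 2 + a2 ^ 2 + a3 ^ 2 +
    2 * (a1 * a3 + a0 * a2) := by ring
  rw [f1] at e1
  rw [f2] at e2
  obtain ⟨X, rfl⟩ : ∃ X, x = 2 * X + 1 := ⟨x / 2, by omega⟩
  obtain ⟨Y, rfl⟩ : ∃ Y, y = 2 * Y := ⟨y / 2, by omega⟩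
  obtain ⟨Z, rfl⟩ : ∃ Z, z = 2 * Z := ⟨z / 2, by omega⟩
  obtain ⟨M, hM⟩ : ∃ M, a0 ^ 2 + a1 ^ 2 + a2 ^ 2 + a3 ^ 2 = 2 * M + 1 :=
    ⟨(a0 ^ 2 + a1 ^ 2 + a2 ^ 2 + a3 ^ 2) / 2, by omega⟩
  refine ⟨?_, ?_, ?_⟩
  · have : (a0 ^ 2 + a1 ^ 2 - a2 ^ 2 - a3 ^ 2) * (2 * X + 1) + 2 * ((a1 * a2 - a0 * a3) * (2 * Y)
      + (a1 * a3 + a0 * a2) * (2 * Z)) = (a0 ^ 2 + a1 ^ 2 + a2 ^ 2 + a3 ^ 2) +
      2 * ((a0 ^ 2 + a1 ^ 2 - a2 ^ 2 - a3 ^ 2) * X - a2 ^ 2 - a3 ^ 2 +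
      ((a1 * a2 - a0 * a3) * (2 * Y) + (a1 * a3 + a0 * a2) * (2 * Z))) := by ring
    rw [this, Int.add_mul_emod_self_left]
    exact hN
  · have : (a0 ^ 2 - a1 ^ 2 + a2 ^ 2 - a3 ^ 2) * (2 * Y) + 2 * ((a1 * a2 + a0 * a3) * (2 * X + 1)
      + (a2 * a3 - a0 * a1) * (2 * Z)) - 2 * Y - (a0 ^ 2 + a1 ^ 2 + a2 ^ 2 + a3 ^ 2 - 1)
      = 2 * (a1 * a2 + a0 * a3) - (a0 ^ 2 + a1 ^ 2 + a2 ^ 2 + a3 ^ 2 - 1) +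
      4 * (M * Y - (a1 ^ 2 + a3 ^ 2) * Y + (a1 * a2 + a0 * a3) * X + (a2 * a3 - a0 * a1) * Z) := by
      linear_combination 2 * Y * hM
    rw [this, Int.add_mul_emod_self_left]
    generalize a1 * a2 + a0 * a3 = u at e1 ⊢
    omega
  · have : (a0 ^ 2 - a1 ^ 2 - a2 ^ 2 + a3 ^ 2) * (2 * Z) + 2 * ((a1 * a3 - a0 * a2) * (2 * X + 1)
      + (a2 * a3 + a0 * a1) * (2 * Y)) - 2 * Z - (a0 ^ 2 + a1 ^ 2 + a2 ^ 2 + a3 ^ 2 - 1)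
      = 2 * (a1 * a3 + a0 * a2) - (a0 ^ 2 + a1 ^ 2 + a2 ^ 2 + a3 ^ 2 - 1) +
      4 * (M * Z - (a1 ^ 2 + a2 ^ 2) * Z + (a1 * a3 - a0 * a2) * X - a0 * a2 +
        (a2 * a3 + a0 * a1) * Y) := by
      linear_combination 2 * Z * hM
    rw [this, Int.add_mul_emod_self_left]
    generalize a1 * a3 + a0 * a2 = u at e2 ⊢
    omega

/-- the rotated vector `a v a'` -/
def rot (a0 a1 a2 a3 : ℤ) (v : ℤ × ℤ × ℤ) : ℤ × ℤ × ℤ :=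
  ((a0 ^ 2 + a1 ^ 2 - a2 ^ 2 - a3 ^ 2) * v.1 + 2 * ((a1 * a2 - a0 * a3) * v.2.1
      + (a1 * a3 + a0 * a2) * v.2.2),
   (a0 ^ 2 - a1 ^ 2 + a2 ^ 2 - a3 ^ 2) * v.2.1 + 2 * ((a1 * a2 + a0 * a3) * v.1
      + (a2 * a3 - a0 * a1) * v.2.2),
   (a0 ^ 2 - a1 ^ 2 - a2 ^ 2 + a3 ^ 2) * v.2.2 + 2 * ((a1 * a3 - a0 * a2) * v.1
      + (a2 * a3 + a0 * a1) * v.2.1))

theorem rot_cyc (a0 a1 a2 a3 : ℤ) (v : ℤ × ℤ × ℤ) :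
    rot a0 a2 a3 a1 (cyc v) = cyc (rot a0 a1 a2 a3 v) := by
  unfold rot cyc
  ext <;> simp <;> ring

theorem kap_rot1 (a0 a1 a2 a3 : ℤ) (v : ℤ × ℤ × ℤ)
    (hN : (a0 ^ 2 + a1 ^ 2 + a2 ^ 2 + a3 ^ 2) % 2 = 1) (hv : Sh1 v) :
    kap (rot a0 a1 a2 a3 v) =
      (if (a0 ^ 2 + a1 ^ 2 + a2 ^ 2 + a3 ^ 2) % 4 = 1 then 1 else -1) * kap v := by
  obtain ⟨h1, h2, h3⟩ := hv
  obtain ⟨g1, g2, g3⟩ := rot4 a0 a1 a2 a3 v.1 v.2.1 v.2.2 hN h1 h2 (by omega)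
  unfold kap rot
  simp only
  generalize (a0 ^ 2 + a1 ^ 2 - a2 ^ 2 - a3 ^ 2) * v.1 + 2 * ((a1 * a2 - a0 * a3) * v.2.1
      + (a1 * a3 + a0 * a2) * v.2.2) = w1 at g1 ⊢
  generalize (a0 ^ 2 - a1 ^ 2 + a2 ^ 2 - a3 ^ 2) * v.2.1 + 2 * ((a1 * a2 + a0 * a3) * v.1
      + (a2 * a3 - a0 * a1) * v.2.2) = w2 at g2 ⊢
  generalize (a0 ^ 2 - a1 ^ 2 - a2 ^ 2 + a3 ^ 2) * v.2.2 + 2 * ((a1 * a3 - a0 * a2) * v.1
      + (a2 * a3 + a0 * a1) * v.2.1) = w3 at g3 ⊢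
  generalize a0 ^ 2 + a1 ^ 2 + a2 ^ 2 + a3 ^ 2 = N at hN g2 g3 ⊢
  split_ifs <;> first | rfl | (exfalso; omega)

theorem kap_rot (a0 a1 a2 a3 : ℤ) (v : ℤ × ℤ × ℤ)
    (hN : (a0 ^ 2 + a1 ^ 2 + a2 ^ 2 + a3 ^ 2) % 2 = 1)
    (hv : (v.1 ^ 2 + v.2.1 ^ 2 + v.2.2 ^ 2) % 8 = 1) :
    kap (rot a0 a1 a2 a3 v) =
      (if (a0 ^ 2 + a1 ^ 2 + a2 ^ 2 + a3 ^ 2) % 4 = 1 then 1 else -1) * kap v := by
  rcases sh_cases v hv with h | h | h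
  · exact kap_rot1 a0 a1 a2 a3 v hN h
  · have e : a0 ^ 2 + a2 ^ 2 + a3 ^ 2 + a1 ^ 2 = a0 ^ 2 + a1 ^ 2 + a2 ^ 2 + a3 ^ 2 := by ring
    have := kap_rot1 a0 a2 a3 a1 (cyc v) (by rw [e]; exact hN) h
    rw [rot_cyc, kap_cyc, kap_cyc, e] at this
    exact this
  · have e : a0 ^ 2 + a3 ^ 2 + a1 ^ 2 + a2 ^ 2 = a0 ^ 2 + a1 ^ 2 + a2 ^ 2 + a3 ^ 2 := by ring
    have := kap_rot1 a0 a3 a1 a2 (cyc (cyc v)) (by rw [e]; exact hN) h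
    rw [rot_cyc, rot_cyc, kap_cyc, kap_cyc, kap_cyc, kap_cyc, e] at this
    exact this

/-- odd multiples -/
theorem kap_mul (N : ℤ) (hN : N % 2 = 1) (v : ℤ × ℤ × ℤ) :
    kap (N * v.1, N * v.2.1, N * v.2.2) = kap v := by
  have key : ∀ x : ℤ, (N * x) % 4 = 2 ↔ x % 4 = 2 := by
    intro x
    obtain ⟨M, hM⟩ : ∃ M, N = 2 * M + 1 := ⟨N / 2, by omega⟩
    rcases (by omega : x % 4 = 0 ∨ x % 4 = 2 ∨ x % 2 = 1) with h | h | h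
    · obtain ⟨k, rfl⟩ : ∃ k, x = 4 * k := ⟨x / 4, by omega⟩
      have : N * (4 * k) = 4 * (N * k) := by ring
      rw [this]; omega
    · obtain ⟨k, rfl⟩ : ∃ k, x = 4 * k + 2 := ⟨x / 4, by omega⟩
      have : N * (4 * k + 2) = 4 * (N * k + M) + 2 := by rw [hM]; ring
      rw [this]; omega
    · obtain ⟨k, rfl⟩ : ∃ k, x = 2 * k + 1 := ⟨x / 2, by omega⟩
      have : N * (2 * k + 1) = 2 * (N * k + M) + 1 := by rw [hM]; ring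
      rw [this]; omega
  unfold kap
  simp only [key]

theorem kap_sq (v : ℤ × ℤ × ℤ) : kap v * kap v = 1 := by
  unfold kap; split_ifs <;> rfl

/-- intertwiners and `kap` -/
theorem kap_tw {n : ℕ} (h8 : n % 8 = 1) {μ μ' a : Hq} (h0 : μ.re = 0)
    (hn : μ.imI ^ 2 + μ.imJ ^ 2 + μ.imK ^ 2 = n) (ha : nrm a % 2 = 1) (ht : a * μ = μ' * a) :
    kap (vec μ') = (if nrm a % 4 = 1 then 1 else -1) * kap (vec μ) := by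
  have e : ((nrm a : ℤ) : Hq) * μ' = a * μ * star a := by
    rw [ht, mul_assoc, self_mul_star', int_comm]
  have h1 : (nrm a * (vec μ').1, nrm a * (vec μ').2.1, nrm a * (vec μ').2.2) =
      rot a.re a.imI a.imJ a.imK (vec μ) := by
    have e1 := congrArg (fun q : Hq => q.imI) e
    have e2 := congrArg (fun q : Hq => q.imJ) e
    have e3 := congrArg (fun q : Hq => q.imK) e
    simp only [int_mul_imI, int_mul_imJ, int_mul_imK] at e1 e2 e3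
    unfold vec rot
    ext
    · show nrm a * μ'.imI = _
      rw [e1]
      simp only [Quaternion.re_mul, Quaternion.imI_mul, Quaternion.imJ_mul, Quaternion.imK_mul,
        Quaternion.re_star, Quaternion.imI_star, Quaternion.imJ_star, Quaternion.imK_star, h0]
      ring
    · show nrm a * μ'.imJ = _
      rw [e2]
      simp only [Quaternion.re_mul, Quaternion.imI_mul, Quaternion.imJ_mul, Quaternion.imK_mul,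
        Quaternion.re_star, Quaternion.imI_star, Quaternion.imJ_star, Quaternion.imK_star, h0]
      ring
    · show nrm a * μ'.imK = _
      rw [e3]
      simp only [Quaternion.re_mul, Quaternion.imI_mul, Quaternion.imJ_mul, Quaternion.imK_mul,
        Quaternion.re_star, Quaternion.imI_star, Quaternion.imJ_star, Quaternion.imK_star, h0]
      ring
  rw [← kap_mul (nrm a) ha, h1, kap_rot]
  · rfl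
  · exact ha
  · show (μ.imI ^ 2 + μ.imJ ^ 2 + μ.imK ^ 2) % 8 = 1
    rw [hn]; omega

end Pool.Agent.GEN
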