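import Mathlib
import Pool.Agent.Lib_helper72.GEN.J
set_option autoImplicit false
namespace Pool.Agent.GEN
open Pool.Agent.TM32

/-- the nontrivial character modulo 4 on odd integers -/
def sg4 (N : ℤ) : ℤ := if N % 4 = 1 then 1 else -1

theorem sg4_mul (M N : ℤ) (hM : M % 2 = 1) (hN : N % 2 = 1) : sg4 (M * N) = sg4 M * sg4 N := by
  have h1 : (M * N) % 4 = ((M % 4) * (N % 4)) % 4 := Int.mul_emod _ _ _
  unfold sg4
  rcases (by omega : M % 4 = 1 ∨ M % 4 = 3) with h | h <;>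
  rcases (by omega : N % 4 = 1 ∨ N % 4 = 3) with h' | h' <;> rw [h1, h, h'] <;> norm_num

theorem sg4_sq (M : ℤ) : sg4 M * sg4 M = 1 := by
  unfold sg4; split_ifs <;> rfl

theorem coprime_of {n : ℕ} (M : ℕ) (hco : ∀ p : ℕ, p.Prime → p ∣ n → ¬ p ∣ M) :
    Nat.Coprime M n := by
  rw [Nat.coprime_iff_gcd_eq_one]
  by_contra hne
  obtain ⟨p, hp, hpd⟩ := Nat.exists_prime_and_dvd hne
  exact hco p hp (hpd.trans (Nat.gcd_dvd_right _ _)) (hpd.trans (Nat.gcd_dvd_left _ _))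

theorem recip1 (n M : ℕ) (h4 : n % 4 = 1) (hM : M % 2 = 1) (hc : Nat.Coprime M n) (r : ℤ)
    (h : (M : ℤ) ∣ r ^ 2 + n) : jacobiSym M n = sg4 M := by
  have hodd : Odd M := Nat.odd_iff.2 hM
  have hoddn : Odd n := Nat.odd_iff.2 (by omega)
  have hgcd : r.gcd M = 1 := by
    by_contra hne
    obtain ⟨p, hp, hpd⟩ := Nat.exists_prime_and_dvd hne
    have h1 : (p : ℤ) ∣ r := (Int.natCast_dvd_natCast.2 hpd).trans (Int.gcd_dvd_left _ _)
    have h2 : (p : ℤ) ∣ (M : ℤ) := (Int.natCast_dvd_natCast.2 hpd).trans (Int.gcd_dvd_right _ _)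
    have h3 : (p : ℤ) ∣ (n : ℤ) := by
      have h5 : (p : ℤ) ∣ r ^ 2 + n := h2.trans h
      exact dvd_eq (dvd_sub h5 (dvd_pow h1 two_ne_zero)) (by ring)
    have h4' : p ∣ M := by exact_mod_cast h2
    have h5 : p ∣ n := by exact_mod_cast h3
    exact hp.one_lt.ne' (Nat.dvd_one.1 (hc ▸ Nat.dvd_gcd h4' h5))
  have h1 : jacobiSym (-(n : ℤ)) M = 1 := by
    rw [← jacobiSym.sq_one' hgcd]
    apply jacobiSym.mod_left'
    apply Int.ModEq.symm
    rw [Int.modEq_iff_dvd]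
    have := dvd_neg.2 h
    exact dvd_eq this (by ring)
  rw [jacobiSym.neg _ hodd] at h1
  rw [jacobiSym.quadratic_reciprocity_one_mod_four' hodd h4]
  unfold sg4
  rcases (by omega : M % 4 = 1 ∨ M % 4 = 3) with h5 | h5
  · rw [ZMod.χ₄_nat_one_mod_four h5, one_mul] at h1
    rw [if_pos (by omega)]
    exact h1
  · rw [ZMod.χ₄_nat_three_mod_four h5] at h1
    rw [if_neg (by omega)]
    linarith

/-- symbols of an intertwiner with norm prime to `n` -/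
theorem prod_tw1 {n : ℕ} (hs : Squarefree n) (h8 : n % 8 = 1) {μ μ' b : Hq} (h : IsOm n μ)
    (hb1 : nrm b % 2 = 1) (ht : b * μ = μ' * b)
    (hco : ∀ p : ℕ, p.Prime → p ∣ n → ¬ (p : ℤ) ∣ nrm b) : jacobiSym (nrm b) n = sg4 (nrm b) := by
  obtain ⟨c, b', hcb, hp⟩ := content b (by omega)
  have hN : nrm b = c ^ 2 * nrm b' := by rw [hcb, nrm_mul, nrm_int]
  have hc0 : c ≠ 0 := by
    rintro rfl
    rw [hN] at hb1; omega
  have hm' : nrm b' % 2 = 1 := by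
    rcases Int.emod_two_eq_zero_or_one (nrm b') with h0 | h0
    · exfalso
      obtain ⟨d', hd'⟩ : ∃ d', nrm b' = 2 * d' := ⟨nrm b' / 2, by omega⟩
      have : nrm b = 2 * (c ^ 2 * d') := by rw [hN, hd']; ring
      omega
    · exact h0
  have hc2 : c ^ 2 % 4 = 1 := by
    rcases sq8 c with ⟨h1, h2⟩ | ⟨h1, h2⟩ | ⟨h1, h2⟩
    · exfalso
      obtain ⟨d', hd'⟩ : ∃ d', c ^ 2 = 2 * d' := ⟨c ^ 2 / 2, by omega⟩
      have : nrm b = 2 * (d' * nrm b') := by rw [hN, hd']; ring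
      omega
    · exfalso
      obtain ⟨d', hd'⟩ : ∃ d', c ^ 2 = 2 * d' := ⟨c ^ 2 / 2, by omega⟩
      have : nrm b = 2 * (d' * nrm b') := by rw [hN, hd']; ring
      omega
    · omega
  have ht' : b' * μ = μ' * b' := by
    apply int_cancel c hc0
    rw [← mul_assoc, ← hcb, ht, hcb, ← mul_assoc, ← mul_assoc, int_comm]
  obtain ⟨r, hr, -⟩ := Iq_prim hs h b' μ' hm' ht' hp
  have hcn : c.gcd n = 1 := by
    by_contra hne
    obtain ⟨p, hp, hpd⟩ := Nat.exists_prime_and_dvd hne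
    have h1 : (p : ℤ) ∣ c := (Int.natCast_dvd_natCast.2 hpd).trans (Int.gcd_dvd_left _ _)
    have h2 : (p : ℤ) ∣ (n : ℤ) := (Int.natCast_dvd_natCast.2 hpd).trans (Int.gcd_dvd_right _ _)
    apply hco p hp (by exact_mod_cast h2)
    rw [hN]
    exact dvd_mul_of_dvd_left (dvd_pow h1 two_ne_zero) _
  have e1 : sg4 (nrm b) = sg4 (nrm b') := by
    rw [hN, sg4_mul _ _ (by omega) hm']
    unfold sg4
    rw [if_pos hc2, one_mul]
  rw [e1, hN, jacobiSym.mul_left, jacobiSym.sq_one' hcn, one_mul]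
  obtain ⟨M, hM⟩ : ∃ M : ℕ, nrm b' = M := ⟨(nrm b').toNat, by
    have := nrm_nonneg b'; omega⟩
  rw [hM] at hr hm' ⊢
  apply recip1 n M (by omega) (by omega) _ r hr
  apply coprime_of
  intro p hp h2 h1
  apply hco p hp h2
  rw [hN, hM]
  exact dvd_mul_of_dvd_right (by exact_mod_cast h1) _

theorem isOm_of_sh {n : ℕ} {v : ℤ × ℤ × ℤ} (hv : v.1 ^ 2 + v.2.1 ^ 2 + v.2.2 ^ 2 = n) (h : Sh1 v) :
    IsOm n (quat v) := ⟨rfl, hv, h.1⟩

theorem sg4_kap {n : ℕ} (h8 : n % 8 = 1) {v w : ℤ × ℤ × ℤ} {a : Hq} (h0 : IsOm n (quat v))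
    (ha : nrm a % 2 = 1) (ht : a * quat v = quat w * a) : sg4 (nrm a) = kap v * kap w := by
  have h := kap_tw h8 h0.re0 h0.sum ha ht
  rw [vec_quat, vec_quat] at h
  rw [h]
  show sg4 (nrm a) = kap v * (sg4 (nrm a) * kap v)
  have := kap_sq v
  calc sg4 (nrm a) = sg4 (nrm a) * (kap v * kap v) := by rw [this, mul_one]
    _ = _ := by ring

theorem recip_sh {n : ℕ} (hs : Squarefree n) (h8 : n % 8 = 1) {v w : ℤ × ℤ × ℤ}
    (hv : v.1 ^ 2 + v.2.1 ^ 2 + v.2.2 ^ 2 = n) (hw : w.1 ^ 2 + w.2.1 ^ 2 + w.2.2 ^ 2 = n)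
    (h1 : Sh1 v) (h2 : Sh1 w) : ∏ p ∈ n.primeFactors, chi p v w = kap v * kap w := by
  have h0 := isOm_of_sh hv h1
  have h0' := isOm_of_sh hw h2
  obtain ⟨a, ha, hta⟩ := exists_tw h8 h0 h0'
  obtain ⟨b, hb, htb, hco⟩ := good_tw hs (by omega) h0 ha hta
  have h3 := prod_tw1 hs h8 h0 hb htb hco
  rw [← sg4_kap h8 h0 hb htb, ← h3, ← prod_sym _ _ hs]
  apply Finset.prod_congr rfl
  intro p hp
  have hpp := Nat.prime_of_mem_primeFactors hp
  have hpn := Nat.dvd_of_mem_primeFactors hp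
  have : Fact p.Prime := ⟨hpp⟩
  exact chi_tw (pf_ne_two (by omega) hp) hs hpn h0 h0' htb (hco p hpp hpn)

/-- transport of a relation along the cyclic rotation -/
theorem by_cyc (P : ℤ × ℤ × ℤ → Prop) (hP : ∀ v, P (cyc v) → P v) (v : ℤ × ℤ × ℤ)
    (h : P v ∨ P (cyc v) ∨ P (cyc (cyc v))) : P v := by
  rcases h with h | h | h
  · exact h
  · exact hP v h
  · exact hP v (hP _ h)

theorem norm_cyc (v : ℤ × ℤ × ℤ) : (cyc v).1 ^ 2 + (cyc v).2.1 ^ 2 + (cyc v).2.2 ^ 2 =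
    v.1 ^ 2 + v.2.1 ^ 2 + v.2.2 ^ 2 := by
  unfold cyc; ring

theorem cyc3 (v : ℤ × ℤ × ℤ) : cyc (cyc (cyc v)) = v := rfl

theorem chi_cyc_right {p : ℕ} [Fact p.Prime] (hp2 : p ≠ 2) {v w : ℤ × ℤ × ℤ} (hv : Iso p v)
    (hw : Iso p w) : chi p v (cyc w) = chi p v w := by
  show chi p v (w.2.1, w.2.2, w.1) = chi p v w
  rw [chi_comm hv (iso_cyc hw), chi_comm hv hw]
  exact chi_cyc hp2 hw hv

/-- **reciprocity** for `n = 1 mod 8` -/
theorem recip_one {n : ℕ} (hs : Squarefree n) (h8 : n % 8 = 1) {v w : ℤ × ℤ × ℤ}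
    (hv : v.1 ^ 2 + v.2.1 ^ 2 + v.2.2 ^ 2 = n) (hw : w.1 ^ 2 + w.2.1 ^ 2 + w.2.2 ^ 2 = n) :
    ∏ p ∈ n.primeFactors, chi p v w = kap v * kap w := by
  have iso : ∀ (x : ℤ × ℤ × ℤ) (p : ℕ), x.1 ^ 2 + x.2.1 ^ 2 + x.2.2 ^ 2 = (n : ℤ) →
      p ∈ n.primeFactors → Iso p x := by
    intro x p hx hp
    have : Fact p.Prime := ⟨Nat.prime_of_mem_primeFactors hp⟩
    exact iso_of hs (Nat.dvd_of_mem_primeFactors hp) hx
  have stepw : ∀ x y : ℤ × ℤ × ℤ, x.1 ^ 2 + x.2.1 ^ 2 + x.2.2 ^ 2 = (n : ℤ) →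
      y.1 ^ 2 + y.2.1 ^ 2 + y.2.2 ^ 2 = (n : ℤ) →
      ∏ p ∈ n.primeFactors, chi p x (cyc y) = ∏ p ∈ n.primeFactors, chi p x y := by
    intro x y hx hy
    apply Finset.prod_congr rfl
    intro p hp
    have : Fact p.Prime := ⟨Nat.prime_of_mem_primeFactors hp⟩
    exact chi_cyc_right (pf_ne_two (by omega) hp) (iso x p hx hp) (iso y p hy hp)
  have stepv : ∀ x y : ℤ × ℤ × ℤ, x.1 ^ 2 + x.2.1 ^ 2 + x.2.2 ^ 2 = (n : ℤ) →
      y.1 ^ 2 + y.2.1 ^ 2 + y.2.2 ^ 2 = (n : ℤ) →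
      ∏ p ∈ n.primeFactors, chi p (cyc x) y = ∏ p ∈ n.primeFactors, chi p x y := by
    intro x y hx hy
    apply Finset.prod_congr rfl
    intro p hp
    have : Fact p.Prime := ⟨Nat.prime_of_mem_primeFactors hp⟩
    exact chi_cyc (pf_ne_two (by omega) hp) (iso x p hx hp) (iso y p hy hp)
  have nc : ∀ x : ℤ × ℤ × ℤ, x.1 ^ 2 + x.2.1 ^ 2 + x.2.2 ^ 2 = (n : ℤ) →
      (cyc x).1 ^ 2 + (cyc x).2.1 ^ 2 + (cyc x).2.2 ^ 2 = (n : ℤ) := by
    intro x hx; rw [norm_cyc, hx]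
  have A : ∀ x y : ℤ × ℤ × ℤ, x.1 ^ 2 + x.2.1 ^ 2 + x.2.2 ^ 2 = (n : ℤ) →
      y.1 ^ 2 + y.2.1 ^ 2 + y.2.2 ^ 2 = (n : ℤ) → Sh1 x →
      ∏ p ∈ n.primeFactors, chi p x y = kap x * kap y := by
    intro x y hx hy h1
    rcases sh_cases y (by rw [hy]; omega) with h2 | h2 | h2
    · exact recip_sh hs h8 hx hy h1 h2
    · have := recip_sh hs h8 hx (nc _ hy) h1 h2
      rw [stepw x y hx hy, kap_cyc] at this
      exact this
    · have := recip_sh hs h8 hx (nc _ (nc _ hy)) h1 h2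
      rw [stepw x _ hx (nc _ hy), stepw x y hx hy, kap_cyc, kap_cyc] at this
      exact this
  rcases sh_cases v (by rw [hv]; omega) with h1 | h1 | h1
  · exact A v w hv hw h1
  · have := A (cyc v) w (nc _ hv) hw h1
    rw [stepv v w hv hw, kap_cyc] at this
    exact this
  · have := A (cyc (cyc v)) w (nc _ (nc _ hv)) hw h1
    rw [stepv _ w (nc _ hv) hw, stepv v w hv hw, kap_cyc, kap_cyc] at this
    exact this

/-- the core of a vector of norm `d S^2` -/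
theorem core {d : ℕ} (hs : Squarefree d) (h8 : d % 8 = 1) {v : ℤ × ℤ × ℤ} (S : ℤ)
    (hS : S % 2 = 1) (hS0 : 0 < S) (hv : v.1 ^ 2 + v.2.1 ^ 2 + v.2.2 ^ 2 = d * S ^ 2)
    (hp : ∀ t : ℤ, t ∣ S → t ∣ v.1 → t ∣ v.2.1 → t ∣ v.2.2 → IsUnit t) :
    ∃ v0 : ℤ × ℤ × ℤ, v0.1 ^ 2 + v0.2.1 ^ 2 + v0.2.2 ^ 2 = d ∧ kap v = sg4 S * kap v0 ∧
      ∀ p : ℕ, p.Prime → p ∣ d → Iso p v ∧ Iso p v0 ∧ chi p v0 v = 1 := by
  obtain ⟨b, μ0, hb, hre, hn, hv'⟩ := decomp (quat v) S d hS hS0 rfl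
    (by rw [← hv]; unfold nrm; show (0 : ℤ) ^ 2 + v.1 ^ 2 + v.2.1 ^ 2 + v.2.2 ^ 2 = _; ring) hp
  have hn0 : μ0.imI ^ 2 + μ0.imJ ^ 2 + μ0.imK ^ 2 = (d : ℤ) := by
    rw [← hn]; unfold nrm; rw [hre]; ring
  have hq : quat (vec μ0) = μ0 := by
    apply Quaternion.ext
    · exact hre.symm
    · rfl
    · rfl
    · rfl
  refine ⟨vec μ0, hn0, ?_, ?_⟩
  · have h1 : v = rot (star b).re (star b).imI (star b).imJ (star b).imK (vec μ0) := by
      have e1 := congrArg (fun q : Hq => q.imI) hv'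
      have e2 := congrArg (fun q : Hq => q.imJ) hv'
      have e3 := congrArg (fun q : Hq => q.imK) hv'
      unfold vec rot
      ext
      · show (quat v).imI = _
        rw [e1]
        simp only [Quaternion.re_mul, Quaternion.imI_mul, Quaternion.imJ_mul, Quaternion.imK_mul,
          Quaternion.re_star, Quaternion.imI_star, Quaternion.imJ_star, Quaternion.imK_star, hre]
        ring
      · show (quat v).imJ = _
        rw [e2]
        simp only [Quaternion.re_mul, Quaternion.imI_mul, Quaternion.imJ_mul, Quaternion.imK_mul,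
          Quaternion.re_star, Quaternion.imI_star, Quaternion.imJ_star, Quaternion.imK_star, hre]
        ring
      · show (quat v).imK = _
        rw [e3]
        simp only [Quaternion.re_mul, Quaternion.imI_mul, Quaternion.imJ_mul, Quaternion.imK_mul,
          Quaternion.re_star, Quaternion.imI_star, Quaternion.imJ_star, Quaternion.imK_star, hre]
        ring
    have hnb : (star b).re ^ 2 + (star b).imI ^ 2 + (star b).imJ ^ 2 + (star b).imK ^ 2 = S := by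
      have := nrm_star b
      unfold nrm at this hb
      rw [this, hb]
    conv_lhs => rw [h1]
    rw [kap_rot, hnb]
    · rfl
    · rw [hnb]; exact hS
    · show (μ0.imI ^ 2 + μ0.imJ ^ 2 + μ0.imK ^ 2) % 8 = 1
      rw [hn0]; omega
  · intro p hpp hpd
    have : Fact p.Prime := ⟨hpp⟩
    have hP : Prime (p : ℤ) := Nat.prime_iff_prime_int.1 hpp
    have hp2 : p ≠ 2 := by
      rintro rfl
      have := Nat.mod_eq_zero_of_dvd hpd
      omega
    have i0 : Iso p (vec μ0) := iso_of hs hpd hn0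
    have iv : Iso p v := by
      refine ⟨?_, ?_⟩
      · have e : dot v v = d * S ^ 2 := by rw [← hv]; unfold dot; ring
        rw [e]
        exact dvd_mul_of_dvd_left (by exact_mod_cast hpd) _
      · rintro ⟨g1, g2, g3⟩
        have hpS : (p : ℤ) ∣ S := by
          by_contra hpS
          have h1 : (p : ℤ) * p ∣ (d : ℤ) * S ^ 2 := by
            rw [← hv]
            obtain ⟨a, ha⟩ := g1
            obtain ⟨b, hb⟩ := g2
            obtain ⟨c, hc⟩ := g3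
            rw [ha, hb, hc]
            exact ⟨a ^ 2 + b ^ 2 + c ^ 2, by ring⟩
          obtain ⟨d1, hd1⟩ := hpd
          have h2 : (p : ℤ) ∣ (d1 : ℤ) * S ^ 2 := by
            rw [hd1] at h1
            push_cast at h1
            rw [mul_assoc] at h1
            exact (mul_dvd_mul_iff_left hP.ne_zero).1 h1
          rcases hP.dvd_or_dvd h2 with h3 | h3
          · have h4 : p * p ∣ d := by
              rw [hd1]
              exact mul_dvd_mul_left p (by exact_mod_cast h3)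
            exact hpp.one_lt.ne' (Nat.isUnit_iff.1 (hs p h4))
          · exact hpS (hP.dvd_of_dvd_pow h3)
        have := hp p hpS g1 g2 g3
        exact hP.not_isUnit this
    refine ⟨iv, i0, ?_⟩
    exact chi_conj (a := star b) (μ := μ0) (μ' := quat v) hp2 hre i0 iv (by rw [star_star]; exact hv')

/-- **Lemma R** -/
theorem lemR {d : ℕ} (hs : Squarefree d) (h8 : d % 8 = 1) {v w : ℤ × ℤ × ℤ} (S R : ℤ)
    (hS : S % 2 = 1) (hS0 : 0 < S) (hv : v.1 ^ 2 + v.2.1 ^ 2 + v.2.2 ^ 2 = d * S ^ 2)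
    (hvp : ∀ t : ℤ, t ∣ S → t ∣ v.1 → t ∣ v.2.1 → t ∣ v.2.2 → IsUnit t)
    (hR : R % 2 = 1) (hR0 : 0 < R) (hw : w.1 ^ 2 + w.2.1 ^ 2 + w.2.2 ^ 2 = d * R ^ 2)
    (hwp : ∀ t : ℤ, t ∣ R → t ∣ w.1 → t ∣ w.2.1 → t ∣ w.2.2 → IsUnit t) :
    ∏ p ∈ d.primeFactors, chi p v w = sg4 (S * R) * kap v * kap w := by
  obtain ⟨v0, g1, g2, g3⟩ := core hs h8 S hS hS0 hv hvp
  obtain ⟨w0, k1, k2, k3⟩ := core hs h8 R hR hR0 hw hwp
  have h1 := recip_one hs h8 g1 k1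
  have h2 : ∏ p ∈ d.primeFactors, chi p v w = ∏ p ∈ d.primeFactors, chi p v0 w0 := by
    apply Finset.prod_congr rfl
    intro p hp
    have hpp := Nat.prime_of_mem_primeFactors hp
    have hpn := Nat.dvd_of_mem_primeFactors hp
    have : Fact p.Prime := ⟨hpp⟩
    have hp2 := pf_ne_two (by omega) hp
    obtain ⟨iv, iv0, c1⟩ := g3 p hpp hpn
    obtain ⟨iw, iw0, c2⟩ := k3 p hpp hpn
    rw [← chi_trans hp2 iv iv0 iw, chi_comm iv iv0, c1, one_mul, ← chi_trans hp2 iv0 iw0 iw, c2,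
      mul_one]
  rw [h2, h1, g2, k2, sg4_mul _ _ hS hR]
  have e1 := sg4_sq S
  have e2 := sg4_sq R
  calc kap v0 * kap w0 = (sg4 S * sg4 S) * (sg4 R * sg4 R) * (kap v0 * kap w0) := by
        rw [e1, e2]; ring
    _ = _ := by ring

end Pool.Agent.GEN
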