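import Mathlib
import Pool.Agent.Lib_helper72.GEN.K
set_option autoImplicit false
namespace Pool.Agent.GEN
open Pool.Agent.TM32

/-- Chinese remainder: a residue class with given symbols -/
theorem exists_res1 (c4 : ℕ) (hc4 : c4 = 1 ∨ c4 = 3) (S : Finset ℕ) (hS : ∀ p ∈ S, p.Prime ∧ p ≠ 2) (e : ℕ → ℤ)
    (he : ∀ p ∈ S, e p = 1 ∨ e p = -1) :
    ∃ a : ℕ, a % 4 = c4 ∧ ∀ p ∈ S, jacobiSym a p = e p := by
  induction S using Finset.induction_on with
  | empty => exact ⟨c4, by omega, by simp⟩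
  | insert q S hq ih =>
    obtain ⟨a, ha4, ha⟩ := ih (fun p hp => hS p (Finset.mem_insert_of_mem hp))
      (fun p hp => he p (Finset.mem_insert_of_mem hp))
    obtain ⟨hqp, hq2⟩ := hS q (Finset.mem_insert_self _ _)
    have : Fact q.Prime := ⟨hqp⟩
    obtain ⟨b, hb⟩ : ∃ b : ℕ, jacobiSym b q = e q := by
      rcases he q (Finset.mem_insert_self _ _) with h | h
      · exact ⟨1, by rw [h]; simp⟩
      · rw [h]; exact exists_nonres hq2
    have hco : Nat.Coprime (4 * ∏ p ∈ S, p) q := by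
      apply Nat.Coprime.mul_left
      · have : Nat.Coprime 2 q := (Nat.coprime_primes Nat.prime_two hqp).2 (Ne.symm hq2)
        exact Nat.Coprime.pow_left 2 this
      · apply Nat.Coprime.prod_left
        intro p hp
        exact (Nat.coprime_primes (hS p (Finset.mem_insert_of_mem hp)).1 hqp).2 (by
          rintro rfl; exact hq hp)
    obtain ⟨c, hc1, hc2⟩ := Nat.chineseRemainder hco a b
    refine ⟨c, ?_, ?_⟩
    · have h1 : c ≡ a [MOD 4] := hc1.of_mul_right _
      rw [← ha4]; exact h1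
    · intro p hp
      rcases Finset.mem_insert.1 hp with rfl | hp
      · rw [← hb]
        apply jacobiSym.mod_left'
        exact_mod_cast hc2
      · rw [← ha p hp]
        apply jacobiSym.mod_left'
        have h1 : c ≡ a [MOD ∏ p ∈ S, p] := hc1.of_mul_left _
        have h2 : c ≡ a [MOD p] := h1.of_dvd (Finset.dvd_prod_of_mem _ hp)
        exact_mod_cast h2

/-- Dirichlet: a prime in a given class modulo 4 with given symbols -/
theorem exists_prime1 (c4 : ℕ) (hc4 : c4 = 1 ∨ c4 = 3) (n : ℕ) (hn : n % 2 = 1) (e : ℕ → ℤ)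
    (he : ∀ p ∈ n.primeFactors, e p = 1 ∨ e p = -1) :
    ∃ l : ℕ, l.Prime ∧ l % 4 = c4 ∧ n < l ∧ ∀ p ∈ n.primeFactors, jacobiSym l p = e p := by
  have hS : ∀ p ∈ n.primeFactors, p.Prime ∧ p ≠ 2 := by
    intro p hp
    refine ⟨Nat.prime_of_mem_primeFactors hp, ?_⟩
    rintro rfl
    have := Nat.mod_eq_zero_of_dvd (Nat.dvd_of_mem_primeFactors hp)
    omega
  obtain ⟨a, ha4, ha⟩ := exists_res1 c4 hc4 n.primeFactors hS e he
  have hco : Nat.Coprime a (4 * n) := by
    apply Nat.Coprime.mul_right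
    · have h2 : ¬ 2 ∣ a := by omega
      have : Nat.Coprime a 2 := ((Nat.Prime.coprime_iff_not_dvd Nat.prime_two).2 h2).symm
      exact Nat.Coprime.pow_right 2 this
    · rw [Nat.coprime_iff_gcd_eq_one]
      by_contra hne
      obtain ⟨p, hp, hpd⟩ := Nat.exists_prime_and_dvd hne
      have h1 : p ∣ a := hpd.trans (Nat.gcd_dvd_left _ _)
      have h2 : p ∣ n := hpd.trans (Nat.gcd_dvd_right _ _)
      have hm : p ∈ n.primeFactors := Nat.mem_primeFactors.2 ⟨hp, h2, by omega⟩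
      have h3 := ha p hm
      have : NeZero p := ⟨hp.ne_zero⟩
      have h4 : jacobiSym a p = 0 := by
        rw [jacobiSym.eq_zero_iff_not_coprime]
        have : ((a : ℤ).gcd p) = p := by
          rw [Int.gcd_natCast_natCast]
          exact Nat.gcd_eq_right h1
        rw [this]; exact hp.one_lt.ne'
      rw [h4] at h3
      rcases he p hm with h5 | h5 <;> rw [h5] at h3 <;> norm_num at h3
  obtain ⟨l, hl1, hl2, hl3⟩ := Nat.forall_exists_prime_gt_and_modEq n (q := 4 * n) (by omega) hco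
  refine ⟨l, hl2, ?_, hl1, ?_⟩
  · have h1 : l ≡ a [MOD 4] := hl3.of_mul_right _
    rw [← ha4]; exact h1
  · intro p hp
    rw [← ha p hp]
    apply jacobiSym.mod_left'
    have h1 : l ≡ a [MOD n] := hl3.of_mul_left _
    have h2 : l ≡ a [MOD p] := h1.of_dvd (Nat.dvd_of_mem_primeFactors hp)
    exact_mod_cast h2


/-- the square root of `-n` modulo the prime -/
theorem exists_root1 {n l : ℕ} (hs : Squarefree n) (hn : n % 4 = 1) (hl : l.Prime) (hl2 : l % 2 = 1)
    (h : ∏ p ∈ n.primeFactors, jacobiSym l p = sg4 l) : ∃ r : ℤ, (l : ℤ) ∣ r ^ 2 + n := by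
  have : Fact l.Prime := ⟨hl⟩
  rw [prod_sym _ _ hs] at h
  have hodd : Odd l := Nat.odd_iff.2 (by omega)
  have h1 : jacobiSym (-(n : ℤ)) l = 1 := by
    rw [jacobiSym.neg _ hodd, jacobiSym.quadratic_reciprocity_one_mod_four hn hodd, h]
    unfold sg4
    rcases (by omega : l % 4 = 1 ∨ l % 4 = 3) with h5 | h5
    · rw [ZMod.χ₄_nat_one_mod_four h5, if_pos (by omega)]; rfl
    · rw [ZMod.χ₄_nat_three_mod_four h5, if_neg (by omega)]; rfl
  have h2 := ZMod.isSquare_of_jacobiSym_eq_one h1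
  obtain ⟨s, hs'⟩ := h2
  obtain ⟨r, rfl⟩ := ZMod.intCast_surjective s
  refine ⟨r, ?_⟩
  rw [← ZMod.intCast_zmod_eq_zero_iff_dvd]
  push_cast at hs' ⊢
  linear_combination -hs'

/-- vectors of norm `n` with odd first coordinate -/
def OmQ (n : ℕ) (v : ℤ × ℤ × ℤ) : Prop := v.1 ^ 2 + v.2.1 ^ 2 + v.2.2 ^ 2 = n ∧ v.1 % 2 = 1

theorem OmQ.om {n : ℕ} {v : ℤ × ℤ × ℤ} (h : OmQ n v) : IsOm n (quat v) := ⟨rfl, h.1, h.2⟩

theorem flvQ {n : ℕ} {v : ℤ × ℤ × ℤ} (h : OmQ n v) (i : Fin 4) : OmQ n (flv i v) := by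
  have := fl_om i h.om
  exact ⟨this.sum, this.odd⟩

theorem rel_existsQ {n : ℕ} [NeZero n] {v : ℤ × ℤ × ℤ}
    (hv : OmQ n v) {l : ℕ} (hl : l.Prime) (hl2 : l % 2 = 1) (hln : ¬ l ∣ n) {r : ℤ}
    (hr : (l : ℤ) ∣ r ^ 2 + n) : ∃ w, OmQ n w ∧ Rel l r v w := by
  have h := hv.om
  set μ := quat v with hμ
  have hlP : Prime (l : ℤ) := Nat.prime_iff_prime_int.1 hl
  have hl0 : (l : ℤ) ≠ 0 := hlP.ne_zero
  set I : Ideal (Od n) := Ideal.span {(((l : ℤ)) : Od n), Zsqrtd.sqrtd - (r : Od n)} with hI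
  set J := I.map (phi h) with hJ
  have hJs : J = Ideal.span {((l : ℤ) : Hq), μ - (r : Hq)} := by
    rw [hJ, hI, Ideal.map_span, Set.image_pair, map_sub, phi_int, phi_int, phi_sqrtd]
  have m1 : ((l : ℤ) : Hq) ∈ J := by rw [hJs]; exact Ideal.subset_span (by simp)
  have m2 : μ - (r : Hq) ∈ J := by rw [hJs]; exact Ideal.subset_span (by simp)
  obtain ⟨b, hbJ, hb1, hb⟩ := principal_odd J ((l : ℤ) : Hq) (by
    rw [nrm_int, pow_two]
    exact odd_mul' _ _ (by omega) (by omega)) m1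
  obtain ⟨x, y, hxy⟩ : ∃ x y : Hq, x * ((l : ℤ) : Hq) + y * (μ - (r : Hq)) = b := by
    rw [hJs] at hbJ
    exact Submodule.mem_span_pair.1 hbJ
  have hnr : nrm (μ - (r : Hq)) = r ^ 2 + n := by
    unfold nrm
    rw [Quaternion.re_sub, Quaternion.imI_sub, Quaternion.imJ_sub, Quaternion.imK_sub, re_int,
      imI_int, imJ_int, imK_int, h.re0]
    linear_combination h.sum
  obtain ⟨k, hk⟩ := hr
  have hlb : (l : ℤ) ∣ nrm b := by
    have e1 : ((nrm b : ℤ) : Hq) = ((l : ℤ) : Hq) * (x * star b + y * ((μ - (r : Hq)) * star x) +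
        y * (((k : ℤ) : Hq) * star y)) := by
      calc ((nrm b : ℤ) : Hq) = (x * ((l : ℤ) : Hq) + y * (μ - (r : Hq))) * star b := by
            rw [hxy, self_mul_star']
        _ = x * ((l : ℤ) : Hq) * star b + y * ((μ - (r : Hq)) * star b) := by
            rw [add_mul, mul_assoc y]
        _ = x * ((l : ℤ) : Hq) * star b + y * ((μ - (r : Hq)) *
              star (x * ((l : ℤ) : Hq) + y * (μ - (r : Hq)))) := by rw [hxy]
        _ = x * ((l : ℤ) : Hq) * star b + y * ((μ - (r : Hq)) * (((l : ℤ) : Hq) * star x) +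
              (μ - (r : Hq)) * star (μ - (r : Hq)) * star y) := by
            rw [star_add, star_mul, star_mul]
            have e3 : star ((l : ℤ) : Hq) = ((l : ℤ) : Hq) := by simp
            rw [e3, mul_add, mul_assoc (μ - (r : Hq)) (star (μ - (r : Hq)))]
        _ = _ := by
            rw [self_mul_star', hnr, hk, mul_add, mul_add, mul_add, Int.cast_mul,
              int_out (l : ℤ) (μ - (r : Hq)) (star x), int_out (l : ℤ) y, mul_assoc ((l : ℤ) : Hq),
              int_out (l : ℤ) y, mul_assoc x, int_out (l : ℤ) x, add_assoc]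
    have e2 := congrArg (fun q : Hq => q.re) e1
    simp only [int_mul_re, re_int] at e2
    exact ⟨_, e2⟩
  obtain ⟨t, ht⟩ := hlb
  obtain ⟨q1, hq1⟩ := hb _ m1
  obtain ⟨q2, hq2⟩ := hb _ m2
  have hn1 : (l : ℤ) ^ 2 = nrm q1 * nrm b := by rw [← nrm_mul, ← hq1, nrm_int]
  have hn2 : (l : ℤ) = nrm q1 * t := by
    have : (l : ℤ) * l = l * (nrm q1 * t) := by rw [ht] at hn1; linear_combination hn1
    exact mul_left_cancel₀ hl0 this
  have hlpos : (0 : ℤ) < l := by exact_mod_cast hl.pos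
  have hq0 : 0 < nrm q1 := by
    rcases (nrm_nonneg q1).lt_or_eq with h6 | h6
    · exact h6
    · rw [← h6, zero_mul] at hn2; omega
  have ht0 : 0 < t := by
    by_contra h6
    have : nrm q1 * t ≤ 0 := mul_nonpos_of_nonneg_of_nonpos hq0.le (by omega)
    omega
  have ht1 : t = 1 := by
    have h6 : IsUnit (nrm q1) ∨ IsUnit t := hlP.irreducible.isUnit_or_isUnit hn2
    rcases h6 with h6 | h6
    · exfalso
      have h7 : nrm q1 = 1 := by
        rcases Int.isUnit_iff.1 h6 with h7 | h7 <;> omega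
      have h8' : b = ((l : ℤ) : Hq) * star q1 := by
        rw [int_comm]
        apply mul_left_cancel' _ _ q1 (by omega)
        rw [← mul_assoc, ← hq1, self_mul_star', h7]
        simp
      have h9 : μ - (r : Hq) = ((l : ℤ) : Hq) * (q2 * star q1) := by
        rw [hq2, h8', int_out]
      have d1 := congrArg (fun q : Hq => q.imI) h9
      have d2 := congrArg (fun q : Hq => q.imJ) h9
      have d3 := congrArg (fun q : Hq => q.imK) h9
      simp only [int_mul_imI, int_mul_imJ, int_mul_imK, Quaternion.imI_sub, Quaternion.imJ_sub,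
        Quaternion.imK_sub, imI_int, imJ_int, imK_int, sub_zero] at d1 d2 d3
      apply hln
      have : (l : ℤ) ∣ (n : ℤ) := by
        rw [← h.sum, d1, d2, d3]
        exact ⟨l * ((q2 * star q1).imI ^ 2 + (q2 * star q1).imJ ^ 2 + (q2 * star q1).imK ^ 2),
          by ring⟩
      exact_mod_cast this
    · rcases Int.isUnit_iff.1 h6 with h7 | h7 <;> omega
  have hnb : nrm b = l := by rw [ht, ht1, mul_one]
  have h1 : b * μ ∈ J := by
    have := map_mul_mem' h I Zsqrtd.sqrtd b hbJ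
    rw [phi_sqrtd] at this
    exact this
  obtain ⟨μ1, hμ1⟩ := hb _ h1
  have hI1 := tw_target h hb1 hμ1
  refine ⟨vec μ1, ⟨hI1.sum, hI1.odd⟩, b, q2, hnb, ?_, hq2⟩
  rw [quat_vec hI1]
  exact hμ1

theorem rel_injQ {n : ℕ} [NeZero n] (hs : Squarefree n) (h8 : n % 2 = 1) {v v' w : ℤ × ℤ × ℤ}
    (hv : OmQ n v) (hv' : OmQ n v') (hw : OmQ n w) {l : ℕ} (hl : l.Prime) (hl2 : l % 2 = 1)
    {r : ℤ} (h : Rel l r v w) (h' : Rel l r v' w) : ∃ i : Fin 4, v = flv i v' := by
  obtain ⟨c, q, h1, h2, h3⟩ := h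
  obtain ⟨c', q', h1', h2', h3'⟩ := h'
  have hw0 := hw.om
  have hlP : Prime (l : ℤ) := Nat.prime_iff_prime_int.1 hl
  have hl0 : (l : ℤ) ≠ 0 := hlP.ne_zero
  have key : ∀ (x c q : Hq), nrm c = l → c * x = quat w * c → x - (r : Hq) = q * c →
      IsOm n x → ∃ r1 : ℤ, (l : ℤ) ∣ r + r1 ∧
        ∀ z : Od n, z ∈ Iq hw0 (star c) ↔ (l : ℤ) ∣ z.re + r1 * z.im := by
    intro x c q h1 h2 h3 hx
    have hc : nrm (star c) = l := by rw [nrm_star, h1]
    have ht : star c * quat w = x * star c :=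
      (twist_star c x (quat w) (by rw [h1]; exact hl0) h2).symm
    obtain ⟨r1, hr1, hz⟩ := Iq_prim hs hw0 (star c) x (by rw [hc]; omega) ht (prim_of_prime hl hc)
    rw [hc] at hz
    refine ⟨r1, ?_, hz⟩
    have hm : (Zsqrtd.sqrtd : Od n) + (r : Od n) ∈ Iq hw0 (star c) := by
      rw [mem_Iq]
      refine ⟨-star q, ?_⟩
      rw [map_add, phi_int, phi_sqrtd]
      have e1 : -x - (r : Hq) = star c * star q := by
        have := congrArg star h3
        rw [star_mul, star_sub] at this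
        rw [← this]
        have e2 : star x = -x := by
          apply Quaternion.ext
          · rw [Quaternion.re_star, Quaternion.re_neg, hx.re0]; rfl
          · rw [Quaternion.imI_star, Quaternion.imI_neg]
          · rw [Quaternion.imJ_star, Quaternion.imJ_neg]
          · rw [Quaternion.imK_star, Quaternion.imK_neg]
        have e3 : star ((r : ℤ) : Hq) = (r : Hq) := by simp
        rw [e2, e3]
      have e4 : (-quat w - (r : Hq)) * c = ((l : ℤ) : Hq) * star q := by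
        have e5 : c * (-x - (r : Hq)) = ((l : ℤ) : Hq) * star q := by
          rw [e1, ← mul_assoc, self_mul_star', h1]
        rw [← e5, mul_sub, mul_neg, h2, sub_mul, neg_mul, int_comm]
      apply mul_right_cancel' _ _ c (by rw [h1]; exact hl0)
      have e6 : (quat w + (r : Hq)) * c = -((-quat w - (r : Hq)) * c) := by
        rw [← neg_mul]; congr 1; abel
      rw [e6, e4, neg_mul, neg_mul, mul_assoc, star_mul_self', h1, int_comm]
    have := (hz _).1 hm
    simpa using this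
  obtain ⟨r1, hr1, hz1⟩ := key _ c q h1 h2 h3 hv.om
  obtain ⟨r2, hr2, hz2⟩ := key _ c' q' h1' h2' h3' hv'.om
  have hI : Iq hw0 (star c) = Iq hw0 (star c') := by
    ext z
    rw [hz1, hz2]
    have h5 : (l : ℤ) ∣ (z.re + r1 * z.im) - (z.re + r2 * z.im) :=
      dvd_eq (dvd_mul_of_dvd_left (dvd_sub hr1 hr2) z.im) (by ring)
    constructor
    · intro h6; exact (dvd_sub_right h6).1 h5
    · intro h6
      exact dvd_eq (dvd_add h5 h6) (by ring)
  have hc : nrm (star c) = l := by rw [nrm_star, h1]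
  have hc' : nrm (star c') = l := by rw [nrm_star, h1']
  have ht : star c * quat w = quat v * star c :=
    (twist_star c (quat v) (quat w) (by rw [h1]; exact hl0) h2).symm
  have ht' : star c' * quat w = quat v' * star c' :=
    (twist_star c' (quat v') (quat w) (by rw [h1']; exact hl0) h2').symm
  obtain ⟨u, hu, hu'⟩ := unit_of_class hs hw0 (star c) (star c') (by rw [hc]; omega)
    (by rw [hc']; omega) ht ht' 1 1 one_ne_zero one_ne_zero (by rw [hI])
  obtain ⟨i, hi⟩ := unit_fl _ _ u hu hu'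
  exact ⟨i, quat_inj (by rw [quat_flv]; exact hi)⟩

theorem rel_chiQ {n : ℕ} (hs : Squarefree n) (h8 : n % 2 = 1) {v w : ℤ × ℤ × ℤ}
    (hv : OmQ n v) (hw : OmQ n w) {l : ℕ} (hl : l.Prime) (hln : ¬ l ∣ n) {r : ℤ}
    (h : Rel l r v w) {p : ℕ} (hp : p.Prime) (hpn : p ∣ n) : chi p v w = jacobiSym l p := by
  obtain ⟨c, q, h1, h2, h3⟩ := h
  have : Fact p.Prime := ⟨hp⟩
  have hp2 : p ≠ 2 := by
    rintro rfl
    have := Nat.mod_eq_zero_of_dvd hpn
    omega
  have h4 := chi_tw hp2 hs hpn hv.om hw.om h2 (by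
    rw [h1]
    intro h5
    have h6 : p ∣ l := by exact_mod_cast h5
    have h7 : p = l := (Nat.prime_dvd_prime_iff_eq hp hl).1 h6
    exact hln (h7 ▸ hpn))
  rw [h1] at h4
  exact h4

theorem flv_chiQ {n : ℕ} (hs : Squarefree n) (h8 : n % 2 = 1) {v : ℤ × ℤ × ℤ}
    (hv : OmQ n v) (i : Fin 4) {p : ℕ} (hp : p.Prime) (hpn : p ∣ n) : chi p (flv i v) v = 1 := by
  have : Fact p.Prime := ⟨hp⟩
  have hp2 : p ≠ 2 := by
    rintro rfl
    have := Nat.mod_eq_zero_of_dvd hpn
    omega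
  have ht : U i * quat (flv i v) = quat v * U i := by
    rw [quat_flv, U_mul, fl_fl]
  have h4 := chi_tw hp2 hs hpn (flvQ hv i).om hv.om ht (by
    rw [nrm_U]
    exact (Nat.prime_iff_prime_int.1 hp).not_dvd_one)
  rw [nrm_U, jacobiSym.one_left] at h4
  exact h4

end Pool.Agent.GEN
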