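import Mathlib
import Pool.Agent.Lib_helper72.GEN.L
set_option autoImplicit false
namespace Pool.Agent.GEN
open Pool.Agent.TM32

/-- the part with prescribed genus symbols -/
def GQ (n : ℕ) (v0 : ℤ × ℤ × ℤ) (e : ℕ → ℤ) : Set (ℤ × ℤ × ℤ) :=
  {v | OmQ n v ∧ ∀ p ∈ n.primeFactors, chi p v v0 = e p}

theorem omQ_finite (n : ℕ) : Set.Finite {v : ℤ × ℤ × ℤ | OmQ n v} :=
  (finite_three n).subset (fun _ hv => hv.1)

theorem GQ_finite (n : ℕ) (v0 : ℤ × ℤ × ℤ) (e : ℕ → ℤ) : (GQ n v0 e).Finite :=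
  (omQ_finite n).subset (fun _ hv => hv.1)

theorem norm_iso {n p : ℕ} (hs : Squarefree n) {v : ℤ × ℤ × ℤ}
    (hv : v.1 ^ 2 + v.2.1 ^ 2 + v.2.2 ^ 2 = n) (hp : p ∈ n.primeFactors) : Iso p v := by
  have : Fact p.Prime := ⟨Nat.prime_of_mem_primeFactors hp⟩
  exact iso_of hs (Nat.dvd_of_mem_primeFactors hp) hv

theorem flQ_free {n : ℕ} (hs : Squarefree n) (h1 : 1 < n) {w : ℤ × ℤ × ℤ} (hw : OmQ n w)
    (i j : Fin 4) (h : flv i w = flv j w) : i = j := by
  apply fl_free hs h1 hw.om i j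
  rw [← quat_flv, ← quat_flv, h]

theorem gen_leQ {n : ℕ} [NeZero n] (hs : Squarefree n) (h8 : n % 8 = 1) (h1 : 1 < n) {v0 : ℤ × ℤ × ℤ}
    (hv0 : v0.1 ^ 2 + v0.2.1 ^ 2 + v0.2.2 ^ 2 = n) (e e' : ℕ → ℤ) (he : ∀ p ∈ n.primeFactors, e p = 1 ∨ e p = -1) :
    (GQ n v0 e').ncard ≤ (GQ n v0 (fun p => e p * e' p)).ncard := by
  classical
  obtain ⟨l, hl, hl2, hln, hle, hsg⟩ : ∃ l : ℕ, l.Prime ∧ l % 2 = 1 ∧ n < l ∧
      (∀ p ∈ n.primeFactors, jacobiSym l p = e p) ∧ ∏ p ∈ n.primeFactors, e p = sg4 l := by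
    have hpm : ∀ S : Finset ℕ, (∀ p ∈ S, e p = 1 ∨ e p = -1) →
        (∏ p ∈ S, e p = 1 ∨ ∏ p ∈ S, e p = -1) := by
      intro S
      induction S using Finset.induction_on with
      | empty => intro _; left; simp
      | insert a S ha ih =>
        intro hS
        rw [Finset.prod_insert ha]
        rcases hS a (Finset.mem_insert_self _ _) with h | h <;>
        rcases ih (fun p hp => hS p (Finset.mem_insert_of_mem hp)) with h' | h' <;>
        rw [h, h'] <;> norm_num
    rcases hpm _ he with h | h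
    · obtain ⟨l, hl, hl4, hln, hle⟩ := exists_prime1 1 (Or.inl rfl) n (by omega) e he
      refine ⟨l, hl, by omega, hln, hle, ?_⟩
      rw [h]; unfold sg4; rw [if_pos (by omega)]
    · obtain ⟨l, hl, hl4, hln, hle⟩ := exists_prime1 3 (Or.inr rfl) n (by omega) e he
      refine ⟨l, hl, by omega, hln, hle, ?_⟩
      rw [h]; unfold sg4; rw [if_neg (by omega)]
  have hln' : ¬ l ∣ n := fun h => by
    have := Nat.le_of_dvd (by omega) h
    omega
  obtain ⟨r, hr⟩ := exists_root1 hs (by omega) hl hl2 (by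
    rw [← hsg]; exact Finset.prod_congr rfl hle)
  rw [Set.ncard_eq_toFinset_card _ (GQ_finite n v0 e'),
    Set.ncard_eq_toFinset_card _ (GQ_finite n v0 _)]
  set S := (GQ_finite n v0 e').toFinset
  set T := (GQ_finite n v0 (fun p => e p * e' p)).toFinset
  have key := Finset.card_mul_le_card_mul (Rel l r) (s := S) (t := T) (m := 4) (n := 4) ?_ ?_
  · omega
  · intro v hv
    rw [Set.Finite.mem_toFinset] at hv
    obtain ⟨hv1, hv2⟩ := hv
    obtain ⟨w, hw, hrel⟩ := rel_existsQ hv1 hl (by omega) hln' hr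
    have hcard : (Finset.univ.image (fun i : Fin 4 => flv i w)).card = 4 := by
      rw [Finset.card_image_of_injective, Finset.card_univ, Fintype.card_fin]
      intro i j hij
      exact flQ_free hs h1 hw i j hij
    rw [← hcard]
    apply Finset.card_le_card
    intro x hx
    obtain ⟨i, -, rfl⟩ := Finset.mem_image.1 hx
    rw [Finset.mem_bipartiteAbove, Set.Finite.mem_toFinset]
    refine ⟨⟨flvQ hw i, ?_⟩, rel_fl hrel i⟩
    intro p hp
    have : Fact p.Prime := ⟨Nat.prime_of_mem_primeFactors hp⟩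
    have hpn := Nat.dvd_of_mem_primeFactors hp
    have hp2 := pf_ne_two (by omega) hp
    have c1 := chi_trans hp2 (norm_iso hs (flvQ hw i).1 hp) (norm_iso hs hw.1 hp) (norm_iso hs hv0 hp)
    have c2 := chi_trans hp2 (norm_iso hs hw.1 hp) (norm_iso hs hv1.1 hp) (norm_iso hs hv0 hp)
    rw [flv_chiQ hs (by omega) hw i Fact.out hpn, one_mul] at c1
    rw [← c1, ← c2, chi_comm (norm_iso hs hw.1 hp) (norm_iso hs hv1.1 hp),
      rel_chiQ hs (by omega) hv1 hw hl hln' hrel Fact.out hpn, hle p hp, hv2 p hp]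
  · intro w hw
    rw [Set.Finite.mem_toFinset] at hw
    obtain ⟨hw1, hw2⟩ := hw
    by_cases hne : (S.bipartiteBelow (Rel l r) w).Nonempty
    · obtain ⟨v', hv'⟩ := hne
      rw [Finset.mem_bipartiteBelow, Set.Finite.mem_toFinset] at hv'
      have hsub : S.bipartiteBelow (Rel l r) w ⊆ Finset.univ.image (fun i : Fin 4 => flv i v') := by
        intro v hv
        rw [Finset.mem_bipartiteBelow, Set.Finite.mem_toFinset] at hv
        obtain ⟨i, hi⟩ := rel_injQ hs (by omega) hv.1.1 hv'.1.1 hw1 hl (by omega) hv.2 hv'.2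
        exact Finset.mem_image.2 ⟨i, Finset.mem_univ _, hi.symm⟩
      exact (Finset.card_le_card hsub).trans (Finset.card_image_le.trans (by simp))
    · rw [Finset.not_nonempty_iff_eq_empty.1 hne]; simp

theorem gen_eqQ {n : ℕ} [NeZero n] (hs : Squarefree n) (h8 : n % 8 = 1) (h1 : 1 < n) {v0 : ℤ × ℤ × ℤ}
    (hv0 : v0.1 ^ 2 + v0.2.1 ^ 2 + v0.2.2 ^ 2 = n) (e1 e2 : ℕ → ℤ) (he1 : ∀ p ∈ n.primeFactors, e1 p = 1 ∨ e1 p = -1)
    (he2 : ∀ p ∈ n.primeFactors, e2 p = 1 ∨ e2 p = -1) :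
    (GQ n v0 e1).ncard = (GQ n v0 e2).ncard := by
  have key : ∀ a b : ℕ → ℤ, (∀ p ∈ n.primeFactors, a p = 1 ∨ a p = -1) →
      (∀ p ∈ n.primeFactors, b p = 1 ∨ b p = -1) →
      (GQ n v0 a).ncard ≤ (GQ n v0 b).ncard := by
    intro a b ha hb
    have h := gen_leQ hs h8 h1 hv0 (fun p => a p * b p) a (by
      intro p hp
      rcases ha p hp with h1 | h1 <;> rcases hb p hp with h2 | h2 <;> simp [h1, h2])
    have hG : GQ n v0 (fun p => a p * b p * a p) = GQ n v0 b := by
      ext v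
      refine and_congr_right (fun _ => ?_)
      refine forall_congr' (fun p => forall_congr' (fun hp => ?_))
      have : a p * b p * a p = b p := by
        rcases ha p hp with h1 | h1 <;> rw [h1] <;> ring
      show chi p v v0 = a p * b p * a p ↔ _
      rw [this]
    rw [hG] at h
    exact h
  exact le_antisymm (key _ _ he1 he2) (key _ _ he2 he1)

theorem omQ_card (n : ℕ) [NeZero n] (hs : Squarefree n) (h8 : n % 8 = 1) (h1 : 1 < n)
    {v0 : ℤ × ℤ × ℤ} (hv0 : OmQ n v0) :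
    {v : ℤ × ℤ × ℤ | OmQ n v}.ncard = 4 * Nat.card (ClassGroup (Zsqrtd (-(n : ℤ)))) := by
  obtain ⟨s, hs0, hs1, hs3⟩ := gen_bij hs (parO n (by omega)) (odd_norm_iffO n (by omega)) (IsOm n)
    (fun μ h => h) (fun μ μ' h h' => exists_tw h8 h h') (fun μ a μ' _ h _ _ => h)
    (fun μ h => fl_free hs h1 h) hv0.om
  let g : ClassGroup (Od n) × Fin 4 → ℤ × ℤ × ℤ := fun p => vec (fl p.2 (s p.1))
  have hinj : Function.Injective g := by
    rintro ⟨C, v⟩ ⟨C', v'⟩ he
    have he : vec (fl v (s C)) = vec (fl v' (s C')) := he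
    have h2 : fl v (s C) = fl v' (s C') := by
      rw [← quat_vec (fl_om v (hs0 C)), ← quat_vec (fl_om v' (hs0 C')), he]
    obtain ⟨rfl, rfl⟩ := hs1 C C' v v' h2
    rfl
  have hr : {v : ℤ × ℤ × ℤ | OmQ n v} = Set.range g := by
    ext x
    constructor
    · intro hx
      have hx : OmQ n x := hx
      obtain ⟨C, v, hCv⟩ := hs3 _ hx.om
      refine ⟨(C, v), ?_⟩
      show vec (fl v (s C)) = x
      rw [hCv]; rfl
    · rintro ⟨⟨C, v⟩, rfl⟩
      have := fl_om v (hs0 C)
      exact ⟨this.sum, this.odd⟩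
  rw [hr]
  have e1 : (Set.range g).ncard = Nat.card (ClassGroup (Od n) × Fin 4) := by
    rw [← Nat.card_coe_set_eq, Nat.card_range_of_injective hinj]
  rw [e1, Nat.card_prod, Nat.card_eq_fintype_card (α := Fin 4), Fintype.card_fin]
  show Nat.card (ClassGroup (Od n)) * 4 = 4 * Nat.card (ClassGroup (Od n))
  ring

/-- some vector with odd first coordinate exists as soon as a vector of norm `n` exists -/
theorem exists_omQ {n : ℕ} (h8 : n % 8 = 1) {v : ℤ × ℤ × ℤ}
    (hv : v.1 ^ 2 + v.2.1 ^ 2 + v.2.2 ^ 2 = n) : ∃ w, OmQ n w := by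
  rcases sh_cases v (by rw [hv]; omega) with h | h | h
  · exact ⟨v, hv, h.1⟩
  · exact ⟨cyc v, by rw [norm_cyc, hv], h.1⟩
  · exact ⟨cyc (cyc v), by rw [norm_cyc, norm_cyc, hv], h.1⟩

/-- **number of vectors in a genus** -/
theorem genus_cardQ (n : ℕ) [NeZero n] (hs : Squarefree n) (h8 : n % 8 = 1) (h1 : 1 < n) {v0 : ℤ × ℤ × ℤ}
    (hv0 : v0.1 ^ 2 + v0.2.1 ^ 2 + v0.2.2 ^ 2 = n) (e : ℕ → ℤ) (he : ∀ p ∈ n.primeFactors, e p = 1 ∨ e p = -1) :
    {v : ℤ × ℤ × ℤ | OmQ n v ∧ ∀ p ∈ n.primeFactors, chi p v v0 = e p}.ncard *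
      2 ^ n.primeFactors.card = 4 * Nat.card (ClassGroup (Zsqrtd (-(n : ℤ)))) := by
  classical
  show (GQ n v0 e).ncard * _ = _
  obtain ⟨w0, hw0⟩ := exists_omQ h8 hv0
  rw [← omQ_card n hs h8 h1 hw0, Set.ncard_eq_toFinset_card _ (omQ_finite n)]
  set A := (omQ_finite n).toFinset
  set P := n.primeFactors with hP
  rw [Finset.card_eq_sum_card_fiberwise (f := fun v => P.filter (fun p => chi p v v0 = -1))
    (t := P.powerset)]
  · rw [Finset.sum_congr rfl (g := fun _ => (GQ n v0 e).ncard), Finset.sum_const, smul_eq_mul,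
      Finset.card_powerset, mul_comm]
    intro T hT
    have hT1 := Finset.mem_powerset.1 hT
    have h1' : (GQ n v0 (sgn T)).ncard = (GQ n v0 e).ncard :=
      gen_eqQ hs h8 h1 hv0 (sgn T) e (fun p _ => sgn_pm T p) he
    rw [← h1', Set.ncard_eq_toFinset_card _ (GQ_finite n v0 _)]
    congr 1
    ext v
    rw [Finset.mem_filter, Set.Finite.mem_toFinset, Set.Finite.mem_toFinset]
    refine and_congr_right (fun hv => ?_)
    constructor
    · intro h p hp
      unfold sgn
      split_ifs with hpT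
      · rw [← h] at hpT
        exact (Finset.mem_filter.1 hpT).2
      · have : Fact p.Prime := ⟨Nat.prime_of_mem_primeFactors hp⟩
        rcases chi_pm (pf_ne_two (by omega) hp) (norm_iso hs (OmQ.om hv).sum hp) (norm_iso hs hv0 hp) with h2 | h2
        · exact h2
        · exfalso
          apply hpT
          rw [← h]
          exact Finset.mem_filter.2 ⟨hp, h2⟩
    · intro h
      ext p
      rw [Finset.mem_filter]
      constructor
      · rintro ⟨hp, h2⟩
        by_contra hpT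
        have := h p hp
        unfold sgn at this
        rw [if_neg hpT, h2] at this
        norm_num at this
      · intro hpT
        refine ⟨hT1 hpT, ?_⟩
        have := h p (hT1 hpT)
        unfold sgn at this
        rw [if_pos hpT] at this
        exact this
  · intro v _
    show _ ∈ (P.powerset : Finset (Finset ℕ))
    rw [Finset.mem_powerset]
    exact Finset.filter_subset _ _

end Pool.Agent.GEN
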