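import Mathlib
import Pool.Agent.Lib_helper72.GEN.M
set_option autoImplicit false
namespace Pool.Agent.GEN
open Pool.Agent.TM32

theorem box_bound (x : ℤ) (a a' s N : ℕ) (hx : x = (a : ℤ) - a') (h1 : a < s + 1) (h2 : a' < s + 1)
    (h3 : s * s ≤ N) : x ^ 2 ≤ N := by
  have e1 : x ≤ s := by omega
  have e2 : -(s : ℤ) ≤ x := by omega
  have e3 : ((s * s : ℕ) : ℤ) ≤ (N : ℤ) := by exact_mod_cast h3
  push_cast at e3
  nlinarith

theorem final_t (M k A B S t : ℤ) (hM : 0 < M) (hk : 0 < k) (hA : A ^ 2 < M * k) (hB : B ^ 2 ≤ M)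
    (hS : S ^ 2 < k) (h : A ^ 2 + k * B ^ 2 - M * S ^ 2 = M * k * t) : t = 0 ∨ t = 1 := by
  have h1 : M * S ^ 2 < M * k := mul_lt_mul_of_pos_left hS hM
  have h2 : k * B ^ 2 ≤ k * M := mul_le_mul_of_nonneg_left hB hk.le
  have h3 : 0 ≤ k * B ^ 2 := mul_nonneg hk.le (sq_nonneg B)
  have h4 : 0 ≤ M * S ^ 2 := mul_nonneg hM.le (sq_nonneg S)
  have h5 := sq_nonneg A
  have hMk : 0 < M * k := mul_pos hM hk
  have h6 : k * M = M * k := mul_comm _ _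
  have hlow : -(M * k) < M * k * t := by linarith
  have hupp : M * k * t < 2 * (M * k) := by linarith
  generalize M * k = N at hMk hlow hupp
  have e1 : -1 < t := by
    by_contra h
    have : t ≤ -1 := by omega
    nlinarith
  have e2 : t < 2 := by
    by_contra h
    have : 2 ≤ t := by omega
    nlinarith
  omega

theorem zero_case (k A B S M : ℤ) (hk : 0 < k) (h : A ^ 2 + k * B ^ 2 - M * S ^ 2 = 0) (hS : S = 0) :
    A = 0 ∧ B = 0 := by
  rw [hS] at h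
  have h3 : 0 ≤ k * B ^ 2 := mul_nonneg hk.le (sq_nonneg B)
  have h5 := sq_nonneg A
  have hA0 : A ^ 2 = 0 := by linarith
  have hB0 : k * B ^ 2 = 0 := by linarith
  refine ⟨(pow_eq_zero_iff two_ne_zero).1 hA0, ?_⟩
  rcases mul_eq_zero.1 hB0 with h | h
  · omega
  · exact (pow_eq_zero_iff two_ne_zero).1 h

/-- pigeonhole form of Legendre's theorem -/
theorem legendre0 (M k : ℕ) (hM : 0 < M) (hk : k.Prime) (hkM : ¬ k ∣ M) (h : ℤ)
    (hh : (k : ℤ) ∣ h ^ 2 - M) (hmk : (M : ℤ) ∣ k + 1) :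
    ∃ A B S : ℤ, S ≠ 0 ∧ A ^ 2 + k * B ^ 2 = M * S ^ 2 := by
  classical
  have : NeZero M := ⟨hM.ne'⟩
  have : NeZero k := ⟨hk.ne_zero⟩
  set a0 := Nat.sqrt (M * k) with ha0
  set b0 := Nat.sqrt M with hb0
  set s0 := Nat.sqrt k with hs0
  have A1 : a0 * a0 ≤ M * k := Nat.sqrt_le _
  have A2 : M * k < (a0 + 1) * (a0 + 1) := Nat.lt_succ_sqrt _
  have B1 : b0 * b0 ≤ M := Nat.sqrt_le _
  have B2 : M < (b0 + 1) * (b0 + 1) := Nat.lt_succ_sqrt _
  have S1 : s0 * s0 ≤ k := Nat.sqrt_le _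
  have S2 : k < (s0 + 1) * (s0 + 1) := Nat.lt_succ_sqrt _
  let box : Finset (ℕ × ℕ × ℕ) := Finset.range (a0 + 1) ×ˢ Finset.range (b0 + 1) ×ˢ
    Finset.range (s0 + 1)
  have hbox : box.card = (a0 + 1) * ((b0 + 1) * (s0 + 1)) := by
    simp [box, Finset.card_product]
  let f : ℕ × ℕ × ℕ → ZMod M × ZMod k := fun p =>
    ((p.1 : ZMod M) - (p.2.1 : ZMod M), (p.1 : ZMod k) - (h : ZMod k) * (p.2.2 : ZMod k))
  have hcard : (Finset.univ : Finset (ZMod M × ZMod k)).card < box.card := by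
    rw [Finset.card_univ, Fintype.card_prod, ZMod.card, ZMod.card, hbox]
    have e1 : M * k * (M * k) < (a0 + 1) * ((b0 + 1) * (s0 + 1)) *
        ((a0 + 1) * ((b0 + 1) * (s0 + 1))) := by
      calc M * k * (M * k) < (a0 + 1) * (a0 + 1) * (M * k) :=
            Nat.mul_lt_mul_of_pos_right A2 (Nat.mul_pos hM hk.pos)
        _ ≤ (a0 + 1) * (a0 + 1) * (((b0 + 1) * (b0 + 1)) * ((s0 + 1) * (s0 + 1))) :=
            Nat.mul_le_mul_left _ (Nat.mul_le_mul B2.le S2.le)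
        _ = _ := by ring
    by_contra hle
    push Not at hle
    have := Nat.mul_le_mul hle hle
    omega
  obtain ⟨p, hp, q, hq, hpq, hf⟩ := Finset.exists_ne_map_eq_of_card_lt_of_maps_to hcard
    (f := f) (fun _ _ => Finset.mem_univ _)
  obtain ⟨a, b, s⟩ := p
  obtain ⟨a', b', s'⟩ := q
  simp only [box, Finset.mem_product, Finset.mem_range] at hp hq
  simp only [f, Prod.mk.injEq] at hf
  obtain ⟨hf1, hf2⟩ := hf
  set A : ℤ := (a : ℤ) - a' with hA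
  set B : ℤ := (b : ℤ) - b' with hB
  set S : ℤ := (s : ℤ) - s' with hS
  have h1 : (M : ℤ) ∣ A - B := by
    rw [← ZMod.intCast_zmod_eq_zero_iff_dvd, hA, hB]
    push_cast
    linear_combination hf1
  have h2 : (k : ℤ) ∣ A - h * S := by
    rw [← ZMod.intCast_zmod_eq_zero_iff_dvd, hA, hS]
    push_cast
    linear_combination hf2
  have hkP : Prime (k : ℤ) := Nat.prime_iff_prime_int.1 hk
  -- bounds
  have hAb : A ^ 2 ≤ M * k := by
    have := box_bound A a a' a0 (M * k) hA hp.1 hq.1 A1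
    push_cast at this
    exact this
  have hBb : B ^ 2 ≤ M := box_bound B b b' b0 M hB hp.2.1 hq.2.1 B1
  have hSb : S ^ 2 ≤ k := box_bound S s s' s0 k hS hp.2.2 hq.2.2 S1
  have nsq : ∀ x : ℤ, x ^ 2 ≠ k := by
    intro x hx
    have h3 : (k : ℤ) ∣ x := hkP.dvd_of_dvd_pow (n := 2) (by rw [hx])
    obtain ⟨y, hy⟩ := h3
    rw [hy] at hx
    have h4 : (k : ℤ) * (k * y ^ 2) = k * 1 := by linear_combination hx
    have h5 := mul_left_cancel₀ hkP.ne_zero h4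
    exact hkP.not_isUnit (IsUnit.of_mul_eq_one _ h5)
  have nsq2 : ∀ x : ℤ, x ^ 2 ≠ M * k := by
    intro x hx
    have h3 : (k : ℤ) ∣ x := hkP.dvd_of_dvd_pow (n := 2) (by rw [hx]; exact dvd_mul_left _ _)
    obtain ⟨y, hy⟩ := h3
    rw [hy] at hx
    have h4 : (k : ℤ) * (k * y ^ 2) = k * M := by linear_combination hx
    have h5 := mul_left_cancel₀ hkP.ne_zero h4
    apply hkM
    have h6 : (k : ℤ) ∣ (M : ℤ) := ⟨y ^ 2, h5.symm⟩
    exact_mod_cast h6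
  have hAb' : A ^ 2 < M * k := lt_of_le_of_ne hAb (nsq2 A)
  have hSb' : S ^ 2 < k := lt_of_le_of_ne hSb (nsq S)
  set Q : ℤ := A ^ 2 + k * B ^ 2 - M * S ^ 2 with hQ
  have hMpos : (0 : ℤ) < M := by exact_mod_cast hM
  have hkpos : (0 : ℤ) < k := by exact_mod_cast hk.pos
  have dM : (M : ℤ) ∣ Q := by
    obtain ⟨t, ht⟩ := h1
    obtain ⟨u, hu⟩ := hmk
    refine ⟨(A + B) * t + u * B ^ 2 - S ^ 2, ?_⟩
    rw [hQ]
    linear_combination (A + B) * ht + B ^ 2 * hu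
  have dk : (k : ℤ) ∣ Q := by
    obtain ⟨t, ht⟩ := h2
    obtain ⟨u, hu⟩ := hh
    refine ⟨(A + h * S) * t + B ^ 2 + u * S ^ 2, ?_⟩
    rw [hQ]
    linear_combination (A + h * S) * ht + S ^ 2 * hu
  have hco : IsCoprime (M : ℤ) (k : ℤ) := by
    rw [Nat.isCoprime_iff_coprime]
    exact ((Nat.Prime.coprime_iff_not_dvd hk).2 hkM).symm
  obtain ⟨t, ht⟩ := hco.mul_dvd dM dk
  have ht1 : t = 0 ∨ t = 1 := final_t M k A B S t hMpos hkpos hAb' hBb hSb' ht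
  rcases ht1 with rfl | rfl
  · have hQ0 : A ^ 2 + k * B ^ 2 - M * S ^ 2 = 0 := by rw [mul_zero] at ht; exact ht
    refine ⟨A, B, S, ?_, by linarith⟩
    intro hS0
    obtain ⟨hA0', hB0'⟩ := zero_case k A B S M hkpos hQ0 hS0
    apply hpq
    have e1 : a = a' := by omega
    have e2 : b = b' := by omega
    have e3 : s = s' := by omega
    rw [e1, e2, e3]
  · refine ⟨A * S + k * B, A - B * S, S ^ 2 + k, by positivity, ?_⟩
    have e1 : A ^ 2 + k * B ^ 2 = M * (S ^ 2 + k) := by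
      have : A ^ 2 + k * B ^ 2 - M * S ^ 2 = M * k * 1 := ht
      linarith
    calc (A * S + k * B) ^ 2 + k * (A - B * S) ^ 2 = (A ^ 2 + k * B ^ 2) * (S ^ 2 + k) := by ring
      _ = _ := by rw [e1]; ring

/-- removing the common factor -/
theorem reduce (M k : ℕ) (hM : Squarefree M) {A B S : ℤ} (hS : 0 < S)
    (h : A ^ 2 + k * B ^ 2 = M * S ^ 2) :
    ∃ g A' B' S' : ℤ, 0 < g ∧ A = g * A' ∧ B = g * B' ∧ S = g * S' ∧ 0 < S' ∧
      A' ^ 2 + k * B' ^ 2 = M * S' ^ 2 ∧ (∀ t : ℤ, Prime t → t ∣ A' → ¬ t ∣ B') := by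
  set g1 := Int.gcd A B with hg1
  set g := Int.gcd g1 S with hg
  have d1 : (g : ℤ) ∣ g1 := Int.gcd_dvd_left _ _
  have dS : (g : ℤ) ∣ S := Int.gcd_dvd_right _ _
  have dA : (g : ℤ) ∣ A := d1.trans (Int.gcd_dvd_left _ _)
  have dB : (g : ℤ) ∣ B := d1.trans (Int.gcd_dvd_right _ _)
  have hg0 : 0 < g := Int.gcd_pos_of_ne_zero_right _ hS.ne'
  have hg0' : (0 : ℤ) < g := by exact_mod_cast hg0
  obtain ⟨A', hA'⟩ := dA
  obtain ⟨B', hB'⟩ := dB
  obtain ⟨S', hS'⟩ := dS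
  have e1 : A' ^ 2 + k * B' ^ 2 = M * S' ^ 2 := by
    have : (g : ℤ) ^ 2 * (A' ^ 2 + k * B' ^ 2) = (g : ℤ) ^ 2 * (M * S' ^ 2) := by
      rw [hA', hB', hS'] at h
      linear_combination h
    exact mul_left_cancel₀ (pow_ne_zero 2 hg0'.ne') this
  refine ⟨g, A', B', S', hg0', hA', hB', hS', ?_, e1, ?_⟩
  · rw [hS'] at hS
    rcases lt_trichotomy S' 0 with h0 | h0 | h0
    · exfalso; nlinarith
    · exfalso; rw [h0, mul_zero] at hS; omega
    · exact h0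
  · intro t ht h1 h2
    have h3 : t ∣ S' := by
      by_contra h3
      have h4 : t * t ∣ (M : ℤ) * S' ^ 2 := by
        rw [← e1]
        obtain ⟨x, hx⟩ := h1
        obtain ⟨y, hy⟩ := h2
        rw [hx, hy]
        exact ⟨x ^ 2 + k * y ^ 2, by ring⟩
      have h5 : IsCoprime (t * t) (S' ^ 2) := by
        have h6 : IsCoprime t S' := (Prime.coprime_iff_not_dvd ht).2 h3
        exact (h6.mul_left h6).pow_right
      have h7 : t * t ∣ (M : ℤ) := h5.dvd_of_dvd_mul_right h4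
      exact ht.not_isUnit ((Int.squarefree_natCast.2 hM) t h7)
    -- then g t divides everything
    have h4 : (g : ℤ) * t ∣ (g1 : ℤ) := by
      apply Int.dvd_coe_gcd
      · rw [hA']; exact mul_dvd_mul_left _ h1
      · rw [hB']; exact mul_dvd_mul_left _ h2
    have h5 : (g : ℤ) * t ∣ (g : ℤ) := by
      have : (g : ℤ) * t ∣ ((Int.gcd g1 S : ℕ) : ℤ) := by
        apply Int.dvd_coe_gcd h4
        rw [hS']; exact mul_dvd_mul_left _ h3
      exact this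
    have h6 : (g : ℤ) * t ∣ (g : ℤ) * 1 := by rw [mul_one]; exact h5
    exact ht.not_isUnit (isUnit_of_dvd_one ((mul_dvd_mul_iff_left hg0'.ne').1 h6))

/-- good solutions of the norm equation -/
structure Good (k M : ℕ) (A B S : ℤ) : Prop where
  eq : A ^ 2 + k * B ^ 2 = M * S ^ 2
  cop : ∀ t : ℤ, Prime t → t ∣ A → ¬ t ∣ B
  odd : A % 2 = 1
  four : B % 4 = 0
  pos : 0 < S

theorem Good.S_odd {k M : ℕ} {A B S : ℤ} (h : Good k M A B S) : S % 2 = 1 := by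
  by_contra hne
  have h1 := h.eq
  have h2 := h.odd
  have h3 := h.four
  obtain ⟨s, rfl⟩ : ∃ s, S = 2 * s := ⟨S / 2, by omega⟩
  obtain ⟨a, rfl⟩ : ∃ a, A = 2 * a + 1 := ⟨A / 2, by omega⟩
  obtain ⟨b, rfl⟩ : ∃ b, B = 4 * b := ⟨B / 4, by omega⟩
  have : 2 * (2 * a ^ 2 + 2 * a + 8 * k * b ^ 2) + 1 = 2 * (2 * M * s ^ 2) := by
    linear_combination h1
  omega

theorem good_of_shape {k M : ℕ} (hM : Squarefree M) {A B S : ℤ} (hS : S ≠ 0)
    (h : A ^ 2 + k * B ^ 2 = M * S ^ 2) (hA : A % 2 = 1) (hB : B % 4 = 0) :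
    ∃ A' B' S' : ℤ, Good k M A' B' S' := by
  obtain ⟨g, A', B', S', h1, h2, h3, h4, h5, h6, h7⟩ := reduce M k hM (A := A) (B := B) (S := |S|)
    (abs_pos.2 hS) (by rw [sq_abs]; exact h)
  have hgA : (g * A') % 2 = 1 := by rw [← h2]; exact hA
  have hg : g % 2 = 1 := by
    by_contra hne
    obtain ⟨x, rfl⟩ : ∃ x, g = 2 * x := ⟨g / 2, by omega⟩
    have : 2 * x * A' = 2 * (x * A') := by ring
    omega
  have hA' : A' % 2 = 1 := by
    by_contra hne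
    obtain ⟨x, rfl⟩ : ∃ x, A' = 2 * x := ⟨A' / 2, by omega⟩
    have : g * (2 * x) = 2 * (g * x) := by ring
    omega
  refine ⟨A', B', S', h6, h7, hA', ?_, h5⟩
  rw [h3] at hB
  obtain ⟨x, rfl⟩ : ∃ x, g = 2 * x + 1 := ⟨g / 2, by omega⟩
  rcases (by omega : B' % 4 = 0 ∨ B' % 4 = 2 ∨ B' % 2 = 1) with h | h | h
  · exact h
  · exfalso
    obtain ⟨y, rfl⟩ : ∃ y, B' = 4 * y + 2 := ⟨B' / 4, by omega⟩
    have : (2 * x + 1) * (4 * y + 2) = 4 * (2 * x * y + x + y) + 2 := by ring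
    omega
  · exfalso
    obtain ⟨y, rfl⟩ : ∃ y, B' = 2 * y + 1 := ⟨B' / 2, by omega⟩
    have : (2 * x + 1) * (2 * y + 1) = 2 * (2 * x * y + x + y) + 1 := by ring
    omega

theorem exists_good (k M : ℕ) (hk : k.Prime) (hk8 : k % 8 = 1) (hM : Squarefree M) (hM8 : M % 8 = 1)
    (hmk : (M : ℤ) ∣ k + 1) : ∃ A B S : ℤ, Good k M A B S := by
  have : Fact k.Prime := ⟨hk⟩
  have hM0 : 0 < M := by omega
  have hkM : ¬ k ∣ M := by
    intro h
    have h1 : k ∣ k + 1 := h.trans (by exact_mod_cast hmk)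
    have h2 : k ∣ 1 := (Nat.dvd_add_right (dvd_refl k)).1 h1
    exact hk.one_lt.ne' (Nat.dvd_one.1 h2)
  obtain ⟨h, hh⟩ : ∃ h : ℤ, (k : ℤ) ∣ h ^ 2 - M := by
    have hMo : Odd M := Nat.odd_iff.2 (by omega)
    have hko : Odd k := Nat.odd_iff.2 (by omega)
    have h1 : jacobiSym M k = 1 := by
      rw [jacobiSym.quadratic_reciprocity_one_mod_four (by omega) hko]
      have h2 : jacobiSym k M = jacobiSym (-1) M := by
        apply jacobiSym.mod_left'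
        apply Int.ModEq.symm
        rw [Int.modEq_iff_dvd]
        exact dvd_eq hmk (by ring)
      rw [h2, jacobiSym.at_neg_one hMo, ZMod.χ₄_nat_one_mod_four (by omega)]
    obtain ⟨s, hs⟩ := ZMod.isSquare_of_jacobiSym_eq_one h1
    obtain ⟨r, rfl⟩ := ZMod.intCast_surjective s
    refine ⟨r, ?_⟩
    rw [← ZMod.intCast_zmod_eq_zero_iff_dvd]
    push_cast at hs ⊢
    linear_combination -hs
  obtain ⟨A0, B0, S0, hS0, he⟩ := legendre0 M k hM0 hk hkM h hh hmk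
  obtain ⟨g, A, B, S, -, -, -, -, hS, he', hc⟩ := reduce M k hM (A := A0) (B := B0) (S := |S0|)
    (abs_pos.2 hS0) (by rw [sq_abs]; exact he)
  obtain ⟨κ, hκ⟩ : ∃ κ : ℤ, (k : ℤ) = 8 * κ + 1 := ⟨(k / 8 : ℕ), by omega⟩
  obtain ⟨m, hm⟩ : ∃ m : ℤ, (M : ℤ) = 8 * m + 1 := ⟨(M / 8 : ℕ), by omega⟩
  have heq : A ^ 2 + B ^ 2 + 8 * (κ * B ^ 2) = S ^ 2 + 8 * (m * S ^ 2) := by
    rw [hκ, hm] at he'
    linear_combination he'
  have hnb : ¬ (A % 2 = 0 ∧ B % 2 = 0) := by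
    rintro ⟨h1, h2⟩
    exact hc 2 Int.prime_two (Int.dvd_of_emod_eq_zero h1) (Int.dvd_of_emod_eq_zero h2)
  by_cases hA : A % 2 = 1
  · apply good_of_shape hM hS.ne' he' hA
    rcases sq8 A with ⟨h1, h2⟩ | ⟨h1, h2⟩ | ⟨h1, h2⟩ <;>
    rcases sq8 B with ⟨h3, h4⟩ | ⟨h3, h4⟩ | ⟨h3, h4⟩ <;>
    rcases sq8 S with ⟨h5, h6⟩ | ⟨h5, h6⟩ | ⟨h5, h6⟩ <;>
    (generalize κ * B ^ 2 = X at heq; generalize m * S ^ 2 = Y at heq; omega)
  · have hB : B % 2 = 1 := by omega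
    have hA4 : A % 4 = 0 := by
      rcases sq8 A with ⟨h1, h2⟩ | ⟨h1, h2⟩ | ⟨h1, h2⟩ <;>
      rcases sq8 B with ⟨h3, h4⟩ | ⟨h3, h4⟩ | ⟨h3, h4⟩ <;>
      rcases sq8 S with ⟨h5, h6⟩ | ⟨h5, h6⟩ | ⟨h5, h6⟩ <;>
      (generalize κ * B ^ 2 = X at heq; generalize m * S ^ 2 = Y at heq; omega)
    apply good_of_shape (A := -(k * B) - 4 * κ * A) (B := A - 4 * κ * B) (S := S * (4 * κ + 1)) hM
    · have : (4 * κ + 1) ≠ 0 := by omega
      exact mul_ne_zero hS.ne' this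
    · have e1 : (4 * κ) ^ 2 + k = (4 * κ + 1) ^ 2 := by rw [hκ]; ring
      calc (-(k * B) - 4 * κ * A) ^ 2 + k * (A - 4 * κ * B) ^ 2
          = (A ^ 2 + k * B ^ 2) * ((4 * κ) ^ 2 + k) := by ring
        _ = _ := by rw [he', e1]; ring
    · obtain ⟨b, rfl⟩ : ∃ b, B = 2 * b + 1 := ⟨B / 2, by omega⟩
      rw [hκ]
      have : -((8 * κ + 1) * (2 * b + 1)) - 4 * κ * A = 2 * (-8 * κ * b - 4 * κ - b - 2 * κ * A - 1)
          + 1 := by ring
      omega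
    · obtain ⟨a, rfl⟩ : ∃ a, A = 4 * a := ⟨A / 4, by omega⟩
      have : 4 * a - 4 * κ * B = 4 * (a - κ * B) := by ring
      omega

end Pool.Agent.GEN
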