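import Mathlib
import Pool.Agent.Lib_helper72.GEN.N
set_option autoImplicit false
namespace Pool.Agent.GEN
open Pool.Agent.TM32

/-- vectors of a plane -/
def pl (g h A B : ℤ) : ℤ × ℤ × ℤ := (A, B * g, B * h)

theorem pl_norm (g h A B k : ℤ) (hk : g ^ 2 + h ^ 2 = k) :
    (pl g h A B).1 ^ 2 + (pl g h A B).2.1 ^ 2 + (pl g h A B).2.2 ^ 2 = A ^ 2 + k * B ^ 2 := by
  unfold pl; rw [← hk]; ring

theorem pl_dot (g h A B C D k : ℤ) (hk : g ^ 2 + h ^ 2 = k) :
    dot (pl g h A B) (pl g h C D) = A * C + k * (B * D) := by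
  unfold pl dot; rw [← hk]; ring

/-- two isotropic vectors of the plane modulo `p | k + 1` -/
theorem chi_pl {p : ℕ} [Fact p.Prime] (hp2 : p ≠ 2) (g h A B C D k : ℤ) (hk : g ^ 2 + h ^ 2 = k)
    (hpk : (p : ℤ) ∣ k + 1) (hv : Iso p (pl g h A B)) (hw : Iso p (pl g h C D)) :
    chi p (pl g h A B) (pl g h C D) = jacobiSym (A * C) p := by
  have hp : Prime (p : ℤ) := Nat.prime_iff_prime_int.1 Fact.out
  have main : ∀ X Y : ℤ, Iso p (pl g h X Y) → ¬ (p : ℤ) ∣ X ∧ (p : ℤ) ∣ (X - Y) * (X + Y) := by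
    intro X Y hi
    have h1 := hi.1
    rw [pl_dot _ _ _ _ _ _ k hk] at h1
    have h2 : (p : ℤ) ∣ (X - Y) * (X + Y) :=
      dvd_eq (dvd_sub h1 (dvd_mul_of_dvd_left hpk (Y * Y))) (by ring)
    refine ⟨?_, h2⟩
    intro hX
    apply hi.2
    have hY : (p : ℤ) ∣ Y := by
      rcases hp.dvd_or_dvd h2 with h3 | h3
      · exact dvd_eq (dvd_sub hX h3) (by ring)
      · exact dvd_eq (dvd_sub h3 hX) (by ring)
    exact ⟨hX, dvd_mul_of_dvd_left hY g, dvd_mul_of_dvd_left hY h⟩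
  obtain ⟨hA, hAB⟩ := main A B hv
  obtain ⟨hC, hCD⟩ := main C D hw
  by_cases hd : (p : ℤ) ∣ dot (pl g h A B) (pl g h C D)
  · unfold chi
    rw [if_pos hd]
    have : (pl g h C D).1 = C := rfl
    rw [this, if_neg hC]
    rfl
  · rw [chi_nd hd, pl_dot _ _ _ _ _ _ k hk]
    rw [pl_dot _ _ _ _ _ _ k hk] at hd
    have hAC : ¬ (p : ℤ) ∣ A * C := by
      intro h3
      rcases hp.dvd_or_dvd h3 with h4 | h4
      · exact hA h4
      · exact hC h4
    -- 2 dot = 4 A C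
    have h5 : (p : ℤ) ∣ 2 * (A * C + k * (B * D)) - 4 * (A * C) := by
      rcases hp.dvd_or_dvd hAB with h3 | h3 <;> rcases hp.dvd_or_dvd hCD with h4 | h4
      · exfalso; apply hd
        exact dvd_eq (dvd_add (dvd_add (dvd_mul_of_dvd_right h4 A) (dvd_mul_of_dvd_right h3 D))
          (dvd_mul_of_dvd_left hpk (B * D))) (by ring)
      · exact dvd_eq (dvd_add (dvd_add (dvd_mul_of_dvd_right h4 (-2 * A))
          (dvd_mul_of_dvd_right h3 (2 * D))) (dvd_mul_of_dvd_left hpk (2 * (B * D)))) (by ring)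
      · exact dvd_eq (dvd_add (dvd_add (dvd_mul_of_dvd_right h4 (-2 * A))
          (dvd_mul_of_dvd_right h3 (-2 * D))) (dvd_mul_of_dvd_left hpk (2 * (B * D)))) (by ring)
      · exfalso; apply hd
        exact dvd_eq (dvd_add (dvd_add (dvd_mul_of_dvd_right h4 A) (dvd_mul_of_dvd_right h3 (-D)))
          (dvd_mul_of_dvd_left hpk (B * D))) (by ring)
    have h6 : jacobiSym (2 * (A * C + k * (B * D))) p = jacobiSym (4 * (A * C)) p := by
      apply jacobiSym.mod_left'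
      apply Int.ModEq.symm
      rw [Int.modEq_iff_dvd]
      exact h5
    have h7 : jacobiSym 4 p = 1 := by
      have : jacobiSym 4 p = jacobiSym (2 ^ 2) p := by norm_num
      rw [this, jacobiSym.pow_left]
      rcases sym_pm (p := p) 2 (two_nd hp2) with h | h <;> rw [h] <;> norm_num
    rw [h6, jacobiSym.mul_left, h7, one_mul]

/-- symbol of an integer with absolute value -/
theorem sym_abs {M : ℕ} (hM : M % 4 = 1) (A : ℤ) : jacobiSym A M = jacobiSym A.natAbs M := by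
  have hMo : Odd M := Nat.odd_iff.2 (by omega)
  rcases Int.natAbs_eq A with h | h
  · conv_lhs => rw [h]
  · conv_lhs => rw [h]
    rw [jacobiSym.neg _ hMo, ZMod.χ₄_nat_one_mod_four hM, one_mul]

theorem sym_flip {M n : ℕ} (hM : M % 4 = 1) (hn : n % 2 = 1) : jacobiSym n M = jacobiSym M n :=
  jacobiSym.quadratic_reciprocity_one_mod_four' (Nat.odd_iff.2 hn) hM

theorem gcd_one_of {x : ℤ} {n : ℕ} (h : ∀ q : ℕ, q.Prime → (q : ℤ) ∣ x → ¬ q ∣ n) :
    x.gcd n = 1 := by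
  by_contra hne
  obtain ⟨p, hp, hpd⟩ := Nat.exists_prime_and_dvd hne
  have h1 : (p : ℤ) ∣ x := (Int.natCast_dvd_natCast.2 hpd).trans (Int.gcd_dvd_left _ _)
  have h2 : (p : ℤ) ∣ (n : ℤ) := (Int.natCast_dvd_natCast.2 hpd).trans (Int.gcd_dvd_right _ _)
  exact h p hp h1 (by exact_mod_cast h2)

/-- a prime does not divide `A` and `S` of a good solution -/
theorem Good.AS {k M : ℕ} (hk : k.Prime) {A B S : ℤ} (h : Good k M A B S) (q : ℕ) (hq : q.Prime)
    (h1 : (q : ℤ) ∣ A) : ¬ (q : ℤ) ∣ S := by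
  intro h2
  have hqP : Prime (q : ℤ) := Nat.prime_iff_prime_int.1 hq
  have h3 : (q : ℤ) * q ∣ (k : ℤ) * B ^ 2 := by
    obtain ⟨x, hx⟩ := h1
    obtain ⟨y, hy⟩ := h2
    refine ⟨M * y ^ 2 - x ^ 2, ?_⟩
    have := h.eq
    rw [hx, hy] at this
    linear_combination this
  have h4 : IsCoprime ((q : ℤ) * q) (B ^ 2) := by
    have h6 : IsCoprime (q : ℤ) B := (Prime.coprime_iff_not_dvd hqP).2 (h.cop _ hqP h1)
    exact (h6.mul_left h6).pow_right
  have h5 : (q : ℤ) * q ∣ (k : ℤ) := h4.dvd_of_dvd_mul_right h3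
  have h6 : q * q ∣ k := by exact_mod_cast h5
  rcases (Nat.dvd_prime hk).1 h6 with h7 | h7
  · have := hq.one_lt
    nlinarith
  · rw [← h7] at hk
    exact Nat.not_prime_mul hq.one_lt.ne' hq.one_lt.ne' hk

/-- the symbol of the first coordinate is the same modulo `M` and modulo `k` -/
theorem good_sym {k M : ℕ} (hk : k.Prime) (hk8 : k % 8 = 1) (hM8 : M % 8 = 1) {A B S : ℤ}
    (h : Good k M A B S) : jacobiSym A M = jacobiSym A k := by
  rw [sym_abs (by omega), sym_abs (M := k) (by omega)]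
  set n := A.natAbs with hn
  have hn2 : n % 2 = 1 := by have := h.odd; omega
  rw [sym_flip (by omega) hn2, sym_flip (by omega) hn2]
  have hnA : ∀ q : ℕ, q ∣ n → (q : ℤ) ∣ A := fun q hq => Int.natCast_dvd.2 hq
  have gS : S.gcd n = 1 := gcd_one_of (fun q hq h1 h2 => h.AS hk q hq (hnA q h2) h1)
  have gB : B.gcd n = 1 := gcd_one_of (fun q hq h1 h2 =>
    h.cop q (Nat.prime_iff_prime_int.1 hq) (hnA q h2) h1)
  calc jacobiSym M n = jacobiSym (M * S ^ 2) n := by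
        rw [jacobiSym.mul_left, jacobiSym.sq_one' gS, mul_one]
    _ = jacobiSym (k * B ^ 2) n := by
        apply jacobiSym.mod_left'
        apply Int.ModEq.symm
        rw [Int.modEq_iff_dvd]
        have h1 : (n : ℤ) ∣ A := hnA n (dvd_refl n)
        exact dvd_eq (dvd_mul_of_dvd_left h1 A) (by linear_combination h.eq)
    _ = jacobiSym k n := by rw [jacobiSym.mul_left, jacobiSym.sq_one' gB, mul_one]

/-- the symbol of a common factor of `N(α)N(β)` -/
theorem content_sym {k M M' : ℕ} (hk : k.Prime) (hk8 : k % 8 = 1) {A B S A' B' S' : ℤ}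
    (h : Good k M A B S) (h' : Good k M' A' B' S') (hkM : ¬ k ∣ M) (hkM' : ¬ k ∣ M') (E : ℤ)
    (hE : 0 < E) (hE2 : E % 2 = 1) (hd : E ∣ (A ^ 2 + k * B ^ 2) * (A' ^ 2 + k * B' ^ 2)) :
    jacobiSym E k = sg4 E := by
  obtain ⟨e, rfl⟩ : ∃ e : ℕ, E = e := ⟨E.toNat, by omega⟩
  have he2 : e % 2 = 1 := by omega
  have hodd : Odd e := Nat.odd_iff.2 he2
  have main : ∀ (M : ℕ) (A B S : ℤ), Good k M A B S → ¬ k ∣ M → ∀ q : ℕ, q.Prime →
      (q : ℤ) ∣ A ^ 2 + k * B ^ 2 → q ≠ k ∧ jacobiSym (-(k : ℤ)) q = 1 := by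
    intro M A B S h hkM q hq hqd
    have hqP : Prime (q : ℤ) := Nat.prime_iff_prime_int.1 hq
    have hkP : Prime (k : ℤ) := Nat.prime_iff_prime_int.1 hk
    have : Fact q.Prime := ⟨hq⟩
    have hqB : ¬ (q : ℤ) ∣ B := by
      intro h1
      have h2 : (q : ℤ) ∣ A ^ 2 :=
        dvd_eq (dvd_sub hqd (dvd_mul_of_dvd_right (dvd_pow h1 two_ne_zero) (k : ℤ))) (by ring)
      exact h.cop q hqP (hqP.dvd_of_dvd_pow h2) h1
    have hqk : q ≠ k := by
      rintro rfl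
      have h1 : (q : ℤ) ∣ A ^ 2 := dvd_eq (dvd_sub hqd (dvd_mul_right (q : ℤ) (B ^ 2))) (by ring)
      have h2 := hqP.dvd_of_dvd_pow h1
      have h3 : (q : ℤ) ∣ (M : ℤ) * S ^ 2 := by rw [← h.eq]; exact hqd
      rcases hqP.dvd_or_dvd h3 with h4 | h4
      · exact hkM (by exact_mod_cast h4)
      · exact h.AS hk q hq h2 (hqP.dvd_of_dvd_pow h4)
    refine ⟨hqk, ?_⟩
    have h3 : ¬ (q : ℤ) ∣ -(k : ℤ) := by
      intro h4
      have h5 : q ∣ k := by exact_mod_cast (dvd_neg.1 h4)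
      exact hqk ((Nat.prime_dvd_prime_iff_eq hq hk).1 h5)
    have h4 : jacobiSym (-(k : ℤ) * B ^ 2) q = 1 := by
      apply sq_sym _ A (dvd_eq (dvd_neg.2 hqd) (by ring))
      intro h5
      rcases hqP.dvd_or_dvd h5 with h6 | h6
      · exact h3 h6
      · exact hqB (hqP.dvd_of_dvd_pow h6)
    have gB : B.gcd q = 1 := gcd_one_of (fun q' hq' h1 h2 => by
      have : q' = q := (Nat.prime_dvd_prime_iff_eq hq' hq).1 h2
      rw [this] at h1
      exact hqB h1)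
    rw [jacobiSym.mul_left, jacobiSym.sq_one' gB, mul_one] at h4
    exact h4
  have all : ∀ q : ℕ, q.Prime → q ∣ e → q ≠ k ∧ jacobiSym (-(k : ℤ)) q = 1 := by
    intro q hq hqe
    have hqP : Prime (q : ℤ) := Nat.prime_iff_prime_int.1 hq
    have h1 : (q : ℤ) ∣ (A ^ 2 + k * B ^ 2) * (A' ^ 2 + k * B' ^ 2) :=
      (by exact_mod_cast hqe : (q : ℤ) ∣ (e : ℤ)).trans hd
    rcases hqP.dvd_or_dvd h1 with h2 | h2
    · exact main M A B S h hkM q hq h2
    · exact main M' A' B' S' h' hkM' q hq h2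
  have g1 : (-(k : ℤ)).gcd e = 1 := gcd_one_of (fun q hq h1 h2 => by
    have h5 : q ∣ k := by exact_mod_cast (dvd_neg.1 h1)
    exact (all q hq h2).1 ((Nat.prime_dvd_prime_iff_eq hq hk).1 h5))
  have h2 : jacobiSym (-(k : ℤ)) e = 1 := by
    rcases jacobiSym.eq_one_or_neg_one g1 with h3 | h3
    · exact h3
    · exfalso
      obtain ⟨p, hp, hpe, hpj⟩ := jacobiSym.eq_neg_one_at_prime_divisor_of_eq_neg_one h3
      rw [(all p hp hpe).2] at hpj
      norm_num at hpj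
  rw [jacobiSym.neg _ hodd] at h2
  rw [sym_flip (by omega) he2]
  unfold sg4
  rcases (by omega : e % 4 = 1 ∨ e % 4 = 3) with h5 | h5
  · rw [ZMod.χ₄_nat_one_mod_four h5, one_mul] at h2
    rw [if_pos (by omega)]
    exact h2
  · rw [ZMod.χ₄_nat_three_mod_four h5] at h2
    rw [if_neg (by omega)]
    linarith

/-- existence of the prime `k` -/
theorem exists_k (m : ℕ) (hm : m % 2 = 1) : ∃ k : ℕ, k.Prime ∧ k % 8 = 1 ∧ (m : ℤ) ∣ k + 1 := by
  have hco : Nat.Coprime 8 m := by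
    have : Nat.Coprime 2 m := by
      have h2 : ¬ 2 ∣ m := by omega
      exact (Nat.Prime.coprime_iff_not_dvd Nat.prime_two).2 h2
    exact Nat.Coprime.pow_left 3 this
  obtain ⟨c, hc1, hc2⟩ := Nat.chineseRemainder hco 1 (m - 1)
  have hc8 : c % 8 = 1 := hc1
  have hcm : (m : ℤ) ∣ c + 1 := by
    have h1 : ((c : ℕ) : ℤ) ≡ ((m - 1 : ℕ) : ℤ) [ZMOD m] := by exact_mod_cast hc2
    have h2 := (Int.modEq_iff_dvd.1 h1)
    have h3 : ((m - 1 : ℕ) : ℤ) = m - 1 := by omega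
    rw [h3] at h2
    exact dvd_eq (dvd_sub (dvd_refl (m : ℤ)) h2) (by ring)
  have hcc : Nat.Coprime c (8 * m) := by
    apply Nat.Coprime.mul_right
    · have h2 : ¬ 2 ∣ c := by omega
      have : Nat.Coprime c 2 := ((Nat.Prime.coprime_iff_not_dvd Nat.prime_two).2 h2).symm
      exact Nat.Coprime.pow_right 3 this
    · apply coprime_of
      intro p hp h1 h2
      have h3 : (p : ℤ) ∣ (c : ℤ) + 1 := (by exact_mod_cast h1 : (p : ℤ) ∣ (m : ℤ)).trans hcm
      have h4 : (p : ℤ) ∣ (c : ℤ) := by exact_mod_cast h2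
      have h5 : (p : ℤ) ∣ 1 := dvd_eq (dvd_sub h3 h4) (by ring)
      exact (Nat.prime_iff_prime_int.1 hp).not_dvd_one h5
  obtain ⟨k, hk1, hk2, hk3⟩ := Nat.forall_exists_prime_gt_and_modEq 1 (q := 8 * m) (by omega) hcc
  refine ⟨k, hk2, ?_, ?_⟩
  · have h1 : k ≡ c [MOD 8] := hk3.of_mul_right _
    rw [← hc8]; exact h1
  · have h1 : k ≡ c [MOD m] := hk3.of_mul_left _
    have h2 : ((k : ℕ) : ℤ) ≡ ((c : ℕ) : ℤ) [ZMOD m] := by exact_mod_cast h1
    have h3 := Int.modEq_iff_dvd.1 h2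
    exact dvd_eq (dvd_sub hcm h3) (by ring)

end Pool.Agent.GEN
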