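import Mathlib
import Pool.Agent.Lib_helper72.GEN.O
set_option autoImplicit false
namespace Pool.Agent.GEN
open Pool.Agent.TM32

/-- the normalised genus symbol with base point `u` of norm `d` -/
def kd (d : ℕ) (u v : ℤ × ℤ × ℤ) : ℤ := kap u * ∏ p ∈ d.primeFactors, chi p v u

theorem prim_pl {k M : ℕ} (hk : k.Prime) {g h A B S : ℤ} (hgh : g ^ 2 + h ^ 2 = k)
    (hG : Good k M A B S) (t : ℤ) (h1 : t ∣ (pl g h A B).1) (h2 : t ∣ (pl g h A B).2.1)
    (h3 : t ∣ (pl g h A B).2.2) : IsUnit t := by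
  by_contra hu
  have hne : t.natAbs ≠ 1 := fun h => hu (Int.isUnit_iff_natAbs_eq.2 h)
  obtain ⟨q, hq, hqt⟩ := Int.exists_prime_and_dvd hne
  have hkP : Prime (k : ℤ) := Nat.prime_iff_prime_int.1 hk
  have hA : q ∣ A := hqt.trans h1
  have hBg : q ∣ B * g := hqt.trans h2
  have hBh : q ∣ B * h := hqt.trans h3
  have hB : ¬ q ∣ B := hG.cop q hq hA
  have hg : q ∣ g := (hq.dvd_or_dvd hBg).resolve_left hB
  have hh : q ∣ h := (hq.dvd_or_dvd hBh).resolve_left hB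
  have h5 : q * q ∣ (k : ℤ) := by
    obtain ⟨x, hx⟩ := hg
    obtain ⟨y, hy⟩ := hh
    rw [← hgh, hx, hy]
    exact ⟨x ^ 2 + y ^ 2, by ring⟩
  obtain ⟨z, hz⟩ := h5
  have h6 : IsUnit q ∨ IsUnit (q * z) := hkP.irreducible.isUnit_or_isUnit (by rw [hz]; ring)
  rcases h6 with h7 | h7
  · exact hq.not_isUnit h7
  · exact hq.not_isUnit (isUnit_of_mul_isUnit_left h7)

theorem kap_pl {k M : ℕ} {g h A B S : ℤ} (hG : Good k M A B S) : kap (pl g h A B) = 1 := by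
  unfold kap pl
  have h1 := hG.odd
  have h2 := hG.four
  obtain ⟨b, rfl⟩ : ∃ b, B = 4 * b := ⟨B / 4, by omega⟩
  rw [if_neg]
  simp only
  have e1 : 4 * b * g = 4 * (b * g) := by ring
  have e2 : 4 * b * h = 4 * (b * h) := by ring
  rw [e1, e2]
  omega

/-- change of base point -/
theorem kd_of {k d : ℕ} (hs : Squarefree d) (h8 : d % 8 = 1) (hk : k.Prime) {g h A B S : ℤ}
    (hgh : g ^ 2 + h ^ 2 = k) (hG : Good k d A B S) {u v : ℤ × ℤ × ℤ}
    (hu : u.1 ^ 2 + u.2.1 ^ 2 + u.2.2 ^ 2 = d) (hv : ∀ p ∈ d.primeFactors, Iso p v) :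
    (∀ p ∈ d.primeFactors, Iso p (pl g h A B)) ∧
    kd d u v = sg4 S * ∏ p ∈ d.primeFactors, chi p v (pl g h A B) := by
  have hn : (pl g h A B).1 ^ 2 + (pl g h A B).2.1 ^ 2 + (pl g h A B).2.2 ^ 2 = d * S ^ 2 := by
    rw [pl_norm g h A B k hgh, hG.eq]
  have hprim : ∀ t : ℤ, t ∣ S → t ∣ (pl g h A B).1 → t ∣ (pl g h A B).2.1 →
      t ∣ (pl g h A B).2.2 → IsUnit t := fun t _ h1 h2 h3 => prim_pl hk hgh hG t h1 h2 h3
  obtain ⟨v0, -, -, hc⟩ := core hs h8 S hG.S_odd hG.pos hn hprim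
  have hiso : ∀ p ∈ d.primeFactors, Iso p (pl g h A B) := fun p hp =>
    (hc p (Nat.prime_of_mem_primeFactors hp) (Nat.dvd_of_mem_primeFactors hp)).1
  refine ⟨hiso, ?_⟩
  have hR := lemR hs h8 (v := pl g h A B) (w := u) S 1 hG.S_odd hG.pos hn hprim (by norm_num)
    (by norm_num) (by rw [hu]; ring) (fun t h1 _ _ _ => isUnit_of_dvd_one h1)
  rw [mul_one, kap_pl hG, mul_one] at hR
  have e1 : ∏ p ∈ d.primeFactors, chi p v u = (∏ p ∈ d.primeFactors, chi p v (pl g h A B)) *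
      ∏ p ∈ d.primeFactors, chi p (pl g h A B) u := by
    rw [← Finset.prod_mul_distrib]
    apply Finset.prod_congr rfl
    intro p hp
    have : Fact p.Prime := ⟨Nat.prime_of_mem_primeFactors hp⟩
    exact (chi_trans (pf_ne_two (by omega) hp) (hv p hp) (hiso p hp) (norm_iso hs hu hp)).symm
  unfold kd
  rw [e1, hR]
  have e2 := kap_sq u
  calc kap u * ((∏ p ∈ d.primeFactors, chi p v (pl g h A B)) * (sg4 S * kap u))
      = (kap u * kap u) * (sg4 S * ∏ p ∈ d.primeFactors, chi p v (pl g h A B)) := by ring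
    _ = _ := by rw [e2, one_mul]

theorem prod_pf_mul {a b : ℕ} (hab : Nat.Coprime a b) (f : ℕ → ℤ) :
    ∏ p ∈ (a * b).primeFactors, f p = (∏ p ∈ a.primeFactors, f p) * ∏ p ∈ b.primeFactors, f p := by
  rw [Nat.Coprime.primeFactors_mul hab, Finset.prod_union hab.disjoint_primeFactors]

/-- the product of two plane symbols over the primes of `c` -/
theorem pair_prod {c : ℕ} (hc : Squarefree c) (hc2 : c % 2 = 1) (g h A B C D k : ℤ)
    (hgh : g ^ 2 + h ^ 2 = k) (hck : (c : ℤ) ∣ k + 1) {v : ℤ × ℤ × ℤ}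
    (hv : ∀ p ∈ c.primeFactors, Iso p v) (h1 : ∀ p ∈ c.primeFactors, Iso p (pl g h A B))
    (h2 : ∀ p ∈ c.primeFactors, Iso p (pl g h C D)) :
    (∏ p ∈ c.primeFactors, chi p v (pl g h A B)) * ∏ p ∈ c.primeFactors, chi p v (pl g h C D) =
      jacobiSym A c * jacobiSym C c := by
  rw [← jacobiSym.mul_left, ← prod_sym _ c hc, ← Finset.prod_mul_distrib]
  apply Finset.prod_congr rfl
  intro p hp
  have : Fact p.Prime := ⟨Nat.prime_of_mem_primeFactors hp⟩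
  have hp2 := pf_ne_two hc2 hp
  have hpk : (p : ℤ) ∣ k + 1 :=
    (by exact_mod_cast (Nat.dvd_of_mem_primeFactors hp) : (p : ℤ) ∣ (c : ℤ)).trans hck
  rw [← chi_pl hp2 g h A B C D k hgh hpk (h1 p hp) (h2 p hp),
    chi_comm (hv p hp) (h1 p hp), chi_trans hp2 (h1 p hp) (hv p hp) (h2 p hp)]

theorem coprime_facts {a b c : ℕ} (hs : Squarefree (a * b * c)) :
    Nat.Coprime a b ∧ Nat.Coprime b c ∧ Nat.Coprime c a ∧ Squarefree (a * b) ∧
      Squarefree (b * c) ∧ Squarefree (c * a) ∧ Squarefree a ∧ Squarefree b ∧ Squarefree c := by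
  have h1 := (Nat.squarefree_mul_iff.1 hs)
  have h2 := (Nat.squarefree_mul_iff.1 h1.2.1)
  have cab : Nat.Coprime (a * b) c := h1.1
  have cac : Nat.Coprime a c := Nat.Coprime.coprime_mul_right cab
  have cbc : Nat.Coprime b c := Nat.Coprime.coprime_mul_left cab
  exact ⟨h2.1, cbc, cac.symm, h1.2.1, Nat.squarefree_mul_iff.2 ⟨cbc, h2.2.2, h1.2.2⟩,
    Nat.squarefree_mul_iff.2 ⟨cac.symm, h1.2.2, h2.2.1⟩, h2.2.1, h2.2.2, h1.2.2⟩

/-- **the cocycle relation** -/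
theorem cocycle {a b c : ℕ} (hs : Squarefree (a * b * c)) (h1 : (b * c) % 8 = 1)
    (h2 : (c * a) % 8 = 1) (h3 : (a * b) % 8 = 1) {u1 u2 u3 v : ℤ × ℤ × ℤ}
    (hu1 : u1.1 ^ 2 + u1.2.1 ^ 2 + u1.2.2 ^ 2 = ((b * c : ℕ) : ℤ))
    (hu2 : u2.1 ^ 2 + u2.2.1 ^ 2 + u2.2.2 ^ 2 = ((c * a : ℕ) : ℤ))
    (hu3 : u3.1 ^ 2 + u3.2.1 ^ 2 + u3.2.2 ^ 2 = ((a * b : ℕ) : ℤ))
    (hv : ∀ p ∈ (a * b * c).primeFactors, Iso p v) :
    kd (b * c) u1 v * kd (c * a) u2 v * kd (a * b) u3 v = sg4 c := by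
  obtain ⟨cab, cbc, cca, sab, sbc, sca, sa, sb, sc⟩ := coprime_facts hs
  have oc : c % 2 = 1 := by
    rcases Nat.mod_two_eq_zero_or_one c with h | h
    · exfalso
      obtain ⟨x, rfl⟩ : ∃ x, c = 2 * x := ⟨c / 2, by omega⟩
      have : b * (2 * x) = 2 * (b * x) := by ring
      omega
    · exact h
  have oa : a % 2 = 1 := by
    rcases Nat.mod_two_eq_zero_or_one a with h | h
    · exfalso
      obtain ⟨x, rfl⟩ : ∃ x, a = 2 * x := ⟨a / 2, by omega⟩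
      have : c * (2 * x) = 2 * (c * x) := by ring
      omega
    · exact h
  have ob : b % 2 = 1 := by
    rcases Nat.mod_two_eq_zero_or_one b with h | h
    · exfalso
      obtain ⟨x, rfl⟩ : ∃ x, b = 2 * x := ⟨b / 2, by omega⟩
      have : a * (2 * x) = 2 * (a * x) := by ring
      omega
    · exact h
  have om : (a * b * c) % 2 = 1 := by
    rw [Nat.mul_mod, Nat.mul_mod a b, oa, ob, oc]
  have habc0 : a * b * c ≠ 0 := hs.ne_zero
  obtain ⟨k, hk, hk8, hmk⟩ := exists_k (a * b * c) om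
  have hkP : Prime (k : ℤ) := Nat.prime_iff_prime_int.1 hk
  have : Fact k.Prime := ⟨hk⟩
  have dA : (a : ℤ) ∣ k + 1 := dvd_trans (by push_cast; exact ⟨b * c, by ring⟩) hmk
  have dB : (b : ℤ) ∣ k + 1 := dvd_trans (by push_cast; exact ⟨a * c, by ring⟩) hmk
  have dC : (c : ℤ) ∣ k + 1 := dvd_trans (by push_cast; exact ⟨a * b, by ring⟩) hmk
  have dBC : ((b * c : ℕ) : ℤ) ∣ k + 1 := dvd_trans (by push_cast; exact ⟨a, by ring⟩) hmk
  have dCA : ((c * a : ℕ) : ℤ) ∣ k + 1 := dvd_trans (by push_cast; exact ⟨b, by ring⟩) hmk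
  have nk : ∀ x : ℕ, (x : ℤ) ∣ k + 1 → ¬ k ∣ x := by
    intro x hx h
    have h1 : k ∣ k + 1 := h.trans (by exact_mod_cast hx)
    have h2 : k ∣ 1 := (Nat.dvd_add_right (dvd_refl k)).1 h1
    exact hk.one_lt.ne' (Nat.dvd_one.1 h2)
  obtain ⟨g', h', hgh'⟩ := Nat.Prime.sq_add_sq (p := k) (by omega)
  obtain ⟨g, hg⟩ : ∃ g : ℤ, g = g' := ⟨_, rfl⟩
  obtain ⟨h, hh⟩ : ∃ h : ℤ, h = h' := ⟨_, rfl⟩
  have hgh : g ^ 2 + h ^ 2 = k := by rw [hg, hh]; exact_mod_cast hgh'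
  obtain ⟨A1, B1, S1, G1⟩ := exists_good k (b * c) hk hk8 sbc h1 dBC
  obtain ⟨A2, B2, S2, G2⟩ := exists_good k (c * a) hk hk8 sca h2 dCA
  have hc0 : (0 : ℤ) < c := by
    have : c ≠ 0 := by rintro rfl; simp at habc0
    exact_mod_cast Nat.pos_of_ne_zero this
  have hnorm : (A1 * A2 + k * B1 * B2) ^ 2 + k * (A1 * B2 - A2 * B1) ^ 2 =
      (A1 ^ 2 + k * B1 ^ 2) * (A2 ^ 2 + k * B2 ^ 2) := by ring
  obtain ⟨E, G, D, S3, hE0, eG, eD, eS, hS3, heq, hcop⟩ := reduce (a * b) k sab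
    (A := A1 * A2 + k * B1 * B2) (B := A1 * B2 - A2 * B1) (S := c * S1 * S2)
    (mul_pos (mul_pos hc0 G1.pos) G2.pos) (by
      rw [hnorm, G1.eq, G2.eq]; push_cast; ring)
  have oG0 : (A1 * A2 + k * B1 * B2) % 2 = 1 := by
    have f1 := G1.odd
    have f2 := G2.odd
    have f3 := G1.four
    obtain ⟨x, hx⟩ : ∃ x, B1 = 2 * x := ⟨B1 / 2, by omega⟩
    have e : A1 * A2 + k * B1 * B2 = A1 * A2 + 2 * (k * x * B2) := by rw [hx]; ring
    have f4 := odd_mul' _ _ f1 f2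
    omega
  have oE : E % 2 = 1 := by
    by_contra hne
    obtain ⟨x, rfl⟩ : ∃ x, E = 2 * x := ⟨E / 2, by omega⟩
    have : 2 * x * G = 2 * (x * G) := by ring
    omega
  have oG : G % 2 = 1 := by
    by_contra hne
    obtain ⟨x, rfl⟩ : ∃ x, G = 2 * x := ⟨G / 2, by omega⟩
    have : E * (2 * x) = 2 * (E * x) := by ring
    omega
  have fD : D % 4 = 0 := by
    have f1 := G1.four
    have f2 := G2.four
    obtain ⟨x, hx⟩ : ∃ x, B1 = 4 * x := ⟨B1 / 4, by omega⟩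
    obtain ⟨y, hy⟩ : ∃ y, B2 = 4 * y := ⟨B2 / 4, by omega⟩
    obtain ⟨z, hz⟩ : ∃ z, E = 2 * z + 1 := ⟨E / 2, by omega⟩
    have e : 4 * (A1 * y - A2 * x) = (2 * z + 1) * D := by
      rw [← hz, ← eD, hx, hy]; ring
    rcases (by omega : D % 4 = 0 ∨ D % 4 = 2 ∨ D % 2 = 1) with h | h | h
    · exact h
    · exfalso
      obtain ⟨w, rfl⟩ : ∃ w, D = 4 * w + 2 := ⟨D / 4, by omega⟩
      have : (2 * z + 1) * (4 * w + 2) = 4 * (2 * z * w + z + w) + 2 := by ring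
      omega
    · exfalso
      obtain ⟨w, rfl⟩ : ∃ w, D = 2 * w + 1 := ⟨D / 2, by omega⟩
      have : (2 * z + 1) * (2 * w + 1) = 2 * (2 * z * w + z + w) + 1 := by ring
      omega
  have G3 : Good k (a * b) G D S3 := ⟨heq, hcop, oG, fD, hS3⟩
  -- base point changes
  have sub1 : ∀ p ∈ (b * c).primeFactors, p ∈ (a * b * c).primeFactors := fun p hp =>
    Nat.primeFactors_mono ⟨a, by ring⟩ habc0 hp
  have sub2 : ∀ p ∈ (c * a).primeFactors, p ∈ (a * b * c).primeFactors := fun p hp =>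
    Nat.primeFactors_mono ⟨b, by ring⟩ habc0 hp
  have sub3 : ∀ p ∈ (a * b).primeFactors, p ∈ (a * b * c).primeFactors := fun p hp =>
    Nat.primeFactors_mono ⟨c, by ring⟩ habc0 hp
  obtain ⟨i1, k1⟩ := kd_of sbc h1 hk hgh G1 hu1 (fun p hp => hv p (sub1 p hp))
  obtain ⟨i2, k2⟩ := kd_of sca h2 hk hgh G2 hu2 (fun p hp => hv p (sub2 p hp))
  obtain ⟨i3, k3⟩ := kd_of sab h3 hk hgh G3 hu3 (fun p hp => hv p (sub3 p hp))
  have z1 : b * c ≠ 0 := sbc.ne_zero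
  have z2 : c * a ≠ 0 := sca.ne_zero
  have z3 : a * b ≠ 0 := sab.ne_zero
  have Pc := pair_prod sc oc g h A1 B1 A2 B2 k hgh dC (v := v)
    (fun p hp => hv p (Nat.primeFactors_mono ⟨a * b, by ring⟩ habc0 hp))
    (fun p hp => i1 p (Nat.primeFactors_mono ⟨b, by ring⟩ z1 hp))
    (fun p hp => i2 p (Nat.primeFactors_mono ⟨a, by ring⟩ z2 hp))
  have Pa := pair_prod sa oa g h A2 B2 G D k hgh dA (v := v)
    (fun p hp => hv p (Nat.primeFactors_mono ⟨b * c, by ring⟩ habc0 hp))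
    (fun p hp => i2 p (Nat.primeFactors_mono ⟨c, by ring⟩ z2 hp))
    (fun p hp => i3 p (Nat.primeFactors_mono ⟨b, by ring⟩ z3 hp))
  have Pb := pair_prod sb ob g h A1 B1 G D k hgh dB (v := v)
    (fun p hp => hv p (Nat.primeFactors_mono ⟨a * c, by ring⟩ habc0 hp))
    (fun p hp => i1 p (Nat.primeFactors_mono ⟨c, by ring⟩ z1 hp))
    (fun p hp => i3 p (Nat.primeFactors_mono ⟨a, by ring⟩ z3 hp))
  rw [k1, k2, k3, prod_pf_mul cbc, prod_pf_mul cca, prod_pf_mul cab]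
  -- symbols
  have q1 := good_sym hk hk8 h1 G1
  have q2 := good_sym hk hk8 h2 G2
  have q3 := good_sym hk hk8 h3 G3
  have na : NeZero a := ⟨by rintro rfl; simp at habc0⟩
  have nb : NeZero b := ⟨by rintro rfl; simp at habc0⟩
  have nc : NeZero c := ⟨by rintro rfl; simp at habc0⟩
  rw [jacobiSym.mul_right] at q1 q2 q3
  have hEs := content_sym hk hk8 G1 G2 (nk _ dBC) (nk _ dCA) E hE0 oE (by
    rw [← hnorm, eG, eD]
    exact ⟨E * (G ^ 2 + k * D ^ 2), by ring⟩)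
  have hGk : jacobiSym E k * jacobiSym G k = jacobiSym A1 k * jacobiSym A2 k := by
    rw [← jacobiSym.mul_left, ← jacobiSym.mul_left, ← eG]
    apply jacobiSym.mod_left'
    apply Int.ModEq.symm
    rw [Int.modEq_iff_dvd]
    exact ⟨B1 * B2, by ring⟩
  have hGsq : jacobiSym G k * jacobiSym G k = 1 := by
    have hkG : ¬ (k : ℤ) ∣ G := by
      intro hd
      have h5 : (k : ℤ) ∣ ((a * b : ℕ) : ℤ) * S3 ^ 2 := by
        rw [← G3.eq]
        exact dvd_add (dvd_pow hd two_ne_zero) (dvd_mul_right _ _)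
      rcases hkP.dvd_or_dvd h5 with h6 | h6
      · have h7 : k ∣ a * b := by exact_mod_cast h6
        rcases (Nat.Prime.dvd_mul hk).1 h7 with h8 | h8
        · exact nk a dA h8
        · exact nk b dB h8
      · exact G3.AS hk k hk hd (hkP.dvd_of_dvd_pow h6)
    rcases sym_pm (p := k) G hkG with h | h <;> rw [h] <;> norm_num
  have hS : sg4 c * sg4 S1 * sg4 S2 = sg4 E * sg4 S3 := by
    rw [← sg4_mul _ _ oE G3.S_odd, ← eS, sg4_mul _ _ (odd_mul' _ _ (by omega) G1.S_odd) G2.S_odd,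
      sg4_mul _ _ (by omega) G1.S_odd]
  -- assembly
  have e1 := sg4_sq S1
  have e2 := sg4_sq S2
  have e3 := sg4_sq S3
  have eE := sg4_sq E
  have final : (jacobiSym A1 c * jacobiSym A2 c) * (jacobiSym A2 a * jacobiSym G a) *
      (jacobiSym A1 b * jacobiSym G b) = sg4 E := by
    calc (jacobiSym A1 c * jacobiSym A2 c) * (jacobiSym A2 a * jacobiSym G a) *
      (jacobiSym A1 b * jacobiSym G b) = (jacobiSym A1 b * jacobiSym A1 c) *
        (jacobiSym A2 c * jacobiSym A2 a) * (jacobiSym G a * jacobiSym G b) := by ring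
      _ = (jacobiSym A1 k * jacobiSym A2 k) * jacobiSym G k := by rw [q1, q2, q3]
      _ = jacobiSym E k * (jacobiSym G k * jacobiSym G k) := by rw [← hGk]; ring
      _ = sg4 E := by rw [hGsq, mul_one, hEs]
  calc sg4 S1 * ((∏ p ∈ b.primeFactors, chi p v (pl g h A1 B1)) *
        ∏ p ∈ c.primeFactors, chi p v (pl g h A1 B1)) *
      (sg4 S2 * ((∏ p ∈ c.primeFactors, chi p v (pl g h A2 B2)) *
        ∏ p ∈ a.primeFactors, chi p v (pl g h A2 B2))) *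
      (sg4 S3 * ((∏ p ∈ a.primeFactors, chi p v (pl g h G D)) *
        ∏ p ∈ b.primeFactors, chi p v (pl g h G D)))
      = sg4 S1 * sg4 S2 * sg4 S3 *
        (((∏ p ∈ c.primeFactors, chi p v (pl g h A1 B1)) *
          ∏ p ∈ c.primeFactors, chi p v (pl g h A2 B2)) *
        ((∏ p ∈ a.primeFactors, chi p v (pl g h A2 B2)) *
          ∏ p ∈ a.primeFactors, chi p v (pl g h G D)) *
        ((∏ p ∈ b.primeFactors, chi p v (pl g h A1 B1)) *
          ∏ p ∈ b.primeFactors, chi p v (pl g h G D))) := by ring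
    _ = sg4 S1 * sg4 S2 * sg4 S3 * sg4 E := by rw [Pc, Pa, Pb, final]
    _ = sg4 S1 * sg4 S2 * (sg4 c * sg4 S1 * sg4 S2) := by rw [hS]; ring
    _ = (sg4 S1 * sg4 S1) * (sg4 S2 * sg4 S2) * sg4 c := by ring
    _ = sg4 c := by rw [e1, e2]; ring

end Pool.Agent.GEN
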